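import Pool.Agent.Helper622.Section

namespace Pool.Agent.Helper622

variable {G : Type} [Group G]

namespace TorusGen

variable {s : ℕ} {l0 l1 l2 : G} (h : TorusGen s l0 l1 l2)
include h

theorem bz_inj' {p : Bool} (hp : bz s p = 0) : p = false := by
  cases p
  · rfl
  · exfalso
    have h1 : (1 : ZMod s) = 0 := hp
    have := h.one_lt
    have : Fact (1 < s) := ⟨this⟩
    exact one_ne_zero h1

omit h in
theorem ev_r (r : Bool) : ev l0 l1 l2 (0 : ZMod s) 0 false false r = if r then l1 else 1 := by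
  cases r <;> simp [ev, dd, zp_zero]

omit h in
theorem ev_q (q : Bool) : ev l0 l1 l2 (0 : ZMod s) 0 false q false = if q then l2 else 1 := by
  cases q <;> simp [ev, dd, zp_zero]

theorem ev_p (p : Bool) : ev l0 l1 l2 (bz s p) 0 p false false = if p then l0 else 1 := by
  cases p
  · simp [ev, dd, bz, zp_zero]
  · have := h.L0 0 0 false false false
    rw [h.ev_zero, mul_one] at this
    simpa [bz] using this.symm

theorem inter02 {x : G} (h1 : x ∈ Subgroup.closure {l1, l2}) (h2 : x ∈ Subgroup.closure {l0, l1}) :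
    x = 1 ∨ x = l1 := by
  obtain ⟨p, q, r, rfl⟩ := h.mem_H0.1 h1
  obtain ⟨p', q', r', h3⟩ := h.mem_H2.1 h2
  obtain ⟨e1, e2, rfl, rfl, -⟩ := h.ev_inj h3
  have e1 := h.bz_inj' e1.symm
  have e2 := h.bz_inj' e2.symm
  subst e1 e2
  rw [ev_r]
  cases r
  · exact Or.inl rfl
  · exact Or.inr rfl

theorem inter01 {x : G} (h1 : x ∈ Subgroup.closure {l1, l2}) (h2 : x ∈ Subgroup.closure {l0, l2}) :
    x = 1 ∨ x = l2 := by
  obtain ⟨p, q, r, rfl⟩ := h.mem_H0.1 h1
  obtain ⟨p', q', h3⟩ := h.mem_H1.1 h2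
  obtain ⟨e1, -, rfl, rfl, rfl⟩ := h.ev_inj h3
  have e1 := h.bz_inj' e1.symm
  subst e1
  rw [ev_q]
  cases q
  · exact Or.inl rfl
  · exact Or.inr rfl

theorem inter12 {x : G} (h1 : x ∈ Subgroup.closure {l0, l2}) (h2 : x ∈ Subgroup.closure {l0, l1}) :
    x = 1 ∨ x = l0 := by
  obtain ⟨p, q, rfl⟩ := h.mem_H1.1 h1
  obtain ⟨p', q', r', h3⟩ := h.mem_H2.1 h2
  obtain ⟨-, e2, rfl, rfl, rfl⟩ := h.ev_inj h3
  have e2 := h.bz_inj' e2.symm
  subst e2
  rw [h.ev_p]
  cases p
  · exact Or.inl rfl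
  · exact Or.inr rfl

theorem l2_not_mem : l2 ∉ Subgroup.closure {l0, l1} := by
  intro h1
  have h2 : l2 ∈ Subgroup.closure {l1, l2} := Subgroup.subset_closure (by simp)
  have h3 : l2 ∈ Subgroup.closure {l0, l2} := Subgroup.subset_closure (by simp)
  have h4 : l2 ≠ 1 := by
    intro e
    apply h.ne_mu
    rw [e, mul_one, h.i1]
  have h5 : l2 ≠ l1 := by
    intro e
    apply h.ne_mu
    rw [e, h.i1, one_mul]
  rcases h.inter02 h2 h1 with h6 | h6
  · exact h4 h6
  · exact h5 h6

theorem l0_not_mem : l0 ∉ Subgroup.closure {l1, l2} := by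
  intro h1
  obtain ⟨p, q, r, h2⟩ := h.mem_H0.1 h1
  have h3 := h.L0 0 0 false false false
  rw [h.ev_zero, mul_one] at h3
  obtain ⟨e1, -⟩ := h.ev_inj (h2.symm.trans h3)
  have := h.one_lt
  have : Fact (1 < s) := ⟨this⟩
  rw [sub_zero] at e1
  exact zero_ne_one e1

theorem ne0 : l0 ≠ 1 := fun e => h.l0_not_mem (by rw [e]; exact Subgroup.one_mem _)
theorem ne2 : l2 ≠ 1 := fun e => h.l2_not_mem (by rw [e]; exact Subgroup.one_mem _)
theorem ne1 : l1 ≠ 1 := by
  intro e
  apply h.ne_mu
  rw [e, one_mul, mul_one]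

end TorusGen

theorem mem_closure_one {a : G} (ha : a * a = 1) {x : G} (hx : x ∈ Subgroup.closure {a}) :
    x = 1 ∨ x = a := by
  induction hx using Subgroup.closure_induction with
  | mem x hx => exact Or.inr hx
  | one => exact Or.inl rfl
  | mul x y _ _ hx hy =>
    rcases hx with rfl | rfl <;> rcases hy with rfl | rfl
    · left; simp
    · right; simp
    · right; simp
    · left; exact ha
  | inv x _ hx =>
    rcases hx with rfl | rfl
    · left; simp
    · right; exact inv_eq_of_mul_eq_one_right ha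

/-- Two toroidal groups `⟨r0, r1, r2⟩` and `⟨r1, r2, r3⟩` that meet in `⟨r1, r2⟩`, with
`r0 r3 = r3 r0`, generate a string C-group. -/
theorem amalgam {s u : ℕ} {r0 r1 r2 r3 : G} (hA : TorusGen s r0 r1 r2)
    (hB : TorusGen u r1 r2 r3) (c03 : r0 * r3 = r3 * r0)
    (hAB : ∀ x, x ∈ Subgroup.closure {r0, r1, r2} → x ∈ Subgroup.closure {r1, r2, r3} →
      x ∈ Subgroup.closure {r1, r2}) : IsStringCIn ![r0, r1, r2, r3] := by
  have hmono : ∀ {S T : Set G}, S ⊆ T → Subgroup.closure S ≤ Subgroup.closure T :=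
    fun h => Subgroup.closure_mono h
  -- decomposition of the other two maximal parabolic subgroups
  have d1 : ∀ x ∈ Subgroup.closure {r0, r2, r3}, ∃ q ∈ Subgroup.closure {r2, r3},
      x = q ∨ x = r0 * q := by
    intro x hx
    have : ({r0, r2, r3} : Set G) = {r0} ∪ {r2, r3} := rfl
    rw [this] at hx
    obtain ⟨p, hp, q, hq, rfl⟩ := prod_of_closure (by
      rintro a rfl b (rfl | rfl)
      · exact hA.c02
      · exact c03) x hx
    rcases mem_closure_one hA.i0 hp with rfl | rfl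
    · exact ⟨q, hq, Or.inl (one_mul q)⟩
    · exact ⟨q, hq, Or.inr rfl⟩
  have d2 : ∀ x ∈ Subgroup.closure {r0, r1, r3}, ∃ p ∈ Subgroup.closure {r0, r1},
      x = p ∨ x = p * r3 := by
    intro x hx
    have : ({r0, r1, r3} : Set G) = {r0, r1} ∪ {r3} := by
      ext y
      simp only [Set.mem_insert_iff, Set.mem_singleton_iff, Set.mem_union]
      tauto
    rw [this] at hx
    obtain ⟨p, hp, q, hq, rfl⟩ := prod_of_closure (by
      rintro a (rfl | rfl) b rfl
      · exact c03
      · exact hB.c02) x hx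
    rcases mem_closure_one hB.i2 hq with rfl | rfl
    · exact ⟨p, hp, Or.inl (mul_one p)⟩
    · exact ⟨p, hp, Or.inr rfl⟩
  have n3 : r3 ∉ Subgroup.closure {r0, r1, r2} := fun h =>
    hB.l2_not_mem (hAB r3 h (Subgroup.subset_closure (by simp)))
  have n0 : r0 ∉ Subgroup.closure {r1, r2, r3} := fun h =>
    hA.l0_not_mem (hAB r0 (Subgroup.subset_closure (by simp)) h)
  -- intersections
  have i01 : ∀ x, x ∈ Subgroup.closure {r0, r1, r3} → x ∈ Subgroup.closure {r0, r1, r2} →
      x ∈ Subgroup.closure {r0, r1} := by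
    intro x h1 h2
    obtain ⟨p, hp, rfl | rfl⟩ := d2 x h1
    · exact hp
    · exfalso
      apply n3
      have : r3 = p⁻¹ * (p * r3) := by group
      rw [this]
      exact Subgroup.mul_mem _ (Subgroup.inv_mem _ (hmono (by
        rintro y (rfl | rfl) <;> simp) hp)) h2
  have i23 : ∀ x, x ∈ Subgroup.closure {r1, r2, r3} → x ∈ Subgroup.closure {r0, r2, r3} →
      x ∈ Subgroup.closure {r2, r3} := by
    intro x h1 h2
    obtain ⟨q, hq, rfl | rfl⟩ := d1 x h2
    · exact hq
    · exfalso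
      apply n0
      have : r0 = (r0 * q) * q⁻¹ := by group
      rw [this]
      exact Subgroup.mul_mem _ h1 (Subgroup.inv_mem _ (hmono (by
        rintro y (rfl | rfl) <;> simp) hq))
  have i02 : ∀ x, x ∈ Subgroup.closure {r0, r2, r3} → x ∈ Subgroup.closure {r0, r1, r2} →
      x ∈ Subgroup.closure {r0, r2} := by
    intro x h1 h2
    obtain ⟨q, hq, hx⟩ := d1 x h1
    have m0 : r0 ∈ Subgroup.closure {r0, r1, r2} := Subgroup.subset_closure (by simp)
    have hqA : q ∈ Subgroup.closure {r0, r1, r2} := by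
      rcases hx with rfl | rfl
      · exact h2
      · have : q = r0 * (r0 * q) := by rw [← mul_assoc, hA.i0, one_mul]
        rw [this]
        exact Subgroup.mul_mem _ m0 h2
    have hqB : q ∈ Subgroup.closure {r1, r2, r3} := hmono (by rintro y (rfl | rfl) <;> simp) hq
    have hq1 := hAB q hqA hqB
    have m0' : r0 ∈ Subgroup.closure {r0, r2} := Subgroup.subset_closure (by simp)
    have m2' : r2 ∈ Subgroup.closure {r0, r2} := Subgroup.subset_closure (by simp)
    rcases hB.inter02 hq hq1 with rfl | rfl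
    · rcases hx with rfl | rfl
      · exact Subgroup.one_mem _
      · rw [mul_one]; exact m0'
    · rcases hx with rfl | rfl
      · exact m2'
      · exact Subgroup.mul_mem _ m0' m2'
  have i13 : ∀ x, x ∈ Subgroup.closure {r1, r2, r3} → x ∈ Subgroup.closure {r0, r1, r3} →
      x ∈ Subgroup.closure {r1, r3} := by
    intro x h1 h2
    obtain ⟨p, hp, hx⟩ := d2 x h2
    have m3 : r3 ∈ Subgroup.closure {r1, r2, r3} := Subgroup.subset_closure (by simp)
    have hpB : p ∈ Subgroup.closure {r1, r2, r3} := by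
      rcases hx with rfl | rfl
      · exact h1
      · have : p = (p * r3) * r3 := by rw [mul_assoc, hB.i2, mul_one]
        rw [this]
        exact Subgroup.mul_mem _ h1 m3
    have hpA : p ∈ Subgroup.closure {r0, r1, r2} := hmono (by rintro y (rfl | rfl) <;> simp) hp
    have hp1 := hAB p hpA hpB
    have m1' : r1 ∈ Subgroup.closure {r1, r3} := Subgroup.subset_closure (by simp)
    have m3' : r3 ∈ Subgroup.closure {r1, r3} := Subgroup.subset_closure (by simp)
    rcases hA.inter02 hp1 hp with rfl | rfl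
    · rcases hx with rfl | rfl
      · exact Subgroup.one_mem _
      · rw [one_mul]; exact m3'
    · rcases hx with rfl | rfl
      · exact m1'
      · exact Subgroup.mul_mem _ m1' m3'
  have i03 : ∀ x, x ∈ Subgroup.closure {r0, r2, r3} → x ∈ Subgroup.closure {r0, r1, r3} →
      x ∈ Subgroup.closure {r0, r3} := by
    intro x h1 h2
    obtain ⟨q, hq, hx⟩ := d1 x h1
    obtain ⟨p, hp, hx'⟩ := d2 x h2
    have m0' : r0 ∈ Subgroup.closure {r0, r3} := Subgroup.subset_closure (by simp)
    have m3' : r3 ∈ Subgroup.closure {r0, r3} := Subgroup.subset_closure (by simp)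
    have m0 : r0 ∈ Subgroup.closure {r0, r1} := Subgroup.subset_closure (by simp)
    have m3 : r3 ∈ Subgroup.closure {r2, r3} := Subgroup.subset_closure (by simp)
    -- write `x = a * b` in two ways
    obtain ⟨a, ha, haS, ha'⟩ : ∃ a, (a = 1 ∨ a = r0) ∧ a ∈ Subgroup.closure {r0, r1} ∧
        x = a * q := by
      rcases hx with rfl | rfl
      · exact ⟨1, Or.inl rfl, Subgroup.one_mem _, (one_mul _).symm⟩
      · exact ⟨r0, Or.inr rfl, m0, rfl⟩
    obtain ⟨b, hb, hbS, hb'⟩ : ∃ b, (b = 1 ∨ b = r3) ∧ b ∈ Subgroup.closure {r2, r3} ∧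
        x = p * b := by
      rcases hx' with rfl | rfl
      · exact ⟨1, Or.inl rfl, Subgroup.one_mem _, (mul_one _).symm⟩
      · exact ⟨r3, Or.inr rfl, m3, rfl⟩
    have key : a⁻¹ * p = q * b⁻¹ := by
      have : a * q = p * b := ha'.symm.trans hb'
      calc a⁻¹ * p = a⁻¹ * (p * b) * b⁻¹ := by group
        _ = a⁻¹ * (a * q) * b⁻¹ := by rw [this]
        _ = q * b⁻¹ := by group
    have k1 : a⁻¹ * p ∈ Subgroup.closure {r0, r1} :=
      Subgroup.mul_mem _ (Subgroup.inv_mem _ haS) hp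
    have k2 : a⁻¹ * p ∈ Subgroup.closure {r2, r3} := by
      rw [key]; exact Subgroup.mul_mem _ hq (Subgroup.inv_mem _ hbS)
    have k3 := hAB _ (hmono (by rintro y (rfl | rfl) <;> simp) k1)
      (hmono (by rintro y (rfl | rfl) <;> simp) k2)
    have k4 : a⁻¹ * p = 1 := by
      rcases hA.inter02 k3 k1 with h3 | h3
      · exact h3
      · rcases hB.inter02 k2 k3 with h4 | h4
        · exact h4
        · exfalso
          apply hA.ne_mu
          have : r1 = r2 := h3.symm.trans h4
          rw [this, hA.i2, one_mul]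
    have k5 : p = a := by
      have : a * (a⁻¹ * p) = a * 1 := by rw [k4]
      rwa [mul_inv_cancel_left, mul_one] at this
    rw [hb', k5]
    refine Subgroup.mul_mem _ ?_ ?_
    · rcases ha with rfl | rfl
      · exact Subgroup.one_mem _
      · exact m0'
    · rcases hb with rfl | rfl
      · exact Subgroup.one_mem _
      · exact m3'
  have n03 : r0 ≠ r3 := by
    intro e
    apply n0
    rw [e]
    exact Subgroup.subset_closure (by simp)
  refine ⟨?_, ?_, ?_, ?_⟩
  · intro i
    fin_cases i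
    · exact hA.i0
    · exact hA.i1
    · exact hA.i2
    · exact hB.i2
  · intro i
    fin_cases i
    · exact hA.ne0
    · exact hA.ne1
    · exact hA.ne2
    · exact hB.ne2
  · intro i j hij
    fin_cases i <;> fin_cases j <;> simp at hij
    · exact hA.c02
    · exact c03
    · exact hB.c02
  · intro J x hx hJ
    have c0 : par ![r0, r1, r2, r3] {0}ᶜ ≤ Subgroup.closure {r1, r2, r3} := by
      refine (Subgroup.closure_le _).2 ?_
      rintro _ ⟨i, hi, rfl⟩
      refine Subgroup.subset_closure ?_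
      fin_cases i <;> simp at hi ⊢
    have c1 : par ![r0, r1, r2, r3] {1}ᶜ ≤ Subgroup.closure {r0, r2, r3} := by
      refine (Subgroup.closure_le _).2 ?_
      rintro _ ⟨i, hi, rfl⟩
      refine Subgroup.subset_closure ?_
      fin_cases i <;> simp at hi ⊢
    have c2 : par ![r0, r1, r2, r3] {2}ᶜ ≤ Subgroup.closure {r0, r1, r3} := by
      refine (Subgroup.closure_le _).2 ?_
      rintro _ ⟨i, hi, rfl⟩
      refine Subgroup.subset_closure ?_
      fin_cases i <;> simp at hi ⊢
    have c3 : par ![r0, r1, r2, r3] {3}ᶜ ≤ Subgroup.closure {r0, r1, r2} := by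
      refine (Subgroup.closure_le _).2 ?_
      rintro _ ⟨i, hi, rfl⟩
      refine Subgroup.subset_closure ?_
      fin_cases i <;> simp at hi ⊢
    have g0 : 0 ∉ J → x ∈ Subgroup.closure {r1, r2, r3} := fun h => c0 (hJ 0 h)
    have g1 : 1 ∉ J → x ∈ Subgroup.closure {r0, r2, r3} := fun h => c1 (hJ 1 h)
    have g2 : 2 ∉ J → x ∈ Subgroup.closure {r0, r1, r3} := fun h => c2 (hJ 2 h)
    have g3 : 3 ∉ J → x ∈ Subgroup.closure {r0, r1, r2} := fun h => c3 (hJ 3 h)
    have m0 : 0 ∈ J → r0 ∈ par ![r0, r1, r2, r3] J := fun h => mem_par ![r0, r1, r2, r3] h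
    have m1 : 1 ∈ J → r1 ∈ par ![r0, r1, r2, r3] J := fun h => mem_par ![r0, r1, r2, r3] h
    have m2 : 2 ∈ J → r2 ∈ par ![r0, r1, r2, r3] J := fun h => mem_par ![r0, r1, r2, r3] h
    have m3 : 3 ∈ J → r3 ∈ par ![r0, r1, r2, r3] J := fun h => mem_par ![r0, r1, r2, r3] h
    have lift : ∀ {S : Set G}, x ∈ Subgroup.closure S →
        (∀ y ∈ S, y ∈ par ![r0, r1, r2, r3] J) → x ∈ par ![r0, r1, r2, r3] J := by
      intro S hxS hS
      exact (Subgroup.closure_le _).2 hS hxS
    by_cases j0 : 0 ∈ J <;> by_cases j1 : 1 ∈ J <;> by_cases j2 : 2 ∈ J <;> by_cases j3 : 3 ∈ J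
    · have : J = Set.univ := by
        ext i; fin_cases i <;> simp <;> assumption
      rw [this]; exact hx
    · exact lift (g3 j3) (by rintro y (rfl | rfl | rfl); exacts [m0 j0, m1 j1, m2 j2])
    · exact lift (g2 j2) (by rintro y (rfl | rfl | rfl); exacts [m0 j0, m1 j1, m3 j3])
    · exact lift (i01 x (g2 j2) (g3 j3)) (by rintro y (rfl | rfl); exacts [m0 j0, m1 j1])
    · exact lift (g1 j1) (by rintro y (rfl | rfl | rfl); exacts [m0 j0, m2 j2, m3 j3])
    · exact lift (i02 x (g1 j1) (g3 j3)) (by rintro y (rfl | rfl); exacts [m0 j0, m2 j2])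
    · exact lift (i03 x (g1 j1) (g2 j2)) (by rintro y (rfl | rfl); exacts [m0 j0, m3 j3])
    · rcases hA.inter12 (i02 x (g1 j1) (g3 j3)) (i01 x (g2 j2) (g3 j3)) with rfl | rfl
      · exact Subgroup.one_mem _
      · exact m0 j0
    · exact lift (g0 j0) (by rintro y (rfl | rfl | rfl); exacts [m1 j1, m2 j2, m3 j3])
    · exact lift (hAB x (g3 j3) (g0 j0)) (by rintro y (rfl | rfl); exacts [m1 j1, m2 j2])
    · exact lift (i13 x (g0 j0) (g2 j2)) (by rintro y (rfl | rfl); exacts [m1 j1, m3 j3])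
    · rcases hA.inter02 (hAB x (g3 j3) (g0 j0)) (i01 x (g2 j2) (g3 j3)) with rfl | rfl
      · exact Subgroup.one_mem _
      · exact m1 j1
    · exact lift (i23 x (g0 j0) (g1 j1)) (by rintro y (rfl | rfl); exacts [m2 j2, m3 j3])
    · rcases hB.inter02 (i23 x (g0 j0) (g1 j1)) (hAB x (g3 j3) (g0 j0)) with rfl | rfl
      · exact Subgroup.one_mem _
      · exact m2 j2
    · rcases hB.inter01 (i23 x (g0 j0) (g1 j1)) (i13 x (g0 j0) (g2 j2)) with rfl | rfl
      · exact Subgroup.one_mem _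
      · exact m3 j3
    · rcases hB.inter01 (i23 x (g0 j0) (g1 j1)) (i13 x (g0 j0) (g2 j2)) with rfl | rfl
      · exact Subgroup.one_mem _
      · exact absurd (g3 j3) n3

end Pool.Agent.Helper622
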