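import Pool.Agent.Helper622.Amalgam

namespace Pool.Agent.Helper622

/-- five coordinates -/
@[ext]
structure V5 (K : Type) where
  a : K
  b : K
  c : K
  d : K
  e : K

namespace CharTwo

/-- Parameters: a field element `lam` with inverse `li`, `eta` with inverse `ei`,
`be = eta + ei`, `de * be = lam + li`, in characteristic two. -/
structure Par (K : Type) [Field K] where
  lam : K
  li : K
  eta : K
  ei : K
  be : K
  de : K
  bi : K
  ki : K
  two : (2 : K) = 0
  hl : lam * li = 1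
  he : eta * ei = 1
  hb : be = eta + ei
  hk : de * be = lam + li
  hbi : be * bi = 1
  hki : (lam + li) * ki = 1

variable {K : Type} [Field K] (P : Par K)

def f0 (v : V5 K) : V5 K := ⟨v.a, v.b, v.c + P.de * (v.b + v.d), v.d, v.e⟩
def f1 (v : V5 K) : V5 K := ⟨v.d + v.c, v.e + v.c, v.c, v.a + v.c, v.b + v.c⟩
def f2 (v : V5 K) : V5 K := ⟨v.a + P.be * v.b, v.b, v.c, v.d, v.e⟩
def f3 (v : V5 K) : V5 K := ⟨v.e, v.d, v.c, v.b, v.a⟩

theorem i0 : Function.Involutive (f0 P) := by
  intro v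
  have := P.two
  ext <;> simp only [f0] <;> grind

include P in
theorem i1 : Function.Involutive (f1 : V5 K → V5 K) := by
  intro v
  have := P.two
  ext <;> simp only [f1] <;> grind

theorem i2 : Function.Involutive (f2 P) := by
  intro v
  have := P.two
  ext <;> simp only [f2] <;> grind

omit [Field K] in
theorem i3 : Function.Involutive (f3 : V5 K → V5 K) := by
  intro v
  ext <;> simp only [f3]

def r0 : Equiv.Perm (V5 K) := (i0 P).toPerm
def r1 : Equiv.Perm (V5 K) := (i1 P).toPerm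
def r2 : Equiv.Perm (V5 K) := (i2 P).toPerm
def r3 : Equiv.Perm (V5 K) := (i3).toPerm

theorem r0_apply (v : V5 K) : r0 P v = f0 P v := rfl
theorem r1_apply (v : V5 K) : r1 P v = f1 v := rfl
theorem r2_apply (v : V5 K) : r2 P v = f2 P v := rfl
theorem r3_apply (v : V5 K) : r3 v = f3 v := rfl

theorem q0 : r0 P * r0 P = 1 := Equiv.ext fun v => i0 P v
theorem q1 : r1 P * r1 P = 1 := Equiv.ext fun v => i1 P v
theorem q2 : r2 P * r2 P = 1 := Equiv.ext fun v => i2 P v
theorem q3 : (r3 : Equiv.Perm (V5 K)) * r3 = 1 := Equiv.ext fun v => i3 v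

theorem c02 : r0 P * r2 P = r2 P * r0 P := by
  refine Equiv.ext fun v => ?_
  simp only [Equiv.Perm.mul_apply, r0_apply, r2_apply]
  ext <;> simp only [f0, f2]

theorem c03 : r0 P * r3 = r3 * r0 P := by
  refine Equiv.ext fun v => ?_
  simp only [Equiv.Perm.mul_apply, r0_apply, r3_apply]
  ext <;> simp only [f0, f3] <;> ring

theorem c13 : r1 P * r3 = r3 * r1 P := by
  refine Equiv.ext fun v => ?_
  simp only [Equiv.Perm.mul_apply, r1_apply, r3_apply]
  ext <;> simp only [f1, f3]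

omit [Field K] in
theorem pow4 (g : Equiv.Perm (V5 K)) (h : ∀ v, g (g (g (g v))) = v) : g ^ 4 = 1 := by
  refine Equiv.ext fun v => ?_
  have : g ^ 4 = g * g * g * g := by rw [pow_succ, pow_succ, pow_two]
  rw [this]
  exact h v

theorem h01 : (r0 P * r1 P) ^ 4 = 1 := by
  apply pow4
  intro v
  have := P.two
  simp only [Equiv.Perm.mul_apply, r0_apply, r1_apply]
  ext <;> simp only [f0, f1] <;> grind

theorem h12 : (r1 P * r2 P) ^ 4 = 1 := by
  apply pow4
  intro v
  have := P.two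
  simp only [Equiv.Perm.mul_apply, r1_apply, r2_apply]
  ext <;> simp only [f1, f2] <;> grind

theorem h23 : (r2 P * r3) ^ 4 = 1 := by
  apply pow4
  intro v
  have := P.two
  simp only [Equiv.Perm.mul_apply, r2_apply, r3_apply]
  ext <;> simp only [f2, f3] <;> grind

/-- powers of the translation of `⟨r0, r1, r2⟩` -/
def F (x y : K) (v : V5 K) : V5 K :=
  ⟨v.a, v.b,
    v.e + P.ki * ((x + y) * (P.de * (v.b + v.d) + (P.lam + P.li) * (v.c + v.e)) +
      (x * (1 + P.li) + y * (1 + P.lam)) * (v.c + v.e)),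
    v.b + P.ki * ((x + y) * (P.be * (v.c + v.e)) +
      (x * (1 + P.li) + y * (1 + P.lam)) * (v.b + v.d)), v.e⟩

theorem F_one (v : V5 K) : F P 1 1 v = v := by
  have h1 := P.two
  have h2 := P.hki
  ext <;> simp only [F] <;> grind

theorem F_step (x y : K) (v : V5 K) :
    (r0 P * (r1 P * r2 P * r1 P)) (F P x y v) = F P (P.lam * x) (P.li * y) v := by
  have h1 := P.two
  have h2 := P.hki
  have h3 := P.hk
  have h4 := P.hl
  simp only [Equiv.Perm.mul_apply, r0_apply, r1_apply, r2_apply]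
  ext <;> simp only [F, f0, f1, f2] <;> grind

theorem X_pow (n : ℕ) (v : V5 K) :
    ((r0 P * (r1 P * r2 P * r1 P)) ^ n) v = F P (P.lam ^ n) (P.li ^ n) v := by
  induction n with
  | zero => simp only [pow_zero, Equiv.Perm.one_apply, F_one]
  | succ n ih => rw [pow_succ', Equiv.Perm.mul_apply, ih, F_step, pow_succ', pow_succ']

/-- powers of the translation of `⟨r1, r2, r3⟩` -/
def H (x y : K) (v : V5 K) : V5 K :=
  ⟨v.c + P.bi * ((x + y) * v.b + (x * P.ei + y * P.eta) * (v.a + v.c)),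
   P.bi * ((x + y) * (v.a + v.c + P.be * v.b) + (x * P.ei + y * P.eta) * v.b),
   v.c,
   P.bi * ((x + y) * (v.e + v.c + P.be * v.d) + (x * P.ei + y * P.eta) * v.d),
   v.c + P.bi * ((x + y) * v.d + (x * P.ei + y * P.eta) * (v.e + v.c))⟩

theorem H_one (v : V5 K) : H P 1 1 v = v := by
  have h1 := P.two
  have h2 := P.hbi
  have h3 := P.hb
  ext <;> simp only [H] <;> grind

theorem H_step (x y : K) (v : V5 K) :
    (r1 P * (r2 P * r3 * r2 P) : Equiv.Perm (V5 K)) (H P x y v) =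
      H P (P.eta * x) (P.ei * y) v := by
  have h1 := P.two
  have h2 := P.hbi
  have h3 := P.hb
  have h4 := P.he
  simp only [Equiv.Perm.mul_apply, r1_apply, r2_apply, r3_apply]
  ext <;> simp only [H, f1, f2, f3] <;> grind

theorem XB_pow (n : ℕ) (v : V5 K) :
    ((r1 P * (r2 P * r3 * r2 P) : Equiv.Perm (V5 K)) ^ n) v =
      H P (P.eta ^ n) (P.ei ^ n) v := by
  induction n with
  | zero => simp only [pow_zero, Equiv.Perm.one_apply, H_one]
  | succ n ih => rw [pow_succ', Equiv.Perm.mul_apply, ih, H_step, pow_succ', pow_succ']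

theorem sq_one {x y : K} (h : x * y = 1) (h2 : (2 : K) = 0) (hxy : x + y = 0) : x = 1 := by
  have h3 : (x + 1) * (x + 1) = 0 := by grind
  have h4 : x + 1 = 0 := by
    rcases mul_eq_zero.1 h3 with h | h <;> exact h
  grind

theorem pow_mul_pow {x y : K} (h : x * y = 1) (n : ℕ) : x ^ n * y ^ n = 1 := by
  rw [← mul_pow, h, one_pow]

theorem de_ne (hl : P.lam + P.li ≠ 0) : P.de ≠ 0 := by
  intro h
  apply hl
  rw [← P.hk, h, zero_mul]

theorem ki_ne : P.ki ≠ 0 := by
  intro h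
  have := P.hki
  rw [h, mul_zero] at this
  exact zero_ne_one this

theorem bi_ne : P.bi ≠ 0 := by
  intro h
  have := P.hbi
  rw [h, mul_zero] at this
  exact zero_ne_one this

theorem lam_ne : P.lam + P.li ≠ 0 := by
  intro h
  have := P.hki
  rw [h, zero_mul] at this
  exact zero_ne_one this

/-- if the power of the translation maps `e4` to a vector with third coordinate zero then
`lam ^ n = 1` -/
theorem lam_pow (n : ℕ) (h : (((r0 P * (r1 P * r2 P * r1 P)) ^ n) ⟨0, 0, 0, 1, 0⟩).c = 0) :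
    P.lam ^ n = 1 := by
  rw [X_pow] at h
  simp only [F, add_zero, mul_zero, zero_add, mul_one] at h
  apply sq_one (pow_mul_pow P.hl n) P.two
  have h1 := ki_ne P
  have h2 := de_ne P (lam_ne P)
  rcases mul_eq_zero.1 h with h | h
  · exact absurd h h1
  · rcases mul_eq_zero.1 h with h | h
    · exact h
    · exact absurd h h2

theorem X_pow_one {n : ℕ} (h : P.lam ^ n = 1) : (r0 P * (r1 P * r2 P * r1 P)) ^ n = 1 := by
  refine Equiv.ext fun v => ?_
  have h' : P.li ^ n = 1 := by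
    have := pow_mul_pow P.hl n
    rwa [h, one_mul] at this
  rw [X_pow, h, h', F_one]
  rfl

theorem eta_pow (n : ℕ)
    (h : (((r1 P * (r2 P * r3 * r2 P) : Equiv.Perm (V5 K)) ^ n) ⟨0, 1, 0, 0, 0⟩).a = 0) :
    P.eta ^ n = 1 := by
  rw [XB_pow] at h
  simp only [H, add_zero, mul_zero, zero_add, mul_one] at h
  apply sq_one (pow_mul_pow P.he n) P.two
  have h1 := bi_ne P
  rcases mul_eq_zero.1 h with h | h
  · exact absurd h h1
  · exact h

theorem XB_pow_one {n : ℕ} (h : P.eta ^ n = 1) :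
    (r1 P * (r2 P * r3 * r2 P) : Equiv.Perm (V5 K)) ^ n = 1 := by
  refine Equiv.ext fun v => ?_
  have h' : P.ei ^ n = 1 := by
    have := pow_mul_pow P.he n
    rwa [h, one_mul] at this
  rw [XB_pow, h, h', H_one]
  rfl

theorem genA {s : ℕ} (hs : Odd s) (h1 : 1 < s) (hl : orderOf P.lam = s) :
    TorusGen s (r0 P) (r1 P) (r2 P) where
  i0 := q0 P
  i1 := q1 P
  i2 := q2 P
  c02 := c02 P
  h01 := h01 P
  h12 := h12 P
  ord := by
    apply Nat.dvd_antisymm
    · apply orderOf_dvd_of_pow_eq_one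
      apply X_pow_one
      rw [← hl]
      exact pow_orderOf_eq_one _
    · rw [← hl]
      apply orderOf_dvd_of_pow_eq_one
      apply lam_pow
      rw [pow_orderOf_eq_one]
      rfl
  odd := hs
  one_lt := h1

theorem genB {u : ℕ} (hu : Odd u) (h1 : 1 < u) (hl : orderOf P.eta = u) :
    TorusGen u (r1 P) (r2 P) (r3 : Equiv.Perm (V5 K)) where
  i0 := q1 P
  i1 := q2 P
  i2 := q3
  c02 := c13 P
  h01 := h12 P
  h12 := h23 P
  ord := by
    apply Nat.dvd_antisymm
    · apply orderOf_dvd_of_pow_eq_one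
      apply XB_pow_one
      rw [← hl]
      exact pow_orderOf_eq_one _
    · rw [← hl]
      apply orderOf_dvd_of_pow_eq_one
      apply eta_pow
      rw [pow_orderOf_eq_one]
      rfl
  odd := hu
  one_lt := h1

/-- elements of `⟨r1, r2, r3⟩` preserve the third coordinate -/
theorem pres {g : Equiv.Perm (V5 K)} (hg : g ∈ Subgroup.closure {r1 P, r2 P, r3}) (v : V5 K) :
    (g v).c = v.c := by
  have key : ∀ a ∈ ({r1 P, r2 P, r3} : Set (Equiv.Perm (V5 K))), ∀ v, (a v).c = v.c := by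
    rintro a (rfl | rfl | rfl) v <;> rfl
  induction hg using Subgroup.closure_induction generalizing v with
  | mem a ha => exact key a ha v
  | one => rfl
  | mul x y _ _ hx hy => rw [Equiv.Perm.mul_apply, hx, hy]
  | inv x _ hx =>
    have := hx (x⁻¹ v)
    have e : x (x⁻¹ v) = v := Equiv.apply_symm_apply x v
    rw [e] at this
    exact this.symm

theorem interAB {s : ℕ} (hA : TorusGen s (r0 P) (r1 P) (r2 P)) (x : Equiv.Perm (V5 K))
    (h1 : x ∈ Subgroup.closure {r0 P, r1 P, r2 P})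
    (h2 : x ∈ Subgroup.closure {r1 P, r2 P, r3}) : x ∈ Subgroup.closure {r1 P, r2 P} := by
  obtain ⟨i, j, p, q, r, rfl⟩ := hA.mem_L h1
  rw [hA.mem_H0]
  have hd : dd (r1 P) (r2 P) p q r ∈ Subgroup.closure {r1 P, r2 P, r3} := by
    have h3 : dd (r1 P) (r2 P) p q r ∈ Subgroup.closure {r1 P, r2 P} := by
      rw [hA.mem_H0]
      exact ⟨p, q, r, by simp [ev, zp_zero]⟩
    exact Subgroup.closure_mono (by rintro y (rfl | rfl) <;> simp) h3
  have hT : zp (tX (r0 P) (r1 P) (r2 P)) i * zp (tY (r0 P) (r1 P) (r2 P)) j ∈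
      Subgroup.closure {r1 P, r2 P, r3} := by
    have := Subgroup.mul_mem _ h2 (Subgroup.inv_mem _ hd)
    rwa [ev, mul_inv_cancel_right] at this
  -- action of the second translation
  have hY : ∀ v, zp (tY (r0 P) (r1 P) (r2 P)) j v =
      f1 ((tX (r0 P) (r1 P) (r2 P) ^ j.val) (f1 v)) := by
    intro v
    rw [zp, tY, ← r1_apply P, ← r1_apply P, ← hA.conj_pow']
    rfl
  have hX : tX (r0 P) (r1 P) (r2 P) = r0 P * (r1 P * r2 P * r1 P) := rfl
  have hY4 : zp (tY (r0 P) (r1 P) (r2 P)) j ⟨0, 0, 0, 1, 0⟩ = ⟨0, 0, 0, 1, 0⟩ := by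
    rw [hY, hX, X_pow]
    ext <;> simp [f1, F]
  have hi : P.lam ^ i.val = 1 := by
    apply lam_pow
    have := pres P hT ⟨0, 0, 0, 1, 0⟩
    rw [Equiv.Perm.mul_apply, hY4] at this
    exact this
  have hXi : zp (tX (r0 P) (r1 P) (r2 P)) i = 1 := X_pow_one P hi
  rw [hXi, one_mul] at hT
  have hj : P.lam ^ j.val = 1 := by
    apply lam_pow
    have := pres P hT ⟨1, 0, 0, 0, 0⟩
    rw [hY, hX] at this
    have e1 : f1 (⟨1, 0, 0, 0, 0⟩ : V5 K) = ⟨0, 0, 0, 1, 0⟩ := by
      ext <;> simp [f1]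
    rw [e1] at this
    exact this
  have hXj : tX (r0 P) (r1 P) (r2 P) ^ j.val = 1 := X_pow_one P hj
  have hYj : zp (tY (r0 P) (r1 P) (r2 P)) j = 1 := by
    rw [zp, tY, ← hA.conj_pow', hXj, mul_one, hA.i1]
  exact ⟨p, q, r, by rw [ev, hXi, hYj]; simp [ev, zp_zero]⟩

theorem isStringCIn {s u : ℕ} (hs : Odd s) (h1 : 1 < s) (hl : orderOf P.lam = s)
    (hu : Odd u) (h1' : 1 < u) (he : orderOf P.eta = u) :
    IsStringCIn ![r0 P, r1 P, r2 P, r3] :=
  amalgam (genA P hs h1 hl) (genB P hu h1' he) (c03 P) (interAB P (genA P hs h1 hl))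

end CharTwo

/-- existence of the parameters -/
theorem exists_par {s u : ℕ} (hs : Odd s) (h1 : 1 < s) (hu : Odd u) (h1' : 1 < u) :
    ∃ P : CharTwo.Par (AlgebraicClosure (ZMod 2)), orderOf P.lam = s ∧ orderOf P.eta = u := by
  have two : (2 : AlgebraicClosure (ZMod 2)) = 0 := by
    have := CharP.cast_eq_zero (AlgebraicClosure (ZMod 2)) 2
    exact_mod_cast this
  have ex : ∀ n : ℕ, Odd n → 1 < n → ∃ z : AlgebraicClosure (ZMod 2), orderOf z = n := by
    intro n hn h1
    have hne : NeZero (n : AlgebraicClosure (ZMod 2)) := by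
      refine ⟨fun h => ?_⟩
      rw [CharP.cast_eq_zero_iff (AlgebraicClosure (ZMod 2)) 2] at h
      obtain ⟨m, hm⟩ := hn
      omega
    have hdeg : (Polynomial.cyclotomic n (AlgebraicClosure (ZMod 2))).degree ≠ 0 := by
      rw [Polynomial.degree_cyclotomic]
      have := Nat.totient_pos.2 (by omega : 0 < n)
      exact_mod_cast this.ne'
    obtain ⟨z, hz⟩ := IsAlgClosed.exists_root _ hdeg
    rw [Polynomial.isRoot_cyclotomic_iff] at hz
    exact ⟨z, hz.eq_orderOf.symm⟩
  have ne : ∀ n : ℕ, Odd n → 1 < n → ∀ z : AlgebraicClosure (ZMod 2), orderOf z = n →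
      z ≠ 0 ∧ z + z⁻¹ ≠ 0 := by
    intro n hn h1 z hz
    have h0 : z ≠ 0 := by
      rintro rfl
      rw [orderOf_zero] at hz
      omega
    refine ⟨h0, fun h => ?_⟩
    have := CharTwo.sq_one (mul_inv_cancel₀ h0) two h
    rw [this, orderOf_one] at hz
    omega
  obtain ⟨l, hl⟩ := ex s hs h1
  obtain ⟨e, he⟩ := ex u hu h1'
  obtain ⟨l0, l1⟩ := ne s hs h1 l hl
  obtain ⟨e0, e1⟩ := ne u hu h1' e he
  exact ⟨{ lam := l, li := l⁻¹, eta := e, ei := e⁻¹, be := e + e⁻¹,
           de := (l + l⁻¹) * (e + e⁻¹)⁻¹, bi := (e + e⁻¹)⁻¹, ki := (l + l⁻¹)⁻¹,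
           two := two, hl := mul_inv_cancel₀ l0, he := mul_inv_cancel₀ e0, hb := rfl,
           hk := by rw [mul_assoc, inv_mul_cancel₀ e1, mul_one],
           hbi := mul_inv_cancel₀ e1, hki := mul_inv_cancel₀ l1 }, hl, he⟩

end Pool.Agent.Helper622
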