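import Mathlib

namespace Pool.Agent.Helper622

/-! ### Abstract regular polytopes -/

/-- An abstract polytope of rank `n` on the partially ordered set `P`. -/
structure AbstractPolytope (n : ℕ) (P : Type) [PartialOrder P] where
  rank : P → ℤ
  rank_strictMono : StrictMono rank
  rank_range : Set.range rank = Set.Icc (-1 : ℤ) n
  unique_least : ∃! F : P, ∀ G : P, F ≤ G
  unique_greatest : ∃! F : P, ∀ G : P, G ≤ F
  flag_card : ∀ Φ : Flag P, (Φ : Set P).encard = ((n + 2 : ℕ) : ℕ∞)
  diamond : ∀ F G : P, F ≤ G → rank G = rank F + 2 →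
    {H : P | rank H = rank F + 1 ∧ F ≤ H ∧ H ≤ G}.encard = 2
  strongly_flag_connected : ∀ Φ Ψ : Flag P, Relation.ReflTransGen
    (fun A B : Flag P => ((A : Set P) \ (B : Set P)).encard = 1 ∧
      ((B : Set P) \ (A : Set P)).encard = 1 ∧
      (Φ : Set P) ∩ (Ψ : Set P) ⊆ (A : Set P) ∧ (Φ : Set P) ∩ (Ψ : Set P) ⊆ (B : Set P)) Φ Ψ

/-- A polytope is regular if its automorphism group is transitive on the flags. -/
def AbstractPolytope.IsRegular {n : ℕ} {P : Type} [PartialOrder P]
    (_X : AbstractPolytope n P) : Prop :=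
  ∀ Φ Ψ : Flag P, ∃ φ : P ≃o P, φ '' (Φ : Set P) = (Ψ : Set P)

/-! ### The toroidal map `{4,4}_(s,0)` -/

/-- The faces of the regular toroidal map `{4,4}_(s,0)`: the square tessellation of the plane with
vertex set `ℤ²` modulo the lattice spanned by `(s,0)` and `(0,s)`. `vtx x y` is the vertex `(x,y)`,
`hor x y` the edge from `(x,y)` to `(x+1,y)`, `ver x y` the edge from `(x,y)` to `(x,y+1)`,
`sq x y` the square with corners `(x,y)`, `(x+1,y)`, `(x,y+1)`, `(x+1,y+1)`; `bot` and `top` are
the least and the greatest face. -/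
inductive Torus (s : ℕ) : Type
  | bot : Torus s
  | vtx (x y : ZMod s) : Torus s
  | hor (x y : ZMod s) : Torus s
  | ver (x y : ZMod s) : Torus s
  | sq (x y : ZMod s) : Torus s
  | top : Torus s

namespace Torus

variable {s : ℕ}

/-- incidence -/
def le : Torus s → Torus s → Prop
  | bot, _ => True
  | _, top => True
  | vtx x y, vtx a b => x = a ∧ y = b
  | vtx x y, hor a b => (x = a ∨ x = a + 1) ∧ y = b
  | vtx x y, ver a b => x = a ∧ (y = b ∨ y = b + 1)
  | vtx x y, sq a b => (x = a ∨ x = a + 1) ∧ (y = b ∨ y = b + 1)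
  | hor x y, hor a b => x = a ∧ y = b
  | ver x y, ver a b => x = a ∧ y = b
  | hor x y, sq a b => x = a ∧ (y = b ∨ y = b + 1)
  | ver x y, sq a b => (x = a ∨ x = a + 1) ∧ y = b
  | sq x y, sq a b => x = a ∧ y = b
  | _, _ => False

instance : PartialOrder (Torus s) where
  le := le
  le_refl a := by cases a <;> simp [le]
  le_trans a b c hab hbc := by
    change le a b at hab
    change le b c at hbc
    cases a <;> cases b <;> cases c <;> simp_all [le]
  le_antisymm a b hab hba := by
    change le a b at hab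
    change le b a at hba
    cases a <;> cases b <;> simp_all [le]

end Torus

end Pool.Agent.Helper622
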