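import Pool.Agent.Helper622.Infinite

namespace Pool.Agent.Helper622

namespace Family

variable {K : Type} [Field K]

/-- conjugate of `diag x y` by `[[1, t], [1, t + 1]]` -/
def cj (x y t : K) : Matrix (Fin 2) (Fin 2) K :=
  !![x * (t + 1) + t * y, t * (x + y); (t + 1) * (x + y), x * t + (t + 1) * y]

theorem cj_mul (h2 : (2 : K) = 0) (x y x' y' t : K) :
    cj x y t * cj x' y' t = cj (x * x') (y * y') t := by
  simp only [cj, Matrix.mul_fin_two]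
  congr 1
  ext i j
  fin_cases i <;> fin_cases j <;> simp <;> grind

theorem cj_one (h2 : (2 : K) = 0) (t : K) : cj 1 1 t = 1 := by
  simp only [cj, Matrix.one_fin_two]
  congr 1
  ext i j
  fin_cases i <;> fin_cases j <;> simp <;> grind

theorem cj_add (x y x' y' t : K) : cj x y t + cj x' y' t = cj (x + x') (y + y') t := by
  simp only [cj]
  ext i j
  fin_cases i <;> fin_cases j <;> simp <;> ring

/-- diagonal matrices -/
def dg (x y : K) : Matrix (Fin 2) (Fin 2) K := !![x, 0; 0, y]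

theorem dg_mul (x y x' y' : K) : dg x y * dg x' y' = dg (x * x') (y * y') := by
  simp [dg, Matrix.mul_fin_two]

theorem dg_one : dg (1 : K) 1 = 1 := by
  simp [dg, Matrix.one_fin_two]

theorem dg_add (x y x' y' : K) : dg x y + dg x' y' = dg (x + x') (y + y') := by
  simp only [dg]
  ext i j
  fin_cases i <;> fin_cases j <;> simp

theorem dg_pow (x y : K) (n : ℕ) : dg x y ^ n = dg (x ^ n) (y ^ n) := by
  induction n with
  | zero => simp [dg_one]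
  | succ n ih => rw [pow_succ, ih, dg_mul, pow_succ, pow_succ]

theorem cj_pow (h2 : (2 : K) = 0) (x y t : K) (n : ℕ) : cj x y t ^ n = cj (x ^ n) (y ^ n) t := by
  induction n with
  | zero => simp [cj_one h2]
  | succ n ih => rw [pow_succ, ih, cj_mul h2, pow_succ, pow_succ]

/-- the ring -/
abbrev R (K : Type) := K → Matrix (Fin 2) (Fin 2) K

/-- the parameters of the family -/
def par (h2 : (2 : K) = 0) (z1 z2 w1 w2 : K) (hz1 : z1 ≠ 0) (hz2 : z2 ≠ 0) (hw1 : w1 ≠ 0)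
    (hw2 : w2 ≠ 0) (kz1 : z1 + z1⁻¹ ≠ 0) (kz2 : z2 + z2⁻¹ ≠ 0) (kw1 : w1 + w1⁻¹ ≠ 0)
    (kw2 : w2 + w2⁻¹ ≠ 0) : NonComm.Par (R K) where
  lam := fun _ => dg z1 z2
  li := fun _ => dg z1⁻¹ z2⁻¹
  ka := fun _ => dg (z1 + z1⁻¹) (z2 + z2⁻¹)
  ki := fun _ => dg (z1 + z1⁻¹)⁻¹ (z2 + z2⁻¹)⁻¹
  eta := fun t => cj w1 w2 t
  ei := fun t => cj w1⁻¹ w2⁻¹ t
  be := fun t => cj (w1 + w1⁻¹) (w2 + w2⁻¹) t
  bi := fun t => cj (w1 + w1⁻¹)⁻¹ (w2 + w2⁻¹)⁻¹ t
  two := by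
    funext t
    ext i j
    have : (2 : R K) t = (2 : Matrix (Fin 2) (Fin 2) K) := rfl
    rw [this]
    have : (2 : Matrix (Fin 2) (Fin 2) K) = (2 : K) • (1 : Matrix (Fin 2) (Fin 2) K) := by
      rw [two_smul, one_add_one_eq_two]
    rw [this, h2, zero_smul]
    rfl
  l1 := by
    funext t
    exact (dg_mul z1 z2 z1⁻¹ z2⁻¹).trans (by rw [mul_inv_cancel₀ hz1, mul_inv_cancel₀ hz2]; exact dg_one)
  l2 := by
    funext t
    exact (dg_mul z1⁻¹ z2⁻¹ z1 z2).trans (by rw [inv_mul_cancel₀ hz1, inv_mul_cancel₀ hz2]; exact dg_one)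
  e1 := by
    funext t
    exact (cj_mul h2 w1 w2 w1⁻¹ w2⁻¹ t).trans
      (by rw [mul_inv_cancel₀ hw1, mul_inv_cancel₀ hw2]; exact cj_one h2 t)
  e2 := by
    funext t
    exact (cj_mul h2 w1⁻¹ w2⁻¹ w1 w2 t).trans
      (by rw [inv_mul_cancel₀ hw1, inv_mul_cancel₀ hw2]; exact cj_one h2 t)
  hb := by
    funext t
    exact (cj_add _ _ _ _ _).symm
  hk := by
    funext t
    exact (dg_add _ _ _ _).symm
  b1 := by
    funext t
    exact (cj_mul h2 (w1 + w1⁻¹) (w2 + w2⁻¹) (w1 + w1⁻¹)⁻¹ (w2 + w2⁻¹)⁻¹ t).trans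
      (by rw [mul_inv_cancel₀ kw1, mul_inv_cancel₀ kw2]; exact cj_one h2 t)
  b2 := by
    funext t
    exact (cj_mul h2 (w1 + w1⁻¹)⁻¹ (w2 + w2⁻¹)⁻¹ (w1 + w1⁻¹) (w2 + w2⁻¹) t).trans
      (by rw [inv_mul_cancel₀ kw1, inv_mul_cancel₀ kw2]; exact cj_one h2 t)
  k1 := by
    funext t
    exact (dg_mul (z1 + z1⁻¹) (z2 + z2⁻¹) (z1 + z1⁻¹)⁻¹ (z2 + z2⁻¹)⁻¹).trans
      (by rw [mul_inv_cancel₀ kz1, mul_inv_cancel₀ kz2]; exact dg_one)
  k2 := by
    funext t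
    exact (dg_mul (z1 + z1⁻¹)⁻¹ (z2 + z2⁻¹)⁻¹ (z1 + z1⁻¹) (z2 + z2⁻¹)).trans
      (by rw [inv_mul_cancel₀ kz1, inv_mul_cancel₀ kz2]; exact dg_one)

theorem key_mul (h2 : (2 : K) = 0) (k1 k2 P11 P12 P21 P22 mu : K)
    (hdet : k1 * k2 * (P11 * P22 + P12 * P21) + mu * (k1 * P11 + k2 * P22) + mu * mu = 0) :
    dg k1 k2 * ((!![P11, P12; P21, P22] : Matrix (Fin 2) (Fin 2) K) *
      !![k2 * P22 + mu, k1 * P12; k2 * P21, k1 * P11 + mu]) =
      mu • (!![k2 * P22 + mu, k1 * P12; k2 * P21, k1 * P11 + mu] :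
        Matrix (Fin 2) (Fin 2) K) := by
  simp only [dg, Matrix.mul_fin_two, Matrix.smul_of, Matrix.smul_cons, smul_eq_mul,
    Matrix.smul_empty]
  congr 1
  ext i j
  fin_cases i <;> fin_cases j
  · simp only [Fin.zero_eta, Matrix.cons_val_zero]
    grind
  · simp only [Fin.zero_eta, Fin.mk_one, Matrix.cons_val_zero, Matrix.cons_val_one]
    grind
  · simp only [Fin.zero_eta, Fin.mk_one, Matrix.cons_val_zero, Matrix.cons_val_one]
    grind
  · simp only [Fin.mk_one, Matrix.cons_val_one, Matrix.cons_val_fin_one, Matrix.cons_val_zero]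
    grind

section

variable {h2 : (2 : K) = 0} {z1 z2 w1 w2 : K} {hz1 : z1 ≠ 0} {hz2 : z2 ≠ 0} {hw1 : w1 ≠ 0}
    {hw2 : w2 ≠ 0} {kz1 : z1 + z1⁻¹ ≠ 0} {kz2 : z2 + z2⁻¹ ≠ 0} {kw1 : w1 + w1⁻¹ ≠ 0}
    {kw2 : w2 + w2⁻¹ ≠ 0}

theorem order_lam (hz : ∀ n : ℕ, z1 ^ n = 1 → z2 ^ n = 1) :
    orderOf (par h2 z1 z2 w1 w2 hz1 hz2 hw1 hw2 kz1 kz2 kw1 kw2).lam = orderOf z1 := by
  apply orderOf_eq_orderOf_iff.2
  intro n
  have e : (par h2 z1 z2 w1 w2 hz1 hz2 hw1 hw2 kz1 kz2 kw1 kw2).lam ^ n =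
      fun _ => dg (z1 ^ n) (z2 ^ n) := by
    funext t
    exact dg_pow z1 z2 n
  rw [e]
  constructor
  · intro h
    have := congrFun (congrFun (congrFun h 0) 0) 0
    simpa [dg] using this
  · intro h
    funext t
    rw [h, hz n h, dg_one]
    rfl

theorem order_eta (hw : ∀ n : ℕ, w1 ^ n = 1 → w2 ^ n = 1) :
    orderOf (par h2 z1 z2 w1 w2 hz1 hz2 hw1 hw2 kz1 kz2 kw1 kw2).eta = orderOf w1 := by
  apply orderOf_eq_orderOf_iff.2
  intro n
  have e : (par h2 z1 z2 w1 w2 hz1 hz2 hw1 hw2 kz1 kz2 kw1 kw2).eta ^ n =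
      fun t => cj (w1 ^ n) (w2 ^ n) t := by
    funext t
    exact cj_pow h2 w1 w2 t n
  rw [e]
  constructor
  · intro h
    have := congrFun (congrFun (congrFun h 0) 0) 0
    simpa [cj] using this
  · intro h
    funext t
    rw [h, hw n h, cj_one h2]
    rfl

/-- For every nonzero `mu` some member of the family has a suitable eigenvector. -/
theorem exists_vec (hz : z1 + z1⁻¹ ≠ z2 + z2⁻¹) (hw : w1 + w1⁻¹ ≠ w2 + w2⁻¹) (mu : K)
    (hmu : mu ≠ 0) : ∃ v : R K, v ≠ 0 ∧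
      (par h2 z1 z2 w1 w2 hz1 hz2 hw1 hw2 kz1 kz2 kw1 kw2).de *
        ((par h2 z1 z2 w1 w2 hz1 hz2 hw1 hw2 kz1 kz2 kw1 kw2).be *
        ((par h2 z1 z2 w1 w2 hz1 hz2 hw1 hw2 kz1 kz2 kw1 kw2).be *
        ((par h2 z1 z2 w1 w2 hz1 hz2 hw1 hw2 kz1 kz2 kw1 kw2).be * v))) = mu • v := by
  classical
  set P := par h2 z1 z2 w1 w2 hz1 hz2 hw1 hw2 kz1 kz2 kw1 kw2 with hP
  set k1 := z1 + z1⁻¹ with hk1
  set k2 := z2 + z2⁻¹ with hk2
  set b1 := w1 + w1⁻¹ with hb1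
  set b2 := w2 + w2⁻¹ with hb2
  -- the member of the family
  have hB : b1 * b1 + b2 * b2 ≠ 0 := by
    intro h
    have h3 : (b1 + b2) * (b1 + b2) = 0 := by grind
    have h4 : b1 + b2 = 0 := by
      rcases mul_eq_zero.1 h3 with h | h <;> exact h
    apply hw
    grind
  have hk : k1 + k2 ≠ 0 := by
    intro h
    apply hz
    grind
  obtain ⟨t, ht⟩ : ∃ t : K, k1 * k2 * (b1 * b1) * (b2 * b2) +
      mu * (k1 * (b1 * b1) + k2 * (b2 * b2) + t * (b1 * b1 + b2 * b2) * (k1 + k2)) +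
      mu * mu = 0 := by
    refine ⟨(k1 * k2 * (b1 * b1) * (b2 * b2) * mu⁻¹ + k1 * (b1 * b1) + k2 * (b2 * b2) + mu) *
      (b1 * b1 + b2 * b2)⁻¹ * (k1 + k2)⁻¹, ?_⟩
    have e1 : mu * mu⁻¹ = 1 := mul_inv_cancel₀ hmu
    have e2 : (b1 * b1 + b2 * b2)⁻¹ * (b1 * b1 + b2 * b2) = 1 := inv_mul_cancel₀ hB
    have e3 : (k1 + k2)⁻¹ * (k1 + k2) = 1 := inv_mul_cancel₀ hk
    generalize (b1 * b1 + b2 * b2)⁻¹ = X at *
    generalize (k1 + k2)⁻¹ = Y at *
    generalize mu⁻¹ = Z at *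
    have e4 : (k1 * k2 * (b1 * b1) * (b2 * b2) * Z + k1 * (b1 * b1) + k2 * (b2 * b2) + mu) * X * Y *
        (b1 * b1 + b2 * b2) * (k1 + k2) =
        k1 * k2 * (b1 * b1) * (b2 * b2) * Z + k1 * (b1 * b1) + k2 * (b2 * b2) + mu := by
      calc (k1 * k2 * (b1 * b1) * (b2 * b2) * Z + k1 * (b1 * b1) + k2 * (b2 * b2) + mu) * X * Y *
            (b1 * b1 + b2 * b2) * (k1 + k2)
          = (k1 * k2 * (b1 * b1) * (b2 * b2) * Z + k1 * (b1 * b1) + k2 * (b2 * b2) + mu) *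
            (X * (b1 * b1 + b2 * b2)) * (Y * (k1 + k2)) := by ring
        _ = _ := by rw [e2, e3, mul_one, mul_one]
    rw [e4]
    have e5 : mu * (k1 * (b1 * b1) + k2 * (b2 * b2) +
        (k1 * k2 * (b1 * b1) * (b2 * b2) * Z + k1 * (b1 * b1) + k2 * (b2 * b2) + mu)) =
        2 * (mu * (k1 * (b1 * b1) + k2 * (b2 * b2))) +
          k1 * k2 * (b1 * b1) * (b2 * b2) * (mu * Z) + mu * mu := by ring
    rw [e5, e1, h2]
    have e6 : ∀ a b : K, a + (0 * b + a * 1 + mu * mu) + mu * mu = 2 * (a + mu * mu) := by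
      intro a b; ring
    rw [e6, h2, zero_mul]
  -- the adjugate matrix
  let P11 := b1 * b1 * (t + 1) + t * (b2 * b2)
  let P12 := t * (b1 * b1 + b2 * b2)
  let P21 := (t + 1) * (b1 * b1 + b2 * b2)
  let P22 := b1 * b1 * t + (t + 1) * (b2 * b2)
  let N : Matrix (Fin 2) (Fin 2) K := !![k2 * P22 + mu, k1 * P12; k2 * P21, k1 * P11 + mu]
  have hN : N ≠ 0 := by
    intro h
    have h12 := congrFun (congrFun h 0) 1
    have h21 := congrFun (congrFun h 1) 0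
    simp only [N, P12, P21, Matrix.of_apply, Matrix.cons_val', Matrix.cons_val_zero,
      Matrix.cons_val_one, Matrix.zero_apply] at h12 h21
    have t0 : t = 0 := by
      rcases mul_eq_zero.1 h12 with h | h
      · exact absurd h kz1
      · rcases mul_eq_zero.1 h with h | h
        · exact h
        · exact absurd h hB
    rcases mul_eq_zero.1 h21 with h | h
    · exact kz2 h
    · rcases mul_eq_zero.1 h with h | h
      · rw [t0, zero_add] at h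
        exact one_ne_zero h
      · exact hB h
  have hbe2 : cj b1 b2 t * cj b1 b2 t = !![P11, P12; P21, P22] := by
    rw [cj_mul h2]
    rfl
  have hdet : k1 * k2 * (P11 * P22 + P12 * P21) + mu * (k1 * P11 + k2 * P22) + mu * mu = 0 := by
    rw [← ht]
    simp only [P11, P12, P21, P22]
    clear_value k1 k2 b1 b2
    clear hz hw hB hk hbe2 hN ht hP
    linear_combination (k1 * k2 * (t * (t + 1)) * (b1 ^ 4 + b2 ^ 4 + 2 * b1 ^ 2 * b2 ^ 2)) * h2
  have hmul : dg k1 k2 * (cj b1 b2 t * (cj b1 b2 t * N)) = mu • N := by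
    rw [← mul_assoc (cj b1 b2 t), hbe2]
    exact key_mul h2 k1 k2 P11 P12 P21 P22 mu hdet
  -- the vector
  let v0 : Matrix (Fin 2) (Fin 2) K := cj b1⁻¹ b2⁻¹ t * N
  have hbv : cj b1 b2 t * v0 = N := by
    change cj b1 b2 t * (cj b1⁻¹ b2⁻¹ t * N) = N
    rw [← mul_assoc, cj_mul h2, mul_inv_cancel₀ kw1, mul_inv_cancel₀ kw2, cj_one h2, one_mul]
  have hv0 : v0 ≠ 0 := by
    intro h
    apply hN
    rw [← hbv, h, mul_zero]
  refine ⟨Pi.single t v0, ?_, ?_⟩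
  · intro h
    apply hv0
    have := congrFun h t
    simpa using this
  · funext t'
    by_cases htt : t' = t
    · subst htt
      simp only [Pi.mul_apply, Pi.smul_apply, Pi.single_eq_same]
      change (cj b1⁻¹ b2⁻¹ t' * dg k1 k2) * (cj b1 b2 t' * (cj b1 b2 t' * (cj b1 b2 t' * v0))) =
        mu • v0
      rw [hbv, mul_assoc, hmul, mul_smul_comm]
    · simp only [Pi.mul_apply, Pi.smul_apply, Pi.single_eq_of_ne htt, mul_zero, smul_zero]

end

end Family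

end Pool.Agent.Helper622
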