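import Pool.Agent.Helper622.CharTwo

namespace Pool.Agent.Helper622

theorem CF.finite {n : ℕ} {G : Type} [Group G] [Finite G] (ρ : Fin n → G) : Finite (CF ρ) := by
  let f : Bool ⊕ (Σ i : Fin n, G ⧸ par ρ {i}ᶜ) → CF ρ := fun x =>
    match x with
    | Sum.inl true => .top
    | Sum.inl false => .bot
    | Sum.inr ⟨i, c⟩ => .mid i c
  apply Finite.of_surjective f
  intro y
  cases y with
  | bot => exact ⟨Sum.inl false, rfl⟩
  | mid i c => exact ⟨Sum.inr ⟨i, c⟩, rfl⟩
  | top => exact ⟨Sum.inl true, rfl⟩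

theorem V5.finite {K : Type} [Finite K] : Finite (V5 K) := by
  apply Finite.of_injective (fun v : V5 K => (v.a, v.b, v.c, v.d, v.e))
  intro v w h
  simp only [Prod.mk.injEq] at h
  obtain ⟨h1, h2, h3, h4, h5⟩ := h
  exact V5.ext h1 h2 h3 h4 h5

/-- a finite field of characteristic two with elements of given odd orders -/
theorem exists_field {s u : ℕ} (hs : Odd s) (hu : Odd u) :
    ∃ (K : Type) (_ : Field K) (_ : Finite K) (l e : K), (2 : K) = 0 ∧ orderOf l = s ∧
      orderOf e = u := by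
  have hodd : Odd (s * u) := hs.mul hu
  have hpos : 0 < s * u := hodd.pos
  have hn : (s * u).totient ≠ 0 := (Nat.totient_pos.2 hpos).ne'
  have : Fact (Nat.Prime 2) := ⟨Nat.prime_two⟩
  let K := GaloisField 2 (s * u).totient
  have hfin : Finite K := by
    apply Nat.finite_of_card_ne_zero
    rw [GaloisField.card 2 _ hn]
    positivity
  have hcard : Nat.card Kˣ = 2 ^ (s * u).totient - 1 := by
    have : Fintype K := Fintype.ofFinite K
    classical
    rw [Nat.card_eq_fintype_card, Fintype.card_units, ← Nat.card_eq_fintype_card,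
      GaloisField.card 2 _ hn]
  have hdvd : s * u ∣ Nat.card Kˣ := by
    rw [hcard]
    have h1 : Nat.Coprime 2 (s * u) := Nat.coprime_two_left.2 hodd
    have h2 := Nat.ModEq.pow_totient h1
    exact (Nat.modEq_iff_dvd' Nat.one_le_two_pow).1 h2.symm
  obtain ⟨g, hg⟩ := IsCyclic.exists_ofOrder_eq_natCard (α := Kˣ)
  have key : ∀ d : ℕ, 0 < d → d ∣ Nat.card Kˣ → ∃ l : K, orderOf l = d := by
    intro d hd0 hd
    obtain ⟨m, hm⟩ := hd
    refine ⟨((g ^ m : Kˣ) : K), ?_⟩
    rw [orderOf_units, orderOf_pow, hg, hm]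
    have hm0 : 0 < m := by
      rcases Nat.eq_zero_or_pos m with h | h
      · exfalso
        rw [h, mul_zero] at hm
        have : 0 < Nat.card Kˣ := Nat.card_pos
        omega
      · exact h
    rw [Nat.gcd_eq_right (Dvd.intro_left d rfl), Nat.mul_div_cancel _ hm0]
  obtain ⟨l, hl⟩ := key s hs.pos (dvd_trans (dvd_mul_right s u) hdvd)
  obtain ⟨e, he⟩ := key u hu.pos (dvd_trans (dvd_mul_left u s) hdvd)
  refine ⟨K, inferInstance, hfin, l, e, ?_, hl, he⟩
  have := CharP.cast_eq_zero K 2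
  exact_mod_cast this

/-- existence of the parameters -/
theorem exists_par' {s u : ℕ} (h1 : 1 < s) (h1' : 1 < u)
    {K : Type} [Field K] {l e : K} (two : (2 : K) = 0) (hl : orderOf l = s) (he : orderOf e = u) :
    ∃ P : CharTwo.Par K, orderOf P.lam = s ∧ orderOf P.eta = u := by
  have ne : ∀ n : ℕ, 1 < n → ∀ z : K, orderOf z = n → z ≠ 0 ∧ z + z⁻¹ ≠ 0 := by
    intro n h1 z hz
    have h0 : z ≠ 0 := by
      rintro rfl
      rw [orderOf_zero] at hz
      omega
    refine ⟨h0, fun h => ?_⟩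
    have := CharTwo.sq_one (mul_inv_cancel₀ h0) two h
    rw [this, orderOf_one] at hz
    omega
  obtain ⟨l0, l1⟩ := ne s h1 l hl
  obtain ⟨e0, e1⟩ := ne u h1' e he
  exact ⟨{ lam := l, li := l⁻¹, eta := e, ei := e⁻¹, be := e + e⁻¹,
           de := (l + l⁻¹) * (e + e⁻¹)⁻¹, bi := (e + e⁻¹)⁻¹, ki := (l + l⁻¹)⁻¹,
           two := two, hl := mul_inv_cancel₀ l0, he := mul_inv_cancel₀ e0, hb := rfl,
           hk := by rw [mul_assoc, inv_mul_cancel₀ e1, mul_one],
           hbi := mul_inv_cancel₀ e1, hki := mul_inv_cancel₀ l1 }, hl, he⟩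

/-- toroidal generators inside the generated subgroup -/
theorem TorusGen.sub {G : Type} [Group G] {s : ℕ} {H : Subgroup G} {l0 l1 l2 : H}
    (h : TorusGen s (l0 : G) (l1 : G) (l2 : G)) : TorusGen s l0 l1 l2 where
  i0 := Subtype.ext h.i0
  i1 := Subtype.ext h.i1
  i2 := Subtype.ext h.i2
  c02 := Subtype.ext h.c02
  h01 := Subtype.ext h.h01
  h12 := Subtype.ext h.h12
  ord := by
    rw [← h.ord, ← Subgroup.orderOf_coe]
    rfl
  odd := h.odd
  one_lt := h.one_lt

/-- The general construction. -/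
theorem exists_polytope {G : Type} [Group G] {s u : ℕ} {r0 r1 r2 r3 : G}
    (hA : TorusGen s r0 r1 r2) (hB : TorusGen u r1 r2 r3) (c03 : r0 * r3 = r3 * r0)
    (hAB : ∀ x, x ∈ Subgroup.closure {r0, r1, r2} → x ∈ Subgroup.closure {r1, r2, r3} →
      x ∈ Subgroup.closure {r1, r2}) :
    ∃ (h : Fact (IsStringC (sub ![r0, r1, r2, r3]))),
      (∀ F : CF (sub ![r0, r1, r2, r3]), CF.rk F = 3 → Nonempty (Torus s ≃o Set.Iic F)) ∧
      (∀ v : CF (sub ![r0, r1, r2, r3]), CF.rk v = 0 → Nonempty (Torus u ≃o Set.Ici v)) := by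
  have h := (amalgam hA hB c03 hAB).sub
  refine ⟨⟨h⟩, ?_, ?_⟩
  · have : Fact (IsStringC (sub ![r0, r1, r2, r3])) := ⟨h⟩
    exact CF.facet_iso (TorusGen.sub hA)
  · have : Fact (IsStringC (sub ![r0, r1, r2, r3])) := ⟨h⟩
    exact CF.vertex_iso (TorusGen.sub hB)

end Pool.Agent.Helper622
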