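import Pool.Agent.Helper622.NonComm

namespace Pool.Agent.Helper622

namespace NonComm

variable {E : Type} [Ring E] (P : Par E)

/-- the reflection conjugate to `r2` that moves the second coordinate -/
def x2 : Equiv.Perm (V5 E) := r3 * (r1 P * r2 P * r1 P) * r3

theorem x2_apply (v : V5 E) : x2 P v = ⟨v.a, v.b + P.be * (v.c + v.a), v.c, v.d, v.e⟩ := by
  change r3 ((r1 P * r2 P * r1 P) (r3 v)) = _
  rw [mu_apply]
  rfl

/-- the conjugating element -/
def w : Equiv.Perm (V5 E) := x2 P * r2 P * x2 P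

/-- the element of infinite order -/
def z : Equiv.Perm (V5 E) := r0 P * (w P * r0 P * w P)

/-- the vectors on which `z` acts -/
def VV (x y : E) : V5 E := ⟨P.be * (P.be * y), P.be * (P.be * (P.be * y)), x + y, 0, 0⟩

theorem w_VV (x y : E) : w P (VV P x y) = VV P y x := by
  change x2 P (r2 P (x2 P (VV P x y))) = _
  rw [x2_apply, r2_apply, x2_apply]
  ext <;> simp only [VV, f2, mul_add, add_assoc, add_left_comm, add_comm, P.ss, P.sl, add_zero]

theorem r0_VV (x y : E) :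
    r0 P (VV P x y) = VV P (x + P.de * (P.be * (P.be * (P.be * y)))) y := by
  rw [r0_apply]
  ext <;> simp only [VV, f0, add_zero, add_right_comm]

theorem z_VV (x y : E) : z P (VV P x y) =
    VV P (x + P.de * (P.be * (P.be * (P.be * (y + P.de * (P.be * (P.be * (P.be * x))))))))
      (y + P.de * (P.be * (P.be * (P.be * x)))) := by
  change r0 P (w P (r0 P (w P (VV P x y)))) = _
  rw [w_VV, r0_VV, w_VV, r0_VV]

variable {K : Type} [Field K] [Algebra K E]

theorem z_pow (v : E) (nu : K) (hnu : nu ≠ 0) (hmu : nu + nu⁻¹ ≠ 0)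
    (hv : P.de * (P.be * (P.be * (P.be * v))) = (nu + nu⁻¹) • v) (h2 : (2 : K) = 0) (k : ℕ) :
    (z P ^ k) (VV P v 0) = VV P (((nu + nu⁻¹)⁻¹ * (nu ^ (2 * k + 1) + nu⁻¹ ^ (2 * k + 1))) • v)
      (((nu + nu⁻¹)⁻¹ * (nu ^ (2 * k) + nu⁻¹ ^ (2 * k))) • v) := by
  induction k with
  | zero =>
    simp only [pow_zero, mul_zero, zero_add, pow_one, inv_mul_cancel₀ hmu, one_smul,
      Equiv.Perm.one_apply]
    have : (1 : K) + 1 = 0 := by rw [one_add_one_eq_two, h2]
    rw [this, mul_zero, zero_smul]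
  | succ k ih =>
    rw [pow_succ', Equiv.Perm.mul_apply, ih, z_VV]
    have hM : ∀ c : K, P.de * (P.be * (P.be * (P.be * (c • v)))) = (c * (nu + nu⁻¹)) • v := by
      intro c
      rw [mul_smul_comm, mul_smul_comm, mul_smul_comm, mul_smul_comm, hv, smul_smul]
    rw [hM, ← add_smul, hM, ← add_smul]
    have hinv : nu * nu⁻¹ = 1 := mul_inv_cancel₀ hnu
    generalize nu⁻¹ = ni at *
    have hmi : (nu + ni)⁻¹ * (nu + ni) = 1 := inv_mul_cancel₀ hmu
    generalize (nu + ni)⁻¹ = mi at *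
    have hp : nu ^ (2 * k) * ni ^ (2 * k) = 1 := by rw [← mul_pow, hinv, one_pow]
    have e1 : nu ^ (2 * k + 1) = nu ^ (2 * k) * nu := pow_succ _ _
    have e2 : ni ^ (2 * k + 1) = ni ^ (2 * k) * ni := pow_succ _ _
    have e3 : nu ^ (2 * (k + 1)) = nu ^ (2 * k) * nu * nu := by
      rw [show 2 * (k + 1) = 2 * k + 1 + 1 by ring, pow_succ, pow_succ]
    have e4 : ni ^ (2 * (k + 1)) = ni ^ (2 * k) * ni * ni := by
      rw [show 2 * (k + 1) = 2 * k + 1 + 1 by ring, pow_succ, pow_succ]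
    have e5 : nu ^ (2 * (k + 1) + 1) = nu ^ (2 * k) * nu * nu * nu := by
      rw [show 2 * (k + 1) + 1 = 2 * k + 1 + 1 + 1 by ring, pow_succ, pow_succ, pow_succ]
    have e6 : ni ^ (2 * (k + 1) + 1) = ni ^ (2 * k) * ni * ni * ni := by
      rw [show 2 * (k + 1) + 1 = 2 * k + 1 + 1 + 1 by ring, pow_succ, pow_succ, pow_succ]
    rw [e1, e2, e3, e4, e5, e6]
    generalize nu ^ (2 * k) = A at *
    generalize ni ^ (2 * k) = B at *
    congr 2
    · grind
    · grind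

theorem z_pow_ne (v : E) (hv0 : v ≠ 0) (nu : K) (hnu : nu ≠ 0) (hmu : nu + nu⁻¹ ≠ 0)
    (hv : P.de * (P.be * (P.be * (P.be * v))) = (nu + nu⁻¹) • v) (h2 : (2 : K) = 0) (k : ℕ)
    (hk : z P ^ k = 1) : nu ^ (4 * k) = 1 := by
  have h := z_pow P v nu hnu hmu hv h2 k
  rw [hk, Equiv.Perm.one_apply] at h
  have h1 := congrArg V5.a h
  simp only [VV, mul_zero] at h1
  have h3 : ((nu + nu⁻¹)⁻¹ * (nu ^ (2 * k) + nu⁻¹ ^ (2 * k))) • v = 0 := by
    apply P.be_inj
    apply P.be_inj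
    rw [mul_zero, mul_zero]
    exact h1.symm
  have h4 : (nu + nu⁻¹)⁻¹ * (nu ^ (2 * k) + nu⁻¹ ^ (2 * k)) = 0 := by
    by_contra hne
    apply hv0
    have := congrArg (fun y => ((nu + nu⁻¹)⁻¹ * (nu ^ (2 * k) + nu⁻¹ ^ (2 * k)))⁻¹ • y) h3
    simp only [smul_smul, inv_mul_cancel₀ hne, one_smul, smul_zero] at this
    exact this
  have h5 : nu ^ (2 * k) + nu⁻¹ ^ (2 * k) = 0 := by
    rcases mul_eq_zero.1 h4 with h | h
    · exact absurd h (inv_ne_zero hmu)
    · exact h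
  have h6 : nu ^ (2 * k) * nu⁻¹ ^ (2 * k) = 1 := by
    rw [← mul_pow, mul_inv_cancel₀ hnu, one_pow]
  have h7 : nu ^ (4 * k) = nu ^ (2 * k) * nu ^ (2 * k) := by
    rw [← pow_add]; congr 1; ring
  rw [h7]
  generalize nu ^ (2 * k) = A at *
  generalize nu⁻¹ ^ (2 * k) = B at *
  grind

end NonComm

end Pool.Agent.Helper622
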