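import Pool.Agent.Helper622.Family

namespace Pool.Agent.Helper622

theorem CF.infinite {n : ℕ} {G : Type} [Group G] [Infinite G] {ρ : Fin n → G}
    (hρ : IsStringC ρ) : Infinite (CF ρ) := by
  by_contra hfin
  rw [not_infinite_iff_finite] at hfin
  have hinj : Function.Injective (fun g : G => CF.chain ρ g) := by
    intro g h hgh
    have hgh : CF.chain ρ g = CF.chain ρ h := hgh
    have h1 : g⁻¹ * h ∈ par ρ ∅ := by
      apply hρ.inter' ∅
      intro i _
      rw [← QuotientGroup.eq]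
      have h2 : (CF.mid i (g : G ⧸ par ρ {i}ᶜ) : CF ρ) ∈ CF.chain ρ h := by
        rw [← hgh]
        exact CF.mem_chain_mid.2 rfl
      exact (CF.mem_chain_mid.1 h2).symm
    rw [par, Set.image_empty, Subgroup.closure_empty, Subgroup.mem_bot] at h1
    exact inv_mul_eq_one.1 h1
  have : Finite G := Finite.of_injective _ hinj
  exact not_finite G

/-- an element `z ≠ 0` of odd order `s ≥ 5` in a field of characteristic two -/
theorem facts_of_order {K : Type} [Field K] (two : (2 : K) = 0) {s : ℕ} (hs : Odd s)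
    (h5 : 5 ≤ s) {z : K} (hz : orderOf z = s) :
    z ≠ 0 ∧ z ^ 2 ≠ 0 ∧ z + z⁻¹ ≠ 0 ∧ z ^ 2 + (z ^ 2)⁻¹ ≠ 0 ∧
      z + z⁻¹ ≠ z ^ 2 + (z ^ 2)⁻¹ := by
  have h0 : z ≠ 0 := by
    rintro rfl
    rw [orderOf_zero] at hz
    omega
  have h1 : z ^ 2 ≠ 0 := pow_ne_zero 2 h0
  have hno : ∀ n : ℕ, 0 < n → n < 5 → z ^ n ≠ 1 := by
    intro n hn hn5 h
    have := orderOf_dvd_of_pow_eq_one h
    rw [hz] at this
    have := Nat.le_of_dvd hn this
    omega
  have h2 : z + z⁻¹ ≠ 0 := by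
    intro h
    have := CharTwo.sq_one (mul_inv_cancel₀ h0) two h
    exact hno 1 (by norm_num) (by norm_num) (by rw [pow_one]; exact this)
  have h3 : z ^ 2 + (z ^ 2)⁻¹ ≠ 0 := by
    intro h
    have := CharTwo.sq_one (mul_inv_cancel₀ h1) two h
    exact hno 2 (by norm_num) (by norm_num) this
  refine ⟨h0, h1, h2, h3, ?_⟩
  intro h
  have h4 : (z ^ 2)⁻¹ = z⁻¹ * z⁻¹ := by rw [pow_two, mul_inv]
  rw [h4] at h
  have h5 : z * z⁻¹ = 1 := mul_inv_cancel₀ h0
  generalize z⁻¹ = y at *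
  have h6 : (z + y) * (z + y + 1) = 0 := by grind
  rcases mul_eq_zero.1 h6 with h7 | h7
  · exact h2 h7
  · apply hno 3 (by norm_num) (by norm_num)
    grind

/-- The infinite polytopes. -/
theorem exists_infinite {s u : ℕ} (hs : Odd s) (hu : Odd u) (h5s : 5 ≤ s) (h5u : 5 ≤ u) :
    ∃ (P : Type) (_ : PartialOrder P) (X : AbstractPolytope 4 P), Infinite P ∧ X.IsRegular ∧
      (∀ F : P, X.rank F = 3 → Nonempty (Torus s ≃o Set.Iic F)) ∧
      (∀ v : P, X.rank v = 0 → Nonempty (Torus u ≃o Set.Ici v)) := by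
  let K := AlgebraicClosure (ZMod 2)
  have two : (2 : K) = 0 := by
    have := CharP.cast_eq_zero K 2
    exact_mod_cast this
  have ex : ∀ n : ℕ, Odd n → ∃ z : K, orderOf z = n := by
    intro n hn
    have hne : NeZero (n : K) := by
      refine ⟨fun h => ?_⟩
      rw [CharP.cast_eq_zero_iff K 2] at h
      obtain ⟨m, hm⟩ := hn
      omega
    have hdeg : (Polynomial.cyclotomic n K).degree ≠ 0 := by
      rw [Polynomial.degree_cyclotomic]
      have := Nat.totient_pos.2 hn.pos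
      exact_mod_cast this.ne'
    obtain ⟨z, hz⟩ := IsAlgClosed.exists_root _ hdeg
    rw [Polynomial.isRoot_cyclotomic_iff] at hz
    exact ⟨z, hz.eq_orderOf.symm⟩
  obtain ⟨z, hz⟩ := ex s hs
  obtain ⟨w, hw⟩ := ex u hu
  obtain ⟨z1, z2, z3, z4, z5⟩ := facts_of_order two hs h5s hz
  obtain ⟨w1, w2, w3, w4, w5⟩ := facts_of_order two hu h5u hw
  let Q := Family.par two z (z ^ 2) w (w ^ 2) z1 z2 w1 w2 z3 z4 w3 w4
  have hQl : orderOf Q.lam = s := by
    rw [← hz]
    apply Family.order_lam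
    intro n h
    rw [← pow_mul, mul_comm, pow_mul, h, one_pow]
  have hQe : orderOf Q.eta = u := by
    rw [← hw]
    apply Family.order_eta
    intro n h
    rw [← pow_mul, mul_comm, pow_mul, h, one_pow]
  have hA := NonComm.genA Q hs (by omega) hQl
  have hB := NonComm.genB Q hu (by omega) hQe
  obtain ⟨h, hF, hV⟩ := exists_polytope hA hB (NonComm.c03 Q)
    (NonComm.interAB Q hA (by rw [hQl]; exact hs))
  -- the group is infinite
  have hinf : Infinite (par ![NonComm.r0 Q, NonComm.r1 Q, NonComm.r2 Q, NonComm.r3]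
      (Set.univ : Set (Fin 4))) := by
    by_contra hfin
    rw [not_infinite_iff_finite] at hfin
    let ρ := ![NonComm.r0 Q, NonComm.r1 Q, NonComm.r2 Q, NonComm.r3]
    have m0 : NonComm.r0 Q ∈ par ρ Set.univ := mem_par ρ (Set.mem_univ 0)
    have m1 : NonComm.r1 Q ∈ par ρ Set.univ := mem_par ρ (Set.mem_univ 1)
    have m2 : NonComm.r2 Q ∈ par ρ Set.univ := mem_par ρ (Set.mem_univ 2)
    have m3 : NonComm.r3 ∈ par ρ Set.univ := mem_par ρ (Set.mem_univ 3)
    have mx2 : NonComm.x2 Q ∈ par ρ Set.univ :=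
      Subgroup.mul_mem _ (Subgroup.mul_mem _ m3 (Subgroup.mul_mem _ (Subgroup.mul_mem _ m1 m2) m1))
        m3
    have mw : NonComm.w Q ∈ par ρ Set.univ :=
      Subgroup.mul_mem _ (Subgroup.mul_mem _ mx2 m2) mx2
    have mz : NonComm.z Q ∈ par ρ Set.univ :=
      Subgroup.mul_mem _ m0 (Subgroup.mul_mem _ (Subgroup.mul_mem _ mw m0) mw)
    have hord := isOfFinOrder_of_finite (⟨NonComm.z Q, mz⟩ : par ρ Set.univ)
    obtain ⟨k, hk0, hk⟩ := isOfFinOrder_iff_pow_eq_one.1 hord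
    have hk' : NonComm.z Q ^ k = 1 := congrArg Subtype.val hk
    -- a root of unity of large order
    obtain ⟨nu, hnu⟩ := ex (4 * k + 1) ⟨2 * k, by ring⟩
    have hnu0 : nu ≠ 0 := by
      rintro rfl
      rw [orderOf_zero] at hnu
      omega
    have hmu : nu + nu⁻¹ ≠ 0 := by
      intro h
      have := CharTwo.sq_one (mul_inv_cancel₀ hnu0) two h
      rw [this, orderOf_one] at hnu
      omega
    obtain ⟨v, hv0, hv⟩ := Family.exists_vec (h2 := two) (hz1 := z1) (hz2 := z2) (hw1 := w1)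
      (hw2 := w2) (kz1 := z3) (kz2 := z4) (kw1 := w3) (kw2 := w4) z5 w5 (nu + nu⁻¹) hmu
    have h1 := NonComm.z_pow_ne Q v hv0 nu hnu0 hmu hv two k hk'
    have h2 := orderOf_dvd_of_pow_eq_one h1
    rw [hnu] at h2
    have := Nat.le_of_dvd (by omega) h2
    omega
  exact ⟨CF (sub ![NonComm.r0 Q, NonComm.r1 Q, NonComm.r2 Q, NonComm.r3]), inferInstance,
    CF.polytope, CF.infinite h.out, CF.isRegular, hF, hV⟩

end Pool.Agent.Helper622
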