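import Pool.Agent.Helper622.FiniteCF

namespace Pool.Agent.Helper622

namespace NonComm

/-- Parameters: units `lam`, `eta` of a ring of characteristic two such that
`ka = lam + lam⁻¹` and `be = eta + eta⁻¹` are units. -/
structure Par (E : Type) [Ring E] where
  lam : E
  li : E
  eta : E
  ei : E
  be : E
  bi : E
  ka : E
  ki : E
  two : (2 : E) = 0
  l1 : lam * li = 1
  l2 : li * lam = 1
  e1 : eta * ei = 1
  e2 : ei * eta = 1
  hb : be = eta + ei
  hk : ka = lam + li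
  b1 : be * bi = 1
  b2 : bi * be = 1
  k1 : ka * ki = 1
  k2 : ki * ka = 1

variable {E : Type} [Ring E] (P : Par E)

theorem Par.ss (P : Par E) (x : E) : x + x = 0 := by rw [← two_mul, P.two, zero_mul]
theorem Par.sl (P : Par E) (x y : E) : x + (x + y) = y := by rw [← add_assoc, P.ss, zero_add]

theorem Par.eq_of (P : Par E) {x y : E} (h : x + y = 0) : x = y := by
  have h1 : x + (y + y) = y := by rw [← add_assoc, h, zero_add]
  rwa [P.ss, add_zero] at h1

/-- the scalar of the first reflection -/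
def Par.de (P : Par E) : E := P.bi * P.ka

theorem Par.be_de (P : Par E) (x : E) : P.be * (P.de * x) = P.ka * x := by
  rw [Par.de, ← mul_assoc, ← mul_assoc, P.b1, one_mul]

def f0 (v : V5 E) : V5 E := ⟨v.a, v.b, v.c + P.de * (v.b + v.d), v.d, v.e⟩
def f1 (v : V5 E) : V5 E := ⟨v.d + v.c, v.e + v.c, v.c, v.a + v.c, v.b + v.c⟩
def f2 (v : V5 E) : V5 E := ⟨v.a + P.be * v.b, v.b, v.c, v.d, v.e⟩
def f3 (v : V5 E) : V5 E := ⟨v.e, v.d, v.c, v.b, v.a⟩

theorem i0 : Function.Involutive (f0 P) := by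
  intro v
  ext <;> simp only [f0, add_assoc, P.ss, add_zero]

include P in
theorem i1 : Function.Involutive (f1 : V5 E → V5 E) := by
  intro v
  ext <;> simp only [f1, add_assoc, P.ss, add_zero]

theorem i2 : Function.Involutive (f2 P) := by
  intro v
  ext <;> simp only [f2, add_assoc, P.ss, add_zero]

omit [Ring E] in
theorem i3 : Function.Involutive (f3 : V5 E → V5 E) := by
  intro v
  rfl

def r0 : Equiv.Perm (V5 E) := (i0 P).toPerm
def r1 : Equiv.Perm (V5 E) := (i1 P).toPerm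
def r2 : Equiv.Perm (V5 E) := (i2 P).toPerm
def r3 : Equiv.Perm (V5 E) := (i3).toPerm

theorem r0_apply (v : V5 E) : r0 P v = f0 P v := rfl
theorem r1_apply (v : V5 E) : r1 P v = f1 v := rfl
theorem r2_apply (v : V5 E) : r2 P v = f2 P v := rfl
omit [Ring E] in
theorem r3_apply (v : V5 E) : r3 v = f3 v := rfl

theorem q0 : r0 P * r0 P = 1 := Equiv.ext fun v => i0 P v
theorem q1 : r1 P * r1 P = 1 := Equiv.ext fun v => i1 P v
theorem q2 : r2 P * r2 P = 1 := Equiv.ext fun v => i2 P v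
omit [Ring E] in
theorem q3 : (r3 : Equiv.Perm (V5 E)) * r3 = 1 := Equiv.ext fun v => i3 v

theorem c02 : r0 P * r2 P = r2 P * r0 P := by
  refine Equiv.ext fun v => ?_
  simp only [Equiv.Perm.mul_apply, r0_apply, r2_apply]
  ext <;> simp only [f0, f2]

theorem c03 : r0 P * r3 = r3 * r0 P := by
  refine Equiv.ext fun v => ?_
  simp only [Equiv.Perm.mul_apply, r0_apply, r3_apply]
  ext <;> simp only [f0, f3, add_comm]

theorem c13 : r1 P * r3 = r3 * r1 P := by
  refine Equiv.ext fun v => ?_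
  simp only [Equiv.Perm.mul_apply, r1_apply, r3_apply]
  ext <;> simp only [f1, f3]

/-- the reflection `r1 r2 r1` -/
theorem mu_apply (v : V5 E) : (r1 P * r2 P * r1 P) v =
    ⟨v.a, v.b, v.c, v.d + P.be * (v.c + v.e), v.e⟩ := by
  simp only [Equiv.Perm.mul_apply, r1_apply, r2_apply]
  ext <;> simp only [f1, f2, mul_add, add_assoc, add_left_comm, add_comm, P.ss, P.sl, add_zero]

/-- the reflection `r1 r0 r1` -/
theorem nu_apply (v : V5 E) : (r1 P * r0 P * r1 P) v =
    ⟨v.a + P.de * (v.a + v.e), v.b + P.de * (v.a + v.e), v.c + P.de * (v.a + v.e),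
      v.d + P.de * (v.a + v.e), v.e + P.de * (v.a + v.e)⟩ := by
  simp only [Equiv.Perm.mul_apply, r1_apply, r0_apply]
  ext <;> simp only [f1, f0, mul_add, add_assoc, add_left_comm, add_comm, P.ss, P.sl, add_zero]

/-- the reflection `r2 r3 r2`-/
theorem th_apply (v : V5 E) : (r3 * r2 P * r3 : Equiv.Perm (V5 E)) v =
    ⟨v.a, v.b, v.c, v.d, v.e + P.be * v.d⟩ := by
  simp only [Equiv.Perm.mul_apply, r2_apply, r3_apply]
  ext <;> simp only [f2, f3]

theorem pow_four {G : Type} [Group G] {a b : G} (ha : a * a = 1) (hb : b * b = 1)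
    (h : (b * a * b) * a = a * (b * a * b)) : (a * b) ^ 4 = 1 := by
  have e : (a * b) ^ 4 = (a * (b * a * b)) * (a * (b * a * b)) := by
    rw [show (4 : ℕ) = 2 + 2 from rfl, pow_add, pow_two]
    group
  rw [e]
  calc a * (b * a * b) * (a * (b * a * b)) = a * ((b * a * b) * a) * (b * a * b) := by group
    _ = a * (a * (b * a * b)) * (b * a * b) := by rw [h]
    _ = (a * a) * (b * a * (b * b) * a * b) := by group
    _ = (a * a) * (b * (a * a) * b) := by rw [hb]; group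
    _ = 1 := by rw [ha, mul_one, hb, one_mul]

theorem h01 : (r0 P * r1 P) ^ 4 = 1 := by
  apply pow_four (q0 P) (q1 P)
  refine Equiv.ext fun v => ?_
  change (r1 P * r0 P * r1 P) (r0 P v) = r0 P ((r1 P * r0 P * r1 P) v)
  rw [nu_apply, nu_apply, r0_apply, r0_apply]
  ext <;> simp only [f0, mul_add, add_assoc, add_left_comm, add_comm, P.ss, P.sl, add_zero]

theorem h12 : (r1 P * r2 P) ^ 4 = 1 := by
  have h : (r2 P * r1 P) ^ 4 = 1 := by
    apply pow_four (q2 P) (q1 P)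
    refine Equiv.ext fun v => ?_
    change (r1 P * r2 P * r1 P) (r2 P v) = r2 P ((r1 P * r2 P * r1 P) v)
    rw [mu_apply, mu_apply, r2_apply, r2_apply]
    rfl
  have e : (r1 P * r2 P) ^ 4 = ((r2 P * r1 P) ^ 4)⁻¹ := by
    rw [← inv_pow, mul_inv_rev, inv_eq_of_mul_eq_one_right (q1 P),
      inv_eq_of_mul_eq_one_right (q2 P)]
  rw [e, h, inv_one]

theorem h23 : (r2 P * r3) ^ 4 = 1 := by
  apply pow_four (q2 P) q3
  refine Equiv.ext fun v => ?_
  change (r3 * r2 P * r3 : Equiv.Perm (V5 E)) (r2 P v) =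
    r2 P ((r3 * r2 P * r3 : Equiv.Perm (V5 E)) v)
  rw [th_apply, th_apply, r2_apply, r2_apply]
  rfl

/-! #### The translation of `⟨r0, r1, r2⟩` -/

/-- eigenfunctions -/
def p1 (v : V5 E) : E := (1 + P.li) * (v.b + v.d) + P.be * (v.c + v.e)
def p2 (v : V5 E) : E := (1 + P.lam) * (v.b + v.d) + P.be * (v.c + v.e)

theorem X_apply (v : V5 E) : (r0 P * (r1 P * r2 P * r1 P)) v =
    ⟨v.a, v.b, v.c + P.de * (v.b + (v.d + P.be * (v.c + v.e))), v.d + P.be * (v.c + v.e), v.e⟩ := by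
  rw [Equiv.Perm.mul_apply, mu_apply, r0_apply]
  rfl

theorem uw (v : V5 E) : v.b + (v.d + P.be * (v.c + v.e)) = (v.b + v.d) + P.be * (v.c + v.e) ∧
    P.be * (v.c + P.de * (v.b + (v.d + P.be * (v.c + v.e))) + v.e) =
      P.be * (v.c + v.e) + P.ka * ((v.b + v.d) + P.be * (v.c + v.e)) := by
  have h1 : v.b + (v.d + P.be * (v.c + v.e)) = (v.b + v.d) + P.be * (v.c + v.e) :=
    (add_assoc _ _ _).symm
  refine ⟨h1, ?_⟩
  rw [h1, add_right_comm, mul_add P.be (v.c + v.e), P.be_de]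

theorem p1_X (v : V5 E) : p1 P ((r0 P * (r1 P * r2 P * r1 P)) v) = P.lam * p1 P v := by
  rw [X_apply]
  obtain ⟨h1, h2⟩ := uw P v
  simp only [p1, h2]
  simp only [h1]
  generalize v.b + v.d = U
  generalize P.be * (v.c + v.e) = W
  rw [P.hk]
  simp only [mul_add, add_mul, one_mul, ← mul_assoc, mul_one, P.l1]
  simp only [add_assoc, add_left_comm, add_comm, P.ss, P.sl, add_zero]

theorem p2_X (v : V5 E) : p2 P ((r0 P * (r1 P * r2 P * r1 P)) v) = P.li * p2 P v := by
  rw [X_apply]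
  obtain ⟨h1, h2⟩ := uw P v
  simp only [p2, h2]
  simp only [h1]
  generalize v.b + v.d = U
  generalize P.be * (v.c + v.e) = W
  rw [P.hk]
  simp only [mul_add, add_mul, one_mul, ← mul_assoc, mul_one, P.l2]
  simp only [add_assoc, add_left_comm, add_comm, P.ss, P.sl, add_zero]

theorem X_abe (v : V5 E) (n : ℕ) : (((r0 P * (r1 P * r2 P * r1 P)) ^ n) v).a = v.a ∧
    (((r0 P * (r1 P * r2 P * r1 P)) ^ n) v).b = v.b ∧
    (((r0 P * (r1 P * r2 P * r1 P)) ^ n) v).e = v.e := by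
  induction n with
  | zero => exact ⟨rfl, rfl, rfl⟩
  | succ n ih =>
    rw [pow_succ', Equiv.Perm.mul_apply, X_apply]
    exact ih

theorem p1_pow (v : V5 E) (n : ℕ) :
    p1 P (((r0 P * (r1 P * r2 P * r1 P)) ^ n) v) = P.lam ^ n * p1 P v := by
  induction n with
  | zero => simp
  | succ n ih => rw [pow_succ', Equiv.Perm.mul_apply, p1_X, ih, pow_succ', mul_assoc]

theorem p2_pow (v : V5 E) (n : ℕ) :
    p2 P (((r0 P * (r1 P * r2 P * r1 P)) ^ n) v) = P.li ^ n * p2 P v := by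
  induction n with
  | zero => simp
  | succ n ih => rw [pow_succ', Equiv.Perm.mul_apply, p2_X, ih, pow_succ', mul_assoc]

theorem Par.ka_inj (P : Par E) {x y : E} (h : P.ka * x = P.ka * y) : x = y := by
  have := congrArg (fun z => P.ki * z) h
  simp only [← mul_assoc, P.k2, one_mul] at this
  exact this

theorem Par.be_inj (P : Par E) {x y : E} (h : P.be * x = P.be * y) : x = y := by
  have := congrArg (fun z => P.bi * z) h
  simp only [← mul_assoc, P.b2, one_mul] at this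
  exact this

/-- a vector is determined by its coordinates `a, b, e` and the two eigenfunctions -/
theorem ext_p {v w : V5 E} (ha : v.a = w.a) (hb : v.b = w.b) (he : v.e = w.e)
    (h1 : p1 P v = p1 P w) (h2 : p2 P v = p2 P w) : v = w := by
  have hsum : ∀ v : V5 E, p1 P v + p2 P v = P.ka * (v.b + v.d) := by
    intro v
    simp only [p1, p2]
    generalize v.b + v.d = U
    generalize P.be * (v.c + v.e) = W
    rw [P.hk]
    simp only [add_mul, one_mul]
    simp only [add_assoc, add_left_comm, add_comm, P.ss, P.sl, add_zero]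
  have h3 : v.b + v.d = w.b + w.d := P.ka_inj (by rw [← hsum, ← hsum, h1, h2])
  have hd : v.d = w.d := by
    rw [hb] at h3
    exact add_left_cancel h3
  have h4 : P.be * (v.c + v.e) = P.be * (w.c + w.e) := by
    have := h1
    rw [p1, p1, h3] at this
    exact add_left_cancel this
  have h5 := P.be_inj h4
  have hc : v.c = w.c := by
    rw [he] at h5
    exact add_right_cancel h5
  exact V5.ext ha hb hc hd he

theorem X_pow_one {n : ℕ} (h : P.lam ^ n = 1) : (r0 P * (r1 P * r2 P * r1 P)) ^ n = 1 := by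
  have h' : P.li ^ n = 1 := by
    have hc : Commute P.lam P.li := P.l1.trans P.l2.symm
    have := hc.mul_pow n
    rw [P.l1, one_pow, h, one_mul] at this
    exact this.symm
  refine Equiv.ext fun v => ?_
  obtain ⟨ha, hb, he⟩ := X_abe P v n
  apply ext_p P ha hb he
  · rw [p1_pow, h, one_mul]
  · rw [p2_pow, h', one_mul]

/-- the third coordinate of the powers of the translation on `e4` -/
theorem X_c (n : ℕ) (m : E) : P.be * (((r0 P * (r1 P * r2 P * r1 P)) ^ n) ⟨0, 0, 0, m, 0⟩).c =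
    (P.lam ^ n + P.li ^ n) * m := by
  obtain ⟨ha, hb, he⟩ := X_abe P ⟨0, 0, 0, m, 0⟩ n
  set w := ((r0 P * (r1 P * r2 P * r1 P)) ^ n) ⟨0, 0, 0, m, 0⟩ with hw
  have h1 := p1_pow P ⟨0, 0, 0, m, 0⟩ n
  have h2 := p2_pow P ⟨0, 0, 0, m, 0⟩ n
  rw [← hw] at h1 h2
  have q1 : p1 P ⟨0, 0, 0, m, 0⟩ = (1 + P.li) * m := by simp [p1]
  have q2 : p2 P ⟨0, 0, 0, m, 0⟩ = (1 + P.lam) * m := by simp [p2]
  rw [q1] at h1
  rw [q2] at h2
  clear_value w
  apply P.ka_inj
  have hsum : (1 + P.lam) * p1 P w + (1 + P.li) * p2 P w = P.ka * (P.be * (w.c + w.e)) := by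
    simp only [p1, p2]
    generalize w.b + w.d = U
    generalize P.be * (w.c + w.e) = W
    rw [P.hk]
    simp only [mul_add, add_mul, one_mul, mul_one, ← mul_assoc, P.l1, P.l2]
    simp only [add_assoc, add_left_comm, add_comm, P.ss, P.sl, add_zero]
  have he' : w.c + w.e = w.c := by rw [he]; exact add_zero _
  rw [he'] at hsum
  rw [← hsum, h1, h2]
  have c1 : P.lam * P.lam ^ n = P.lam ^ n * P.lam := (Commute.refl P.lam).pow_right n
  have c2 : P.li * P.li ^ n = P.li ^ n * P.li := (Commute.refl P.li).pow_right n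
  have hc : Commute P.lam P.li := P.l1.trans P.l2.symm
  have c3 : P.lam * P.li ^ n = P.li ^ n * P.lam := hc.pow_right n
  have c4 : P.li * P.lam ^ n = P.lam ^ n * P.li := hc.symm.pow_right n
  have e1 : (1 + P.lam) * (P.lam ^ n * ((1 + P.li) * m)) = P.ka * (P.lam ^ n * m) := by
    have : (1 + P.lam) * (P.lam ^ n * ((1 + P.li) * m)) =
        ((1 + P.lam) * (P.lam ^ n * (1 + P.li))) * m := by simp only [mul_assoc]
    rw [this, ← mul_assoc P.ka]
    congr 1
    have : P.lam ^ n * (1 + P.li) = (1 + P.li) * P.lam ^ n := by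
      rw [mul_add, add_mul, mul_one, one_mul, c4]
    rw [this, ← mul_assoc]
    congr 1
    rw [P.hk]
    simp only [mul_add, add_mul, one_mul, mul_one, P.l1]
    simp only [add_assoc, add_left_comm, add_comm, P.ss, P.sl, add_zero]
  have e2 : (1 + P.li) * (P.li ^ n * ((1 + P.lam) * m)) = P.ka * (P.li ^ n * m) := by
    have : (1 + P.li) * (P.li ^ n * ((1 + P.lam) * m)) =
        ((1 + P.li) * (P.li ^ n * (1 + P.lam))) * m := by simp only [mul_assoc]
    rw [this, ← mul_assoc P.ka]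
    congr 1
    have : P.li ^ n * (1 + P.lam) = (1 + P.lam) * P.li ^ n := by
      rw [mul_add, add_mul, mul_one, one_mul, c3]
    rw [this, ← mul_assoc]
    congr 1
    rw [P.hk]
    simp only [mul_add, add_mul, one_mul, mul_one, P.l2]
    simp only [add_assoc, add_left_comm, add_comm, P.ss, P.sl, add_zero]
  rw [e1, e2, ← mul_add, add_mul]

/-- an element of odd order with `g ^ n + (g⁻¹) ^ n = 0` -/
theorem Par.pow_eq (P : Par E) {g g' : E} (hg : g * g' = 1) (hg' : g' * g = 1)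
    (hodd : Odd (orderOf g)) {n : ℕ} (h : g ^ n + g' ^ n = 0) : g ^ n = 1 := by
  have h1 : g ^ n = g' ^ n := P.eq_of h
  have hc : Commute g g' := hg.trans hg'.symm
  have h2 : g ^ (2 * n) = 1 := by
    rw [two_mul, pow_add]
    calc g ^ n * g ^ n = g ^ n * g' ^ n := by rw [← h1]
      _ = 1 := by rw [← hc.mul_pow, hg, one_pow]
  have h3 := orderOf_dvd_of_pow_eq_one h2
  have h4 : orderOf g ∣ n := by
    have : Nat.Coprime (orderOf g) 2 := Nat.coprime_two_right.2 hodd
    exact this.dvd_of_dvd_mul_left h3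
  exact orderOf_dvd_iff_pow_eq_one.1 h4

theorem lam_pow (hodd : Odd (orderOf P.lam)) (n : ℕ)
    (h : (((r0 P * (r1 P * r2 P * r1 P)) ^ n) ⟨0, 0, 0, 1, 0⟩).c = 0) : P.lam ^ n = 1 := by
  have h1 := X_c P n 1
  rw [h, mul_zero, mul_one] at h1
  exact P.pow_eq P.l1 P.l2 hodd h1.symm

/-! #### The translation of `⟨r1, r2, r3⟩` -/

theorem Y_apply (v : V5 E) : (r1 P * (r2 P * r3 * r2 P) : Equiv.Perm (V5 E)) v =
    ⟨v.b + v.c, v.a + P.be * v.b + v.c, v.c, v.e + P.be * v.d + v.c, v.d + v.c⟩ := rfl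

/-- eigenfunctions -/
def y1 (x y : E) : E := x + P.eta * y
def y2 (x y : E) : E := x + P.ei * y

theorem y1_step (x y : E) : y1 P y (x + P.be * y) = P.eta * y1 P x y := by
  simp only [y1, P.hb, mul_add, add_mul, ← mul_assoc, P.e1, one_mul]
  simp only [add_assoc, add_left_comm, add_comm, P.ss, P.sl, add_zero]

theorem y2_step (x y : E) : y2 P y (x + P.be * y) = P.ei * y2 P x y := by
  simp only [y2, P.hb, mul_add, add_mul, ← mul_assoc, P.e2, one_mul]
  simp only [add_assoc, add_left_comm, add_comm, P.ss, P.sl, add_zero]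

theorem y_ext {x y x' y' : E} (h1 : y1 P x y = y1 P x' y') (h2 : y2 P x y = y2 P x' y') :
    x = x' ∧ y = y' := by
  have hsum : ∀ x y : E, y1 P x y + y2 P x y = P.be * y := by
    intro x y
    simp only [y1, y2, P.hb, add_mul]
    simp only [add_assoc, add_left_comm, add_comm, P.ss, P.sl, add_zero]
  have hy : y = y' := P.be_inj (by rw [← hsum x, ← hsum x', h1, h2])
  subst hy
  exact ⟨add_right_cancel h1, rfl⟩

theorem Y_pow (v : V5 E) (n : ℕ) :
    (((r1 P * (r2 P * r3 * r2 P) : Equiv.Perm (V5 E)) ^ n) v).c = v.c ∧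
    y1 P ((((r1 P * (r2 P * r3 * r2 P) : Equiv.Perm (V5 E)) ^ n) v).a + v.c)
      (((r1 P * (r2 P * r3 * r2 P) : Equiv.Perm (V5 E)) ^ n) v).b =
        P.eta ^ n * y1 P (v.a + v.c) v.b ∧
    y2 P ((((r1 P * (r2 P * r3 * r2 P) : Equiv.Perm (V5 E)) ^ n) v).a + v.c)
      (((r1 P * (r2 P * r3 * r2 P) : Equiv.Perm (V5 E)) ^ n) v).b =
        P.ei ^ n * y2 P (v.a + v.c) v.b ∧
    y1 P ((((r1 P * (r2 P * r3 * r2 P) : Equiv.Perm (V5 E)) ^ n) v).e + v.c)
      (((r1 P * (r2 P * r3 * r2 P) : Equiv.Perm (V5 E)) ^ n) v).d =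
        P.eta ^ n * y1 P (v.e + v.c) v.d ∧
    y2 P ((((r1 P * (r2 P * r3 * r2 P) : Equiv.Perm (V5 E)) ^ n) v).e + v.c)
      (((r1 P * (r2 P * r3 * r2 P) : Equiv.Perm (V5 E)) ^ n) v).d =
        P.ei ^ n * y2 P (v.e + v.c) v.d := by
  induction n with
  | zero => simp
  | succ n ih =>
    rw [pow_succ', Equiv.Perm.mul_apply, Y_apply]
    generalize ((r1 P * (r2 P * r3 * r2 P) : Equiv.Perm (V5 E)) ^ n) v = w at ih ⊢
    obtain ⟨h1, h2, h3, h4, h5⟩ := ih
    have e1 : w.b + w.c + v.c = w.b := by rw [h1, add_assoc, P.ss, add_zero]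
    have e2 : w.a + P.be * w.b + w.c = (w.a + v.c) + P.be * w.b := by
      rw [h1, add_right_comm]
    have e3 : w.d + w.c + v.c = w.d := by rw [h1, add_assoc, P.ss, add_zero]
    have e4 : w.e + P.be * w.d + w.c = (w.e + v.c) + P.be * w.d := by
      rw [h1, add_right_comm]
    refine ⟨h1, ?_, ?_, ?_, ?_⟩
    · rw [e1, e2, y1_step, h2, pow_succ', mul_assoc]
    · rw [e1, e2, y2_step, h3, pow_succ', mul_assoc]
    · rw [e3, e4, y1_step, h4, pow_succ', mul_assoc]
    · rw [e3, e4, y2_step, h5, pow_succ', mul_assoc]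

theorem Y_pow_one {n : ℕ} (h : P.eta ^ n = 1) :
    (r1 P * (r2 P * r3 * r2 P) : Equiv.Perm (V5 E)) ^ n = 1 := by
  have h' : P.ei ^ n = 1 := by
    have hc : Commute P.eta P.ei := P.e1.trans P.e2.symm
    have := hc.mul_pow n
    rw [P.e1, one_pow, h, one_mul] at this
    exact this.symm
  refine Equiv.ext fun v => ?_
  obtain ⟨h1, h2, h3, h4, h5⟩ := Y_pow P v n
  rw [h, one_mul] at h2 h4
  rw [h', one_mul] at h3 h5
  obtain ⟨ha, hb⟩ := y_ext P h2 h3
  obtain ⟨he, hd⟩ := y_ext P h4 h5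
  rw [Equiv.Perm.one_apply]
  exact V5.ext (add_right_cancel ha) hb h1 hd (add_right_cancel he)

theorem eta_pow (hodd : Odd (orderOf P.eta)) (n : ℕ)
    (h : (r1 P * (r2 P * r3 * r2 P) : Equiv.Perm (V5 E)) ^ n = 1) : P.eta ^ n = 1 := by
  obtain ⟨-, h2, h3, -⟩ := Y_pow P ⟨0, 1, 0, 0, 0⟩ n
  rw [h] at h2 h3
  simp only [Equiv.Perm.one_apply, add_zero, y1, y2, mul_one, zero_add] at h2 h3
  have h4 : P.eta ^ n * P.eta = P.eta := h2.symm
  have := congrArg (fun z => z * P.ei) h4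
  simp only [mul_assoc, P.e1, mul_one] at this
  exact this

theorem genA {s : ℕ} (hs : Odd s) (h1 : 1 < s) (hl : orderOf P.lam = s) :
    TorusGen s (r0 P) (r1 P) (r2 P) where
  i0 := q0 P
  i1 := q1 P
  i2 := q2 P
  c02 := c02 P
  h01 := h01 P
  h12 := h12 P
  ord := by
    apply Nat.dvd_antisymm
    · apply orderOf_dvd_of_pow_eq_one
      apply X_pow_one
      rw [← hl]
      exact pow_orderOf_eq_one _
    · rw [← hl]
      apply orderOf_dvd_of_pow_eq_one
      apply lam_pow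
      · rw [hl]; exact hs
      · rw [pow_orderOf_eq_one]
        rfl
  odd := hs
  one_lt := h1

theorem genB {u : ℕ} (hu : Odd u) (h1 : 1 < u) (hl : orderOf P.eta = u) :
    TorusGen u (r1 P) (r2 P) (r3 : Equiv.Perm (V5 E)) where
  i0 := q1 P
  i1 := q2 P
  i2 := q3
  c02 := c13 P
  h01 := h12 P
  h12 := h23 P
  ord := by
    apply Nat.dvd_antisymm
    · apply orderOf_dvd_of_pow_eq_one
      apply Y_pow_one
      rw [← hl]
      exact pow_orderOf_eq_one _
    · rw [← hl]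
      apply orderOf_dvd_of_pow_eq_one
      apply eta_pow
      · rw [hl]; exact hu
      · rw [pow_orderOf_eq_one]
  odd := hu
  one_lt := h1

/-- elements of `⟨r1, r2, r3⟩` preserve the third coordinate -/
theorem pres {g : Equiv.Perm (V5 E)} (hg : g ∈ Subgroup.closure {r1 P, r2 P, r3}) (v : V5 E) :
    (g v).c = v.c := by
  have key : ∀ a ∈ ({r1 P, r2 P, r3} : Set (Equiv.Perm (V5 E))), ∀ v, (a v).c = v.c := by
    rintro a (rfl | rfl | rfl) v <;> rfl
  induction hg using Subgroup.closure_induction generalizing v with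
  | mem a ha => exact key a ha v
  | one => rfl
  | mul x y _ _ hx hy => rw [Equiv.Perm.mul_apply, hx, hy]
  | inv x _ hx =>
    have := hx (x⁻¹ v)
    have e : x (x⁻¹ v) = v := Equiv.apply_symm_apply x v
    rw [e] at this
    exact this.symm

theorem interAB {s : ℕ} (hA : TorusGen s (r0 P) (r1 P) (r2 P)) (hodd : Odd (orderOf P.lam))
    (x : Equiv.Perm (V5 E)) (h1 : x ∈ Subgroup.closure {r0 P, r1 P, r2 P})
    (h2 : x ∈ Subgroup.closure {r1 P, r2 P, r3}) : x ∈ Subgroup.closure {r1 P, r2 P} := by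
  obtain ⟨i, j, p, q, r, rfl⟩ := hA.mem_L h1
  rw [hA.mem_H0]
  have hd : dd (r1 P) (r2 P) p q r ∈ Subgroup.closure {r1 P, r2 P, r3} := by
    have h3 : dd (r1 P) (r2 P) p q r ∈ Subgroup.closure {r1 P, r2 P} := by
      rw [hA.mem_H0]
      exact ⟨p, q, r, by simp [ev, zp_zero]⟩
    exact Subgroup.closure_mono (by rintro y (rfl | rfl) <;> simp) h3
  have hT : zp (tX (r0 P) (r1 P) (r2 P)) i * zp (tY (r0 P) (r1 P) (r2 P)) j ∈
      Subgroup.closure {r1 P, r2 P, r3} := by
    have := Subgroup.mul_mem _ h2 (Subgroup.inv_mem _ hd)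
    rwa [ev, mul_inv_cancel_right] at this
  -- action of the second translation
  have hY : ∀ v, zp (tY (r0 P) (r1 P) (r2 P)) j v =
      f1 ((tX (r0 P) (r1 P) (r2 P) ^ j.val) (f1 v)) := by
    intro v
    rw [zp, tY, ← r1_apply P, ← r1_apply P, ← hA.conj_pow']
    rfl
  have hX : tX (r0 P) (r1 P) (r2 P) = r0 P * (r1 P * r2 P * r1 P) := rfl
  have e14 : f1 (⟨0, 0, 0, 1, 0⟩ : V5 E) = ⟨1, 0, 0, 0, 0⟩ := by
    ext <;> simp [f1]
  have e41 : f1 (⟨1, 0, 0, 0, 0⟩ : V5 E) = ⟨0, 0, 0, 1, 0⟩ := by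
    ext <;> simp [f1]
  have fixX : ∀ n : ℕ, ((r0 P * (r1 P * r2 P * r1 P)) ^ n) ⟨1, 0, 0, 0, 0⟩ =
      (⟨1, 0, 0, 0, 0⟩ : V5 E) := by
    intro n
    induction n with
    | zero => rfl
    | succ n ih =>
      rw [pow_succ', Equiv.Perm.mul_apply, ih, X_apply]
      ext <;> simp
  have hY4 : zp (tY (r0 P) (r1 P) (r2 P)) j ⟨0, 0, 0, 1, 0⟩ = ⟨0, 0, 0, 1, 0⟩ := by
    rw [hY, hX, e14, fixX, e41]
  have hi : P.lam ^ i.val = 1 := by
    apply lam_pow P hodd
    have := pres P hT ⟨0, 0, 0, 1, 0⟩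
    rw [Equiv.Perm.mul_apply, hY4] at this
    exact this
  have hXi : zp (tX (r0 P) (r1 P) (r2 P)) i = 1 := X_pow_one P hi
  rw [hXi, one_mul] at hT
  have hj : P.lam ^ j.val = 1 := by
    apply lam_pow P hodd
    have := pres P hT ⟨1, 0, 0, 0, 0⟩
    rw [hY, hX, e41] at this
    exact this
  have hXj : tX (r0 P) (r1 P) (r2 P) ^ j.val = 1 := X_pow_one P hj
  have hYj : zp (tY (r0 P) (r1 P) (r2 P)) j = 1 := by
    rw [zp, tY, ← hA.conj_pow', hXj, mul_one, hA.i1]
  exact ⟨p, q, r, by rw [ev, hXi, hYj]; simp [ev, zp_zero]⟩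

end NonComm

end Pool.Agent.Helper622
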