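import Pool.Agent.Helper622.Defs

namespace Pool.Agent.Helper622

/-! ### Group lemmas -/

section groups
variable {G : Type} [Group G]

theorem commute_of_closure {S T : Set G} (h : ∀ a ∈ S, ∀ b ∈ T, Commute a b) :
    ∀ a ∈ Subgroup.closure S, ∀ b ∈ Subgroup.closure T, Commute a b := by
  intro a ha b hb
  induction ha using Subgroup.closure_induction with
  | mem a ha =>
    induction hb using Subgroup.closure_induction with
    | mem b hb => exact h a ha b hb
    | one => exact Commute.one_right a
    | mul x y _ _ hx hy => exact hx.mul_right hy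
    | inv x _ hx => exact hx.inv_right
  | one => exact Commute.one_left b
  | mul x y _ _ hx hy => exact hx.mul_left hy
  | inv x _ hx => exact hx.inv_left

theorem prod_of_closure {S T : Set G} (h : ∀ a ∈ S, ∀ b ∈ T, Commute a b) :
    ∀ g ∈ Subgroup.closure (S ∪ T), ∃ p ∈ Subgroup.closure S, ∃ q ∈ Subgroup.closure T,
      g = p * q := by
  intro g hg
  have hc := commute_of_closure h
  induction hg using Subgroup.closure_induction with
  | mem a ha =>
    rcases ha with ha | ha
    · exact ⟨a, Subgroup.subset_closure ha, 1, Subgroup.one_mem _, (mul_one a).symm⟩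
    · exact ⟨1, Subgroup.one_mem _, a, Subgroup.subset_closure ha, (one_mul a).symm⟩
  | one => exact ⟨1, Subgroup.one_mem _, 1, Subgroup.one_mem _, (mul_one 1).symm⟩
  | mul x y _ _ hx hy =>
    obtain ⟨p, hp, q, hq, rfl⟩ := hx
    obtain ⟨p', hp', q', hq', rfl⟩ := hy
    refine ⟨p * p', Subgroup.mul_mem _ hp hp', q * q', Subgroup.mul_mem _ hq hq', ?_⟩
    have := (hc p' hp' q hq).eq
    calc p * q * (p' * q') = p * (q * p') * q' := by group
      _ = p * (p' * q) * q' := by rw [this]
      _ = p * p' * (q * q') := by group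
  | inv x _ hx =>
    obtain ⟨p, hp, q, hq, rfl⟩ := hx
    refine ⟨p⁻¹, Subgroup.inv_mem _ hp, q⁻¹, Subgroup.inv_mem _ hq, ?_⟩
    rw [mul_inv_rev]
    exact ((hc p hp q hq).inv_inv).eq.symm

end groups

/-! ### String C-groups -/

variable {n : ℕ} {G : Type} [Group G]

/-- The parabolic subgroup generated by the `ρ i`, `i ∈ J`. -/
def par (ρ : Fin n → G) (J : Set (Fin n)) : Subgroup G := Subgroup.closure (ρ '' J)

/-- `ρ 0, …, ρ (n-1)` make `G` a string C-group. -/
structure IsStringC (ρ : Fin n → G) : Prop where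
  invol : ∀ i, ρ i * ρ i = 1
  ne_one : ∀ i, ρ i ≠ 1
  comm : ∀ i j : Fin n, (i : ℕ) + 1 < j → Commute (ρ i) (ρ j)
  inter' : ∀ (J : Set (Fin n)) (x : G), (∀ i ∉ J, x ∈ par ρ {i}ᶜ) → x ∈ par ρ J

theorem par_mono (ρ : Fin n → G) {J K : Set (Fin n)} (h : J ⊆ K) : par ρ J ≤ par ρ K :=
  Subgroup.closure_mono (Set.image_mono h)

theorem mem_par (ρ : Fin n → G) {J : Set (Fin n)} {i : Fin n} (h : i ∈ J) : ρ i ∈ par ρ J :=
  Subgroup.subset_closure ⟨i, h, rfl⟩

/-- the intersection property -/
theorem IsStringC.inter {ρ : Fin n → G} (h : IsStringC ρ) (J K : Set (Fin n)) :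
    par ρ J ⊓ par ρ K = par ρ (J ∩ K) := by
  apply le_antisymm
  · rintro x ⟨h1, h2⟩
    refine h.inter' (J ∩ K) x fun i hi => ?_
    have aux : ∀ L : Set (Fin n), i ∉ L → L ⊆ {i}ᶜ := by
      intro L hL m hm hmi
      rw [Set.mem_singleton_iff] at hmi
      subst hmi
      exact hL hm
    by_cases hJ : i ∈ J
    · exact par_mono ρ (aux K fun hK => hi ⟨hJ, hK⟩) h2
    · exact par_mono ρ (aux J hJ) h1
  · exact le_inf (par_mono ρ Set.inter_subset_left) (par_mono ρ Set.inter_subset_right)

theorem IsStringC.gen {ρ : Fin n → G} (h : IsStringC ρ) : par ρ Set.univ = ⊤ :=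
  eq_top_iff.2 fun x _ => h.inter' Set.univ x fun i hi => absurd (Set.mem_univ i) hi

theorem IsStringC.comm' {ρ : Fin n → G} (h : IsStringC ρ) {i j : Fin n}
    (hij : (i : ℕ) + 1 < j ∨ (j : ℕ) + 1 < i) : Commute (ρ i) (ρ j) := by
  rcases hij with hij | hij
  · exact h.comm _ _ hij
  · exact (h.comm _ _ hij).symm

theorem IsStringC.split {ρ : Fin n → G} (h : IsStringC ρ) (j : Fin n) {g : G}
    (hg : g ∈ par ρ {j}ᶜ) : ∃ p ∈ par ρ {m | m < j}, ∃ q ∈ par ρ {m | j < m},
      g = p * q ∧ g = q * p := by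
  have hc : ∀ a ∈ ρ '' {m | m < j}, ∀ b ∈ ρ '' {m | j < m}, Commute a b := by
    rintro _ ⟨a, ha, rfl⟩ _ ⟨b, hb, rfl⟩
    apply h.comm
    simp only [Set.mem_ofPred_eq] at ha hb
    omega
  have : g ∈ Subgroup.closure (ρ '' {m | m < j} ∪ ρ '' {m | j < m}) := by
    have hset : ({m | m < j} ∪ {m | j < m} : Set (Fin n)) = {j}ᶜ := by
      ext m
      simp only [Set.mem_union, Set.mem_ofPred_eq, Set.mem_compl_iff, Set.mem_singleton_iff]
      omega
    rw [← Set.image_union, hset]
    exact hg
  obtain ⟨p, hp, q, hq, rfl⟩ := prod_of_closure hc g this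
  exact ⟨p, hp, q, hq, rfl, (commute_of_closure hc p hp q hq).eq⟩

/-! ### Passing to the generated subgroup -/

/-- `ρ 0, …, ρ (n-1)` are the distinguished generators of a string C-group inside `G`. -/
structure IsStringCIn (ρ : Fin n → G) : Prop where
  invol : ∀ i, ρ i * ρ i = 1
  ne_one : ∀ i, ρ i ≠ 1
  comm : ∀ i j : Fin n, (i : ℕ) + 1 < j → Commute (ρ i) (ρ j)
  inter' : ∀ (J : Set (Fin n)) (x : G), x ∈ par ρ Set.univ → (∀ i ∉ J, x ∈ par ρ {i}ᶜ) →
    x ∈ par ρ J

/-- the generators as elements of the generated subgroup -/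
def sub (ρ : Fin n → G) (i : Fin n) : par ρ Set.univ := ⟨ρ i, mem_par ρ (Set.mem_univ i)⟩

theorem mem_par_sub (ρ : Fin n → G) (J : Set (Fin n)) (x : par ρ Set.univ) :
    x ∈ par (sub ρ) J ↔ (x : G) ∈ par ρ J := by
  have h1 : (par (sub ρ) J).map (par ρ Set.univ).subtype = par ρ J := by
    change (Subgroup.closure (sub ρ '' J)).map (par ρ Set.univ).subtype =
      Subgroup.closure (ρ '' J)
    rw [MonoidHom.map_closure, ← Set.image_comp]
    rfl
  rw [← h1]
  exact (Subgroup.mem_map_iff_mem (Subgroup.subtype_injective _)).symm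

theorem IsStringCIn.sub {ρ : Fin n → G} (h : IsStringCIn ρ) : IsStringC (sub ρ) where
  invol i := Subtype.ext (h.invol i)
  ne_one i hi := h.ne_one i (congrArg Subtype.val hi)
  comm i j hij := Subtype.ext (h.comm i j hij)
  inter' J x hx := by
    rw [mem_par_sub]
    refine h.inter' J x x.2 fun i hi => ?_
    rw [← mem_par_sub]
    exact hx i hi

/-- The faces of the coset geometry. -/
inductive CF (ρ : Fin n → G) : Type
  | bot : CF ρ
  | mid (i : Fin n) (c : G ⧸ par ρ {i}ᶜ) : CF ρ
  | top : CF ρ

namespace CF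

variable {ρ : Fin n → G}

/-- incidence: the cosets intersect -/
def le : CF ρ → CF ρ → Prop
  | bot, _ => True
  | _, top => True
  | mid i c, mid j d => i ≤ j ∧ ∃ g : G, (g : G ⧸ par ρ {i}ᶜ) = c ∧ (g : G ⧸ par ρ {j}ᶜ) = d
  | _, _ => False

theorem le_trans' (h : IsStringC ρ) {a b c : CF ρ} (hab : le a b) (hbc : le b c) : le a c := by
  cases a with
  | bot => cases c <;> trivial
  | top =>
    cases b with
    | top => exact hbc
    | bot => exact hab.elim
    | mid _ _ => exact hab.elim
  | mid i x =>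
    cases b with
    | bot => exact hab.elim
    | top =>
      cases c with
      | top => trivial
      | bot => exact hbc.elim
      | mid _ _ => exact hbc.elim
    | mid j y =>
      cases c with
      | bot => exact hbc.elim
      | top => trivial
      | mid k z =>
        obtain ⟨hij, a, ha, ha'⟩ := hab
        obtain ⟨hjk, b, hb, hb'⟩ := hbc
        refine ⟨hij.trans hjk, ?_⟩
        have hmem : a⁻¹ * b ∈ par ρ {j}ᶜ := by
          rw [← QuotientGroup.eq, ha', hb]
        obtain ⟨p, hp, q, hq, -, hpq⟩ := h.split j hmem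
        refine ⟨a * q, ?_, ?_⟩
        · rw [← ha, QuotientGroup.eq]
          have : (a * q)⁻¹ * a = q⁻¹ := by group
          rw [this]
          refine Subgroup.inv_mem _ (par_mono ρ ?_ hq)
          intro m hm
          simp only [Set.mem_ofPred_eq] at hm
          simp only [Set.mem_compl_iff, Set.mem_singleton_iff]
          omega
        · rw [← hb', QuotientGroup.eq]
          have : (a * q)⁻¹ * b = p := by
            have : b = a * (q * p) := by rw [← hpq]; group
            rw [this]; group
          rw [this]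
          refine par_mono ρ ?_ hp
          intro m hm
          simp only [Set.mem_ofPred_eq] at hm
          simp only [Set.mem_compl_iff, Set.mem_singleton_iff]
          omega

instance instPartialOrder [h : Fact (IsStringC ρ)] : PartialOrder (CF ρ) where
  le := le
  le_refl a := by
    cases a with
    | bot => trivial
    | top => trivial
    | mid i c =>
      obtain ⟨g, rfl⟩ := QuotientGroup.mk_surjective c
      exact ⟨le_refl _, g, rfl, rfl⟩
  le_trans a b c hab hbc := le_trans' h.out hab hbc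
  le_antisymm a b hab hba := by
    cases a with
    | bot =>
      cases b with
      | bot => rfl
      | top => exact hba.elim
      | mid _ _ => exact hba.elim
    | top =>
      cases b with
      | bot => exact hab.elim
      | top => rfl
      | mid _ _ => exact hab.elim
    | mid i x =>
      cases b with
      | bot => exact hab.elim
      | top => exact hba.elim
      | mid j y =>
        obtain ⟨hij, a, ha, ha'⟩ := hab
        obtain ⟨hji, -⟩ := hba
        obtain rfl := le_antisymm hij hji
        rw [← ha, ← ha']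

theorem bot_le' [Fact (IsStringC ρ)] (x : CF ρ) : bot ≤ x := by
  change le bot x
  cases x <;> trivial

theorem le_top' [Fact (IsStringC ρ)] (x : CF ρ) : x ≤ top := by
  change le x top
  cases x <;> trivial

theorem mid_le_mid [Fact (IsStringC ρ)] {i j : Fin n} {c : G ⧸ par ρ {i}ᶜ}
    {d : G ⧸ par ρ {j}ᶜ} : (mid i c : CF ρ) ≤ mid j d ↔
      i ≤ j ∧ ∃ g : G, (g : G ⧸ par ρ {i}ᶜ) = c ∧ (g : G ⧸ par ρ {j}ᶜ) = d := Iff.rfl

theorem not_mid_le_bot [Fact (IsStringC ρ)] {i : Fin n} {c : G ⧸ par ρ {i}ᶜ} :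
    ¬ (mid i c : CF ρ) ≤ bot := fun h => h

theorem not_top_le_mid [Fact (IsStringC ρ)] {i : Fin n} {c : G ⧸ par ρ {i}ᶜ} :
    ¬ (top : CF ρ) ≤ mid i c := fun h => h

theorem not_top_le_bot [Fact (IsStringC ρ)] : ¬ (top : CF ρ) ≤ bot := fun h => h

/-- the rank function -/
def rk : CF ρ → ℤ
  | bot => -1
  | mid i _ => i
  | top => n

theorem rk_bot : rk (bot : CF ρ) = -1 := rfl
theorem rk_mid {i : Fin n} {c : G ⧸ par ρ {i}ᶜ} : rk (mid i c : CF ρ) = i := rfl
theorem rk_top : rk (top : CF ρ) = n := rfl

theorem rk_strictMono [Fact (IsStringC ρ)] : StrictMono (rk : CF ρ → ℤ) := by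
  intro a b hab
  have h1 : le a b := hab.le
  have h2 : a ≠ b := hab.ne
  cases a with
  | bot =>
    cases b with
    | bot => exact absurd rfl h2
    | mid i c => simp only [rk]; omega
    | top => simp only [rk]; omega
  | mid i c =>
    cases b with
    | bot => exact h1.elim
    | mid j d =>
      obtain ⟨hij, g, hg, hg'⟩ := h1
      have : i ≠ j := by
        rintro rfl
        exact h2 (by rw [← hg, ← hg'])
      simp only [rk]
      have : (i : ℕ) < j := lt_of_le_of_ne hij (fun h => this (Fin.ext h))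
      omega
    | top => simp only [rk]; have := i.2; omega
  | top =>
    cases b with
    | bot => exact h1.elim
    | mid j d => exact h1.elim
    | top => exact absurd rfl h2

theorem rk_range : Set.range (rk : CF ρ → ℤ) = Set.Icc (-1 : ℤ) n := by
  ext z
  constructor
  · rintro ⟨a, rfl⟩
    cases a with
    | bot => simp only [rk, Set.mem_Icc]; omega
    | mid i c => simp only [rk, Set.mem_Icc]; have := i.2; omega
    | top => simp only [rk, Set.mem_Icc]; omega
  · rintro ⟨h1, h2⟩
    by_cases h3 : z = -1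
    · exact ⟨bot, h3.symm⟩
    · by_cases h4 : z = n
      · exact ⟨top, h4.symm⟩
      · refine ⟨mid ⟨z.toNat, by omega⟩ ((1 : G) : G ⧸ _), ?_⟩
        simp only [rk]
        omega

/-- the chain of faces attached to a group element -/
def chain (ρ : Fin n → G) (g : G) : Set (CF ρ) :=
  {bot, top} ∪ Set.range (fun i : Fin n => mid i (g : G ⧸ par ρ {i}ᶜ))

theorem mem_chain_mid {g : G} {i : Fin n} {c : G ⧸ par ρ {i}ᶜ} :
    (mid i c : CF ρ) ∈ chain ρ g ↔ (g : G ⧸ par ρ {i}ᶜ) = c := by
  simp only [chain, Set.mem_union, Set.mem_insert_iff, Set.mem_singleton_iff, Set.mem_range]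
  constructor
  · rintro ((h | h) | ⟨j, h⟩)
    · cases h
    · cases h
    · cases h
      rfl
  · rintro rfl
    exact Or.inr ⟨i, rfl⟩

theorem bot_mem_chain (g : G) : (bot : CF ρ) ∈ chain ρ g := Or.inl (Or.inl rfl)
theorem top_mem_chain (g : G) : (top : CF ρ) ∈ chain ρ g := Or.inl (Or.inr rfl)

theorem chain_isChain [Fact (IsStringC ρ)] (g : G) : IsChain (· ≤ ·) (chain ρ g) := by
  intro a ha b hb _
  cases a with
  | bot => exact Or.inl (bot_le' b)
  | top => exact Or.inr (le_top' b)
  | mid i c =>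
    cases b with
    | bot => exact Or.inr (bot_le' _)
    | top => exact Or.inl (le_top' _)
    | mid j d =>
      rw [mem_chain_mid] at ha hb
      rcases le_total i j with h | h
      · exact Or.inl ⟨h, g, ha, hb⟩
      · exact Or.inr ⟨h, g, hb, ha⟩

theorem chain_max [Fact (IsStringC ρ)] (g : G) (S : Set (CF ρ)) (hS : IsChain (· ≤ ·) S)
    (h : chain ρ g ⊆ S) : chain ρ g = S := by
  apply Set.Subset.antisymm h
  intro y hy
  cases y with
  | bot => exact bot_mem_chain g
  | top => exact top_mem_chain g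
  | mid i c =>
    rw [mem_chain_mid]
    rcases hS.total (h (mem_chain_mid.2 rfl : mid i (g : G ⧸ par ρ {i}ᶜ) ∈ chain ρ g)) hy with
      h1 | h1
    · obtain ⟨-, a, ha, ha'⟩ := h1
      rw [← ha, ← ha']
    · obtain ⟨-, a, ha, ha'⟩ := h1
      rw [← ha, ← ha']

/-- The flag attached to a group element. -/
def flag [Fact (IsStringC ρ)] (g : G) : Flag (CF ρ) where
  carrier := chain ρ g
  Chain' := chain_isChain g
  max_chain' := fun S hS h => chain_max g S hS h

theorem coe_flag [Fact (IsStringC ρ)] (g : G) : ((flag g : Flag (CF ρ)) : Set (CF ρ)) =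
    chain ρ g := rfl

/-- Every chain is contained in the flag of a group element. -/
theorem exists_of_chain [hρ : Fact (IsStringC ρ)] (C : Set (CF ρ)) (hC : IsChain (· ≤ ·) C) :
    ∃ g : G, ∀ i (c : G ⧸ par ρ {i}ᶜ), mid i c ∈ C → (g : G ⧸ par ρ {i}ᶜ) = c := by
  have key : ∀ k : ℕ, ∃ g : G, ∀ i (c : G ⧸ par ρ {i}ᶜ), (i : ℕ) < k → mid i c ∈ C →
      (g : G ⧸ par ρ {i}ᶜ) = c := by
    intro k
    induction k with
    | zero => exact ⟨1, fun i c hi => absurd hi (Nat.not_lt_zero _)⟩
    | succ k ih =>
      obtain ⟨g, hg⟩ := ih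
      by_cases hk : ∃ j : Fin n, (j : ℕ) = k ∧ ∃ d : G ⧸ par ρ {j}ᶜ, mid j d ∈ C
      · obtain ⟨j, hjk, d, hd⟩ := hk
        obtain ⟨b, rfl⟩ := QuotientGroup.mk_surjective d
        have huniq : ∀ d' : G ⧸ par ρ {j}ᶜ, mid j d' ∈ C → (b : G ⧸ par ρ {j}ᶜ) = d' := by
          intro d' hd'
          rcases hC.total hd hd' with h1 | h1
          · obtain ⟨-, a, ha, ha'⟩ := h1
            rw [← ha, ← ha']
          · obtain ⟨-, a, ha, ha'⟩ := h1
            rw [← ha, ← ha']
        let I : Set (Fin n) := {i | (i : ℕ) < k ∧ ∃ c : G ⧸ par ρ {i}ᶜ, mid i c ∈ C}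
        by_cases hI : I.Nonempty
        · obtain ⟨m, hm, hmax⟩ := Set.exists_max_image I id (Set.toFinite I) hI
          obtain ⟨hmk, cm, hcm⟩ := hm
          have hgm := hg m cm hmk hcm
          subst hgm
          -- an element in both `c_m` and `d`
          have hle : (mid m (g : G ⧸ par ρ {m}ᶜ) : CF ρ) ≤ mid j (b : G ⧸ par ρ {j}ᶜ) := by
            rcases hC.total hcm hd with h1 | h1
            · exact h1
            · have := h1.1
              have : (j : ℕ) ≤ m := this
              omega
          obtain ⟨-, a, ha, ha'⟩ := hle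
          have hmem : g⁻¹ * a ∈ par ρ {m}ᶜ := by
            rw [← QuotientGroup.eq, ha]
          obtain ⟨p, hp, q, hq, hpq, hpq'⟩ := hρ.out.split m hmem
          refine ⟨g * q, fun i c hi hc => ?_⟩
          rcases Nat.lt_succ_iff_lt_or_eq.1 hi with hi' | hi'
          · have hgc := hg i c hi' hc
            subst hgc
            rw [QuotientGroup.eq]
            have : (g * q)⁻¹ * g = q⁻¹ := by group
            rw [this]
            refine Subgroup.inv_mem _ (par_mono ρ ?_ hq)
            intro l hl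
            simp only [Set.mem_ofPred_eq] at hl
            simp only [Set.mem_compl_iff, Set.mem_singleton_iff]
            have : i ≤ m := hmax i ⟨hi', _, hc⟩
            intro hli
            rw [hli] at hl
            exact absurd this (not_le.2 hl)
          · have hij : i = j := Fin.ext (hi'.trans hjk.symm)
            subst hij
            rw [← huniq c hc, ← ha', QuotientGroup.eq]
            have : (g * q)⁻¹ * a = p := by
              have : a = g * (q * p) := by rw [← hpq']; group
              rw [this]; group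
            rw [this]
            refine par_mono ρ ?_ hp
            intro l hl
            simp only [Set.mem_ofPred_eq] at hl
            simp only [Set.mem_compl_iff, Set.mem_singleton_iff]
            rintro rfl
            have : (l : ℕ) < m := hl
            omega
        · refine ⟨b, fun i c hi hc => ?_⟩
          rcases Nat.lt_succ_iff_lt_or_eq.1 hi with hi' | hi'
          · exact absurd ⟨i, hi', c, hc⟩ hI
          · have hij : i = j := Fin.ext (hi'.trans hjk.symm)
            subst hij
            exact huniq c hc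
      · refine ⟨g, fun i c hi hc => ?_⟩
        rcases Nat.lt_succ_iff_lt_or_eq.1 hi with hi' | hi'
        · exact hg i c hi' hc
        · exact absurd ⟨i, hi', c, hc⟩ hk
  obtain ⟨g, hg⟩ := key n
  exact ⟨g, fun i c hc => hg i c i.2 hc⟩

theorem flag_eq [Fact (IsStringC ρ)] (Φ : Flag (CF ρ)) : ∃ g : G, Φ = flag g := by
  obtain ⟨g, hg⟩ := exists_of_chain (Φ : Set (CF ρ)) Φ.chain_le
  refine ⟨g, ?_⟩
  have hsub : (Φ : Set (CF ρ)) ⊆ chain ρ g := by
    intro y hy
    cases y with
    | bot => exact bot_mem_chain g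
    | top => exact top_mem_chain g
    | mid i c => exact mem_chain_mid.2 (hg i c hy)
  exact SetLike.coe_injective (Φ.max_chain' (chain_isChain g) hsub)

theorem chain_encard (g : G) : (chain ρ g).encard = ((n + 2 : ℕ) : ℕ∞) := by
  classical
  have h1 : Function.Injective (fun i : Fin n => mid i (g : G ⧸ par ρ {i}ᶜ) : Fin n → CF ρ) := by
    intro i j hij
    injection hij
  rw [chain, Set.encard_union_eq, Set.encard_pair (by simp), ← Set.image_univ, h1.encard_image,
    Set.encard_univ, ENat.card_eq_coe_fintype_card, Fintype.card_fin, add_comm]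
  · norm_cast
  · rw [Set.disjoint_left]
    rintro x (rfl | rfl) ⟨i, hi⟩ <;> cases hi

/-- indices different from the rank of a face -/
def idx (F : CF ρ) : Set (Fin n) := {m | (m : ℤ) ≠ rk F}

theorem mem_chain_iff [hρ : Fact (IsStringC ρ)] {F : CF ρ} {g h : G} (hF : F ∈ chain ρ g) :
    F ∈ chain ρ h ↔ g⁻¹ * h ∈ par ρ (idx F) := by
  cases F with
  | bot =>
    have : idx (bot : CF ρ) = Set.univ := by
      ext m
      simp only [idx, rk, Set.mem_ofPred_eq, Set.mem_univ, iff_true]
      omega
    rw [this, hρ.out.gen]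
    exact ⟨fun _ => Subgroup.mem_top _, fun _ => bot_mem_chain h⟩
  | top =>
    have : idx (top : CF ρ) = Set.univ := by
      ext m
      simp only [idx, rk, Set.mem_ofPred_eq, Set.mem_univ, iff_true]
      have := m.2
      omega
    rw [this, hρ.out.gen]
    exact ⟨fun _ => Subgroup.mem_top _, fun _ => top_mem_chain h⟩
  | mid i c =>
    have : idx (mid i c : CF ρ) = {i}ᶜ := by
      ext m
      simp only [idx, rk, Set.mem_ofPred_eq, Set.mem_compl_iff, Set.mem_singleton_iff, Fin.ext_iff]
      omega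
    rw [this]
    rw [mem_chain_mid] at hF ⊢
    rw [← hF, ← QuotientGroup.eq]
    exact eq_comm

theorem rho_not_mem (hρ : IsStringC ρ) (j : Fin n) : ρ j ∉ par ρ {j}ᶜ := by
  intro h
  have h1 : ρ j ∈ par ρ {j} ⊓ par ρ {j}ᶜ := ⟨mem_par ρ rfl, h⟩
  rw [hρ.inter] at h1
  have : ({j} ∩ {j}ᶜ : Set (Fin n)) = ∅ := by simp
  rw [this, par, Set.image_empty, Subgroup.closure_empty, Subgroup.mem_bot] at h1
  exact hρ.ne_one j h1

theorem mem_par_singleton (hρ : IsStringC ρ) (j : Fin n) {x : G} (hx : x ∈ par ρ {j}) :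
    x = 1 ∨ x = ρ j := by
  rw [par, Set.image_singleton] at hx
  induction hx using Subgroup.closure_induction with
  | mem x hx => exact Or.inr hx
  | one => exact Or.inl rfl
  | mul x y _ _ hx hy =>
    rcases hx with rfl | rfl <;> rcases hy with rfl | rfl
    · left; simp
    · right; simp
    · right; simp
    · left; exact hρ.invol j
  | inv x _ hx =>
    rcases hx with rfl | rfl
    · left; simp
    · right; exact inv_eq_of_mul_eq_one_right (hρ.invol j)

theorem diamond [hρ : Fact (IsStringC ρ)] (F H : CF ρ) (h : F ≤ H) (hr : rk H = rk F + 2) :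
    {K : CF ρ | rk K = rk F + 1 ∧ F ≤ K ∧ K ≤ H}.encard = 2 := by
  -- a common flag
  have hC : IsChain (· ≤ ·) ({F, H} : Set (CF ρ)) := by
    intro a ha b hb _
    rcases ha with rfl | rfl <;> rcases hb with rfl | rfl
    · exact Or.inl le_rfl
    · exact Or.inl h
    · exact Or.inr h
    · exact Or.inl le_rfl
  have key : ∀ (C : Set (CF ρ)), IsChain (· ≤ ·) C → ∃ g : G, C ⊆ chain ρ g := by
    intro C hC
    obtain ⟨g, hg⟩ := exists_of_chain C hC
    refine ⟨g, fun y hy => ?_⟩
    cases y with
    | bot => exact bot_mem_chain g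
    | top => exact top_mem_chain g
    | mid i c => exact mem_chain_mid.2 (hg i c hy)
  obtain ⟨g, hg⟩ := key _ hC
  have hFg : F ∈ chain ρ g := hg (by simp)
  have hHg : H ∈ chain ρ g := hg (by simp)
  -- the index of the middle rank
  have hF : -1 ≤ rk F := by
    have : rk F ∈ Set.range (rk : CF ρ → ℤ) := ⟨F, rfl⟩
    rw [rk_range] at this
    exact this.1
  have hH : rk H ≤ n := by
    have : rk H ∈ Set.range (rk : CF ρ → ℤ) := ⟨H, rfl⟩
    rw [rk_range] at this
    exact this.2
  obtain ⟨j, hj⟩ : ∃ j : Fin n, (j : ℤ) = rk F + 1 :=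
    ⟨⟨(rk F + 1).toNat, by omega⟩, by simp only; omega⟩
  have hjF : ρ j ∈ par ρ (idx F) := mem_par ρ (by simp only [idx, Set.mem_ofPred_eq]; omega)
  have hjH : ρ j ∈ par ρ (idx H) := mem_par ρ (by simp only [idx, Set.mem_ofPred_eq]; omega)
  have hFg' : F ∈ chain ρ (g * ρ j) := by
    rw [mem_chain_iff hFg]
    simpa using hjF
  have hHg' : H ∈ chain ρ (g * ρ j) := by
    rw [mem_chain_iff hHg]
    simpa using hjH
  -- comparability inside a flag follows from the ranks
  have cmp : ∀ (g : G) (A B : CF ρ), A ∈ chain ρ g → B ∈ chain ρ g → rk A < rk B → A ≤ B := by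
    intro g A B hA hB hAB
    rcases (chain_isChain g).total hA hB with h1 | h1
    · exact h1
    · have := rk_strictMono.monotone h1
      omega
  have hset : {K : CF ρ | rk K = rk F + 1 ∧ F ≤ K ∧ K ≤ H} =
      {mid j (g : G ⧸ par ρ {j}ᶜ), mid j ((g * ρ j : G) : G ⧸ par ρ {j}ᶜ)} := by
    ext K
    simp only [Set.mem_ofPred_eq, Set.mem_insert_iff, Set.mem_singleton_iff]
    constructor
    · rintro ⟨hK, hFK, hKH⟩
      have hC' : IsChain (· ≤ ·) ({F, K, H} : Set (CF ρ)) := by
        intro a ha b hb _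
        rcases ha with rfl | rfl | rfl <;> rcases hb with rfl | rfl | rfl
        · exact Or.inl le_rfl
        · exact Or.inl hFK
        · exact Or.inl h
        · exact Or.inr hFK
        · exact Or.inl le_rfl
        · exact Or.inl hKH
        · exact Or.inr h
        · exact Or.inr hKH
        · exact Or.inl le_rfl
      obtain ⟨b, hb⟩ := key _ hC'
      have hFb : g⁻¹ * b ∈ par ρ (idx F) := (mem_chain_iff hFg).1 (hb (by simp))
      have hHb : g⁻¹ * b ∈ par ρ (idx H) := (mem_chain_iff hHg).1 (hb (by simp))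
      have hKb : K ∈ chain ρ b := hb (by simp)
      have hx : g⁻¹ * b ∈ par ρ (idx F ∩ idx H) := by
        rw [← hρ.out.inter]
        exact ⟨hFb, hHb⟩
      have hx' : g⁻¹ * b ∈ Subgroup.closure (ρ '' {j} ∪ ρ '' (idx F ∩ idx H ∩ {j}ᶜ)) := by
        rw [← Set.image_union]
        refine par_mono ρ ?_ hx
        intro m hm
        by_cases hmj : m = j
        · exact Or.inl hmj
        · exact Or.inr ⟨hm, hmj⟩
      obtain ⟨p, hp, q, hq, hpq⟩ := prod_of_closure (by
        rintro _ ⟨a, rfl, rfl⟩ _ ⟨b, ⟨⟨hb1, hb2⟩, hb3⟩, rfl⟩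
        apply hρ.out.comm'
        simp only [idx, Set.mem_ofPred_eq] at hb1 hb2
        have : (b : ℕ) ≠ a := fun h => hb3 (Fin.ext h)
        omega) _ hx'
      have hq' : q ∈ par ρ {j}ᶜ := par_mono ρ (fun m hm => hm.2) hq
      have hKmid : K = mid j (b : G ⧸ par ρ {j}ᶜ) := by
        cases K with
        | bot => rw [rk_bot] at hK; omega
        | top => rw [rk_top] at hK; have := j.2; omega
        | mid i c =>
          have : i = j := by
            rw [rk_mid] at hK
            exact Fin.ext (by omega)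
          subst this
          rw [mem_chain_mid] at hKb
          rw [hKb]
      rcases mem_par_singleton hρ.out j hp with rfl | rfl
      · left
        rw [hKmid]
        congr 1
        rw [QuotientGroup.eq]
        have : b⁻¹ * g = q⁻¹ := by
          have h3 : g⁻¹ * b = q := by rw [hpq, one_mul]
          rw [← h3]; group
        rw [this]
        exact Subgroup.inv_mem _ hq'
      · right
        rw [hKmid]
        congr 1
        rw [QuotientGroup.eq]
        have : b⁻¹ * (g * ρ j) = q⁻¹ := by
          have h3 : b = g * (ρ j * q) := by rw [← hpq]; group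
          rw [h3]
          group
        rw [this]
        exact Subgroup.inv_mem _ hq'
    · have hr1 : ∀ c : G ⧸ par ρ {j}ᶜ, rk (mid j c : CF ρ) = rk F + 1 := fun c => by
        simp only [rk]; exact hj
      rintro (rfl | rfl)
      · refine ⟨hr1 _, cmp g _ _ hFg (mem_chain_mid.2 rfl) (by rw [hr1]; omega),
          cmp g _ _ (mem_chain_mid.2 rfl) hHg (by rw [hr1]; omega)⟩
      · refine ⟨hr1 _, cmp (g * ρ j) _ _ hFg' (mem_chain_mid.2 rfl) (by rw [hr1]; omega),
          cmp (g * ρ j) _ _ (mem_chain_mid.2 rfl) hHg' (by rw [hr1]; omega)⟩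
  rw [hset, Set.encard_pair]
  intro heq
  injection heq with _ heq
  rw [QuotientGroup.eq] at heq
  have : g⁻¹ * (g * ρ j) = ρ j := by group
  rw [this] at heq
  exact rho_not_mem hρ.out j heq

theorem chain_diff (hρ : IsStringC ρ) (g : G) (j : Fin n) :
    chain ρ g \ chain ρ (g * ρ j) = {mid j (g : G ⧸ par ρ {j}ᶜ)} := by
  ext y
  simp only [Set.mem_sdiff, Set.mem_singleton_iff]
  cases y with
  | bot => simp [bot_mem_chain]
  | top => simp [top_mem_chain]
  | mid i c =>
    rw [mem_chain_mid, mem_chain_mid]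
    constructor
    · rintro ⟨rfl, h2⟩
      by_cases hij : i = j
      · subst hij; rfl
      · exfalso
        apply h2
        rw [QuotientGroup.eq]
        have : (g * ρ j)⁻¹ * g = (ρ j)⁻¹ := by group
        rw [this]
        exact Subgroup.inv_mem _ (mem_par ρ (fun h => hij h.symm))
    · intro h
      injection h with h1 h2
      subst h1
      have h2 := eq_of_heq h2
      subst h2
      refine ⟨rfl, fun h => ?_⟩
      rw [QuotientGroup.eq] at h
      have : (g * ρ i)⁻¹ * g = (ρ i)⁻¹ := by group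
      rw [this] at h
      exact rho_not_mem hρ i (by simpa using Subgroup.inv_mem _ h)

theorem inter_finset (hρ : IsStringC ρ) (J : Finset (Fin n)) {x : G}
    (hx : ∀ i ∈ J, x ∈ par ρ {i}ᶜ) : x ∈ par ρ (J : Set (Fin n))ᶜ := by
  classical
  induction J using Finset.induction_on with
  | empty =>
    have : ((∅ : Finset (Fin n)) : Set (Fin n))ᶜ = Set.univ := by simp
    rw [this, hρ.gen]
    exact Subgroup.mem_top _
  | insert a s _ ih =>
    have h1 := hx a (Finset.mem_insert_self a s)
    have h2 := ih (fun i hi => hx i (Finset.mem_insert_of_mem hi))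
    have h3 : x ∈ par ρ {a}ᶜ ⊓ par ρ (s : Set (Fin n))ᶜ := ⟨h1, h2⟩
    rw [hρ.inter] at h3
    refine par_mono ρ ?_ h3
    intro m hm
    simp only [Set.mem_inter_iff, Set.mem_compl_iff, Set.mem_singleton_iff, Finset.coe_insert,
      Set.mem_insert_iff] at hm ⊢
    tauto

theorem strongly_connected [hρ : Fact (IsStringC ρ)] (Φ Ψ : Flag (CF ρ)) :
    Relation.ReflTransGen
    (fun A B : Flag (CF ρ) => ((A : Set (CF ρ)) \ (B : Set (CF ρ))).encard = 1 ∧
      ((B : Set (CF ρ)) \ (A : Set (CF ρ))).encard = 1 ∧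
      (Φ : Set (CF ρ)) ∩ (Ψ : Set (CF ρ)) ⊆ (A : Set (CF ρ)) ∧
      (Φ : Set (CF ρ)) ∩ (Ψ : Set (CF ρ)) ⊆ (B : Set (CF ρ))) Φ Ψ := by
  classical
  obtain ⟨g, rfl⟩ := flag_eq Φ
  obtain ⟨h, rfl⟩ := flag_eq Ψ
  let J : Finset (Fin n) := Finset.univ.filter
    (fun i => (g : G ⧸ par ρ {i}ᶜ) = (h : G ⧸ par ρ {i}ᶜ))
  have hx : g⁻¹ * h ∈ par ρ (J : Set (Fin n))ᶜ := by
    refine inter_finset hρ.out J fun i hi => ?_
    rw [← QuotientGroup.eq]
    exact (Finset.mem_filter.1 hi).2
  have hsub : ∀ w ∈ par ρ (J : Set (Fin n))ᶜ, chain ρ g ∩ chain ρ h ⊆ chain ρ (g * w) := by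
    rintro w hw y ⟨h1, h2⟩
    cases y with
    | bot => exact bot_mem_chain _
    | top => exact top_mem_chain _
    | mid i c =>
      rw [mem_chain_mid] at h1 h2 ⊢
      rw [← h1, QuotientGroup.eq]
      have : (g * w)⁻¹ * g = w⁻¹ := by group
      rw [this]
      refine Subgroup.inv_mem _ (par_mono ρ ?_ hw)
      intro m hm hmi
      apply hm
      have hmi' : m = i := hmi
      subst hmi'
      simp only [J, Finset.coe_filter, Finset.mem_univ, true_and, Set.mem_ofPred_eq]
      rw [h1, h2]
  have key : ∀ w ∈ par ρ (J : Set (Fin n))ᶜ, Relation.ReflTransGen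
      (fun A B : Flag (CF ρ) => ((A : Set (CF ρ)) \ (B : Set (CF ρ))).encard = 1 ∧
      ((B : Set (CF ρ)) \ (A : Set (CF ρ))).encard = 1 ∧
      ((flag g : Flag (CF ρ)) : Set (CF ρ)) ∩ ((flag h : Flag (CF ρ)) : Set (CF ρ)) ⊆
        (A : Set (CF ρ)) ∧
      ((flag g : Flag (CF ρ)) : Set (CF ρ)) ∩ ((flag h : Flag (CF ρ)) : Set (CF ρ)) ⊆
        (B : Set (CF ρ))) (flag g) (flag (g * w)) := by
    intro w hw
    have hstep : ∀ x ∈ par ρ (J : Set (Fin n))ᶜ, ∀ j : Fin n, j ∈ (J : Set (Fin n))ᶜ →
        ((chain ρ (g * x)) \ (chain ρ (g * (x * ρ j)))).encard = 1 ∧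
        ((chain ρ (g * (x * ρ j))) \ (chain ρ (g * x))).encard = 1 ∧
        chain ρ g ∩ chain ρ h ⊆ chain ρ (g * x) ∧
        chain ρ g ∩ chain ρ h ⊆ chain ρ (g * (x * ρ j)) := by
      intro x hx j hj
      refine ⟨?_, ?_, hsub x hx, hsub _ (Subgroup.mul_mem _ hx (mem_par ρ hj))⟩
      · rw [← mul_assoc, chain_diff hρ.out, Set.encard_singleton]
      · have : g * x = g * (x * ρ j) * ρ j := by
          rw [mul_assoc, mul_assoc, hρ.out.invol, mul_one]
        rw [this]
        have := chain_diff hρ.out (g * (x * ρ j)) j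
        rw [this, Set.encard_singleton]
    induction hw using Subgroup.closure_induction_right with
    | one => rw [mul_one]
    | mul_right x hx y hy ih =>
      obtain ⟨j, hj, rfl⟩ := hy
      exact ih.tail (hstep x hx j hj)
    | mul_inv_cancel x hx y hy ih =>
      obtain ⟨j, hj, rfl⟩ := hy
      rw [inv_eq_of_mul_eq_one_right (hρ.out.invol j)]
      exact ih.tail (hstep x hx j hj)
  have := key _ hx
  rwa [mul_inv_cancel_left] at this

theorem exists_least [Fact (IsStringC ρ)] : ∃! F : CF ρ, ∀ H, F ≤ H :=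
  ⟨bot, fun H => bot_le' H, fun y hy => le_antisymm (hy bot) (bot_le' y)⟩

theorem exists_greatest [Fact (IsStringC ρ)] : ∃! F : CF ρ, ∀ H, H ≤ F :=
  ⟨top, fun H => le_top' H, fun y hy => le_antisymm (le_top' y) (hy top)⟩

/-- The abstract polytope of a string C-group. -/
def polytope [Fact (IsStringC ρ)] : AbstractPolytope n (CF ρ) where
  rank := rk
  rank_strictMono := rk_strictMono
  rank_range := rk_range
  unique_least := exists_least
  unique_greatest := exists_greatest
  flag_card := by
    intro Φ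
    obtain ⟨g, rfl⟩ := flag_eq Φ
    exact chain_encard g
  diamond := diamond
  strongly_flag_connected := strongly_connected

/-- left translation -/
def tr (a : G) : CF ρ → CF ρ
  | bot => bot
  | mid i c => mid i (a • c)
  | top => top

theorem tr_tr (a b : G) (x : CF ρ) : tr a (tr b x) = tr (a * b) x := by
  cases x with
  | bot => rfl
  | top => rfl
  | mid i c => simp only [tr, mul_smul]

theorem tr_one (x : CF ρ) : tr 1 x = x := by
  cases x with
  | bot => rfl
  | top => rfl
  | mid i c => simp only [tr, one_smul]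

theorem tr_le [Fact (IsStringC ρ)] (a : G) {x y : CF ρ} (h : x ≤ y) : tr a x ≤ tr a y := by
  cases x with
  | bot => exact bot_le' _
  | top =>
    cases y with
    | bot => exact h.elim
    | top => exact le_rfl
    | mid _ _ => exact h.elim
  | mid i c =>
    cases y with
    | bot => exact h.elim
    | top => exact le_top' _
    | mid j d =>
      obtain ⟨hij, g, rfl, rfl⟩ := h
      exact ⟨hij, a * g, rfl, rfl⟩

/-- left translation as an automorphism -/
def trIso [Fact (IsStringC ρ)] (a : G) : CF ρ ≃o CF ρ where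
  toFun := tr a
  invFun := tr a⁻¹
  left_inv x := by rw [tr_tr, inv_mul_cancel, tr_one]
  right_inv x := by rw [tr_tr, mul_inv_cancel, tr_one]
  map_rel_iff' := by
    intro x y
    constructor
    · intro h
      have := tr_le a⁻¹ h
      change tr a⁻¹ (tr a x) ≤ tr a⁻¹ (tr a y) at this
      rwa [tr_tr, tr_tr, inv_mul_cancel, tr_one, tr_one] at this
    · exact tr_le a

theorem trIso_apply [Fact (IsStringC ρ)] (a : G) (x : CF ρ) : trIso a x = tr a x := rfl

theorem tr_chain (a g : G) : tr a '' chain ρ g = chain ρ (a * g) := by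
  ext y
  constructor
  · rintro ⟨x, hx, rfl⟩
    cases x with
    | bot => exact bot_mem_chain _
    | top => exact top_mem_chain _
    | mid i c =>
      rw [mem_chain_mid] at hx
      subst hx
      exact mem_chain_mid.2 rfl
  · intro hy
    cases y with
    | bot => exact ⟨bot, bot_mem_chain _, rfl⟩
    | top => exact ⟨top, top_mem_chain _, rfl⟩
    | mid i c =>
      rw [mem_chain_mid] at hy
      subst hy
      exact ⟨mid i (g : G ⧸ par ρ {i}ᶜ), mem_chain_mid.2 rfl, rfl⟩

theorem isRegular [Fact (IsStringC ρ)] : (polytope : AbstractPolytope n (CF ρ)).IsRegular := by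
  intro Φ Ψ
  obtain ⟨g, rfl⟩ := flag_eq Φ
  obtain ⟨h, rfl⟩ := flag_eq Ψ
  refine ⟨trIso (h * g⁻¹), ?_⟩
  change tr (h * g⁻¹) '' chain ρ g = chain ρ h
  rw [tr_chain, inv_mul_cancel_right]

end CF

end Pool.Agent.Helper622
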