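import Pool.Agent.Helper622.TorusInj
import Pool.Agent.Helper622.Polytope

namespace Pool.Agent.Helper622

namespace Torus

variable {s : ℕ}

/-- rank, shifted by one -/
def rk : Torus s → ℕ
  | bot => 0
  | vtx _ _ => 1
  | hor _ _ => 2
  | ver _ _ => 2
  | sq _ _ => 3
  | top => 4

/-- incidence with the flag of parameters `x y p q r` -/
def inc : Torus s → ZMod s → ZMod s → Bool → Bool → Bool → Prop
  | bot, _, _, _, _, _ => True
  | vtx u v, x, y, _, _, _ => x = u ∧ y = v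
  | hor u v, x, y, p, _, r => x = u + bz s p ∧ y = v ∧ r = false
  | ver u v, x, y, _, q, r => x = u ∧ y = v + bz s q ∧ r = true
  | sq u v, x, y, p, q, _ => x = u + bz s p ∧ y = v + bz s q
  | top, _, _, _, _, _ => True

theorem or_iff_bz {x a : ZMod s} : (x = a ∨ x = a + 1) ↔ ∃ p, x = a + bz s p := by
  constructor
  · rintro (h | h)
    · exact ⟨false, by simp [bz, h]⟩
    · exact ⟨true, by simp [bz, h]⟩
  · rintro ⟨p, h⟩
    cases p
    · left; simpa [bz] using h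
    · right; simpa [bz] using h

theorem exists_inc (t : Torus s) : ∃ x y p q r, inc t x y p q r := by
  cases t with
  | bot => exact ⟨0, 0, false, false, false, trivial⟩
  | top => exact ⟨0, 0, false, false, false, trivial⟩
  | vtx u v => exact ⟨u, v, false, false, false, rfl, rfl⟩
  | hor u v => exact ⟨u, v, false, false, false, (add_zero u).symm, rfl, rfl⟩
  | ver u v => exact ⟨u, v, false, false, true, rfl, (add_zero v).symm, rfl⟩
  | sq u v => exact ⟨u, v, false, false, true, (add_zero u).symm, (add_zero v).symm⟩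

theorem exists_of_rk (x y : ZMod s) (p q r : Bool) (k : ℕ) (hk : k ≤ 4) :
    ∃ t : Torus s, t.rk = k ∧ inc t x y p q r := by
  interval_cases k
  · exact ⟨bot, rfl, trivial⟩
  · exact ⟨vtx x y, rfl, rfl, rfl⟩
  · cases r
    · exact ⟨hor (x - bz s p) y, rfl, by ring, rfl, rfl⟩
    · exact ⟨ver x (y - bz s q), rfl, rfl, by ring, rfl⟩
  · exact ⟨sq (x - bz s p) (y - bz s q), rfl, by ring, by ring⟩
  · exact ⟨top, rfl, trivial⟩

theorem le_iff_inc (t t' : Torus s) : t ≤ t' ↔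
    t.rk ≤ t'.rk ∧ ∃ x y p q r, inc t x y p q r ∧ inc t' x y p q r := by
  have hz : ∀ u : ZMod s, u = u + bz s false := fun u => (add_zero u).symm
  constructor
  · intro h
    change le t t' at h
    cases t with
    | bot =>
      obtain ⟨x, y, p, q, r, h'⟩ := exists_inc t'
      exact ⟨Nat.zero_le _, x, y, p, q, r, trivial, h'⟩
    | vtx u v =>
      cases t' with
      | bot => exact h.elim
      | top => exact ⟨by simp [rk], u, v, false, false, false, ⟨rfl, rfl⟩, trivial⟩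
      | vtx a b =>
        obtain ⟨rfl, rfl⟩ := h
        exact ⟨le_rfl, u, v, false, false, false, ⟨rfl, rfl⟩, rfl, rfl⟩
      | hor a b =>
        obtain ⟨h1, rfl⟩ := h
        obtain ⟨p, hp⟩ := or_iff_bz.1 h1
        exact ⟨by simp [rk], u, v, p, false, false, ⟨rfl, rfl⟩, hp, rfl, rfl⟩
      | ver a b =>
        obtain ⟨rfl, h1⟩ := h
        obtain ⟨q, hq⟩ := or_iff_bz.1 h1
        exact ⟨by simp [rk], u, v, false, q, true, ⟨rfl, rfl⟩, rfl, hq, rfl⟩
      | sq a b =>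
        obtain ⟨h1, h2⟩ := h
        obtain ⟨p, hp⟩ := or_iff_bz.1 h1
        obtain ⟨q, hq⟩ := or_iff_bz.1 h2
        exact ⟨by simp [rk], u, v, p, q, true, ⟨rfl, rfl⟩, hp, hq⟩
    | hor u v =>
      cases t' with
      | bot => exact h.elim
      | top => exact ⟨by simp [rk], u, v, false, false, false, ⟨hz u, rfl, rfl⟩, trivial⟩
      | vtx a b => exact h.elim
      | hor a b =>
        obtain ⟨rfl, rfl⟩ := h
        exact ⟨le_rfl, u, v, false, false, false, ⟨hz u, rfl, rfl⟩, hz u, rfl, rfl⟩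
      | ver a b => exact h.elim
      | sq a b =>
        obtain ⟨rfl, h2⟩ := h
        obtain ⟨q, hq⟩ := or_iff_bz.1 h2
        exact ⟨by simp [rk], u, v, false, q, false, ⟨hz u, rfl, rfl⟩, hz u, hq⟩
    | ver u v =>
      cases t' with
      | bot => exact h.elim
      | top => exact ⟨by simp [rk], u, v, false, false, true, ⟨rfl, hz v, rfl⟩, trivial⟩
      | vtx a b => exact h.elim
      | hor a b => exact h.elim
      | ver a b =>
        obtain ⟨rfl, rfl⟩ := h
        exact ⟨le_rfl, u, v, false, false, true, ⟨rfl, hz v, rfl⟩, rfl, hz v, rfl⟩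
      | sq a b =>
        obtain ⟨h1, rfl⟩ := h
        obtain ⟨p, hp⟩ := or_iff_bz.1 h1
        exact ⟨by simp [rk], u, v, p, false, true, ⟨rfl, hz v, rfl⟩, hp, hz v⟩
    | sq u v =>
      cases t' with
      | bot => exact h.elim
      | top => exact ⟨by simp [rk], u, v, false, false, true, ⟨hz u, hz v⟩, trivial⟩
      | vtx a b => exact h.elim
      | hor a b => exact h.elim
      | ver a b => exact h.elim
      | sq a b =>
        obtain ⟨rfl, rfl⟩ := h
        exact ⟨le_rfl, u, v, false, false, true, ⟨hz u, hz v⟩, hz u, hz v⟩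
    | top =>
      cases t' with
      | top => exact ⟨le_rfl, 0, 0, false, false, true, trivial, trivial⟩
      | _ => exact h.elim
  · rintro ⟨hr, x, y, p, q, r, h1, h2⟩
    change le t t'
    cases t <;> cases t' <;> simp only [le, rk, inc, or_iff_bz] at hr h1 h2 ⊢ <;>
      first | omega | grind

end Torus

/-! ### The section of the coset geometry spanned by three consecutive generators -/

theorem TorusGen.tau_ev {G : Type} [Group G] {s : ℕ} {l0 l1 l2 : G} (h : TorusGen s l0 l1 l2)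
    (u v x y : ZMod s) (p q r : Bool) :
    zp (tX l0 l1 l2) u * zp (tY l0 l1 l2) v * ev l0 l1 l2 x y p q r =
      ev l0 l1 l2 (u + x) (v + y) p q r := by
  have := h.neZero
  rw [ev, ev, zp_add h.Xs, zp_add h.Ys]
  have c : Commute (zp (tX l0 l1 l2) x) (zp (tY l0 l1 l2) v) := h.comm_zp _ _
  calc zp (tX l0 l1 l2) u * zp (tY l0 l1 l2) v *
        (zp (tX l0 l1 l2) x * zp (tY l0 l1 l2) y * dd l1 l2 p q r)
      = zp (tX l0 l1 l2) u * (zp (tY l0 l1 l2) v * zp (tX l0 l1 l2) x) *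
          zp (tY l0 l1 l2) y * dd l1 l2 p q r := by group
    _ = _ := by rw [← c.eq]; group

namespace CF

variable {G : Type} [Group G] {ρ : Fin 4 → G}

theorem le_of_rk [Fact (IsStringC ρ)] {g : G} {A B : CF ρ} (hA : A ∈ chain ρ g)
    (hB : B ∈ chain ρ g) (hAB : rk A ≤ rk B) : A ≤ B := by
  rcases (chain_isChain g).total hA hB with h1 | h1
  · exact h1
  · rcases h1.eq_or_lt with h2 | h2
    · exact h2.ge
    · have := rk_strictMono h2
      omega

theorem eq_of_rk [Fact (IsStringC ρ)] {g : G} {A B : CF ρ} (hA : A ∈ chain ρ g)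
    (hB : B ∈ chain ρ g) (hAB : rk A = rk B) : A = B :=
  le_antisymm (le_of_rk hA hB hAB.le) (le_of_rk hB hA hAB.ge)

theorem exists_chain [Fact (IsStringC ρ)] {a b c d : CF ρ} (h1 : a ≤ b) (h2 : b ≤ c)
    (h3 : c ≤ d) : ∃ g : G, a ∈ chain ρ g ∧ b ∈ chain ρ g ∧ c ∈ chain ρ g ∧ d ∈ chain ρ g := by
  have hC : IsChain (· ≤ ·) ({a, b, c, d} : Set (CF ρ)) := by
    intro x hx y hy _
    rcases hx with rfl | rfl | rfl | rfl <;> rcases hy with rfl | rfl | rfl | rfl <;>
      first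
        | exact Or.inl le_rfl
        | exact Or.inl (by assumption)
        | exact Or.inr (by assumption)
        | exact Or.inl (h1.trans h2)
        | exact Or.inr (h1.trans h2)
        | exact Or.inl (h2.trans h3)
        | exact Or.inr (h2.trans h3)
        | exact Or.inl (h1.trans (h2.trans h3))
        | exact Or.inr (h1.trans (h2.trans h3))
  obtain ⟨g, hg⟩ := exists_of_chain _ hC
  have key : ∀ y ∈ ({a, b, c, d} : Set (CF ρ)), y ∈ chain ρ g := by
    intro y hy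
    cases y with
    | bot => exact bot_mem_chain g
    | top => exact top_mem_chain g
    | mid i c => exact mem_chain_mid.2 (hg i c hy)
  exact ⟨g, key _ (by simp), key _ (by simp), key _ (by simp), key _ (by simp)⟩

/-- a section of rank `3` between faces `lo` and `hi` -/
structure SecData (ρ : Fin 4 → G) (e : Fin 3 → Fin 4) (k : ℕ) (lo hi : CF ρ) : Prop where
  he : ∀ i, (e i : ℕ) = k + i
  rlo : rk lo = k - 1
  rhi : rk hi = k + 3
  mem : ∀ a, (lo ∈ chain ρ a ∧ hi ∈ chain ρ a) ↔ a ∈ par ρ (Set.range e)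

/-- the embedding of the torus -/
def emb {s : ℕ} (ρ : Fin 4 → G) (e : Fin 3 → Fin 4) (lo hi : CF ρ) : Torus s → CF ρ
  | .bot => lo
  | .vtx x y => .mid (e 0) ((zp (tX (ρ (e 0)) (ρ (e 1)) (ρ (e 2))) x *
      zp (tY (ρ (e 0)) (ρ (e 1)) (ρ (e 2))) y : G) : G ⧸ par ρ {e 0}ᶜ)
  | .hor x y => .mid (e 1) ((zp (tX (ρ (e 0)) (ρ (e 1)) (ρ (e 2))) x *
      zp (tY (ρ (e 0)) (ρ (e 1)) (ρ (e 2))) y : G) : G ⧸ par ρ {e 1}ᶜ)
  | .ver x y => .mid (e 1) ((zp (tX (ρ (e 0)) (ρ (e 1)) (ρ (e 2))) x *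
      zp (tY (ρ (e 0)) (ρ (e 1)) (ρ (e 2))) y * ρ (e 1) : G) : G ⧸ par ρ {e 1}ᶜ)
  | .sq x y => .mid (e 2) ((zp (tX (ρ (e 0)) (ρ (e 1)) (ρ (e 2))) x *
      zp (tY (ρ (e 0)) (ρ (e 1)) (ρ (e 2))) y : G) : G ⧸ par ρ {e 2}ᶜ)
  | .top => hi

variable {s : ℕ} {e : Fin 3 → Fin 4} {k : ℕ} {lo hi : CF ρ}

theorem rk_emb (hd : SecData ρ e k lo hi) (t : Torus s) :
    rk (emb ρ e lo hi t) = k - 1 + t.rk := by
  cases t with
  | bot => simp [emb, Torus.rk, hd.rlo]
  | top => simp only [emb, Torus.rk, hd.rhi]; push_cast; ring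
  | vtx x y =>
    have : (e 0 : ℕ) = k + 0 := hd.he 0
    simp only [emb, Torus.rk, rk, this]; push_cast; ring
  | hor x y =>
    have : (e 1 : ℕ) = k + 1 := hd.he 1
    simp only [emb, Torus.rk, rk, this]; push_cast; ring
  | ver x y =>
    have : (e 1 : ℕ) = k + 1 := hd.he 1
    simp only [emb, Torus.rk, rk, this]; push_cast; ring
  | sq x y =>
    have : (e 2 : ℕ) = k + 2 := hd.he 2
    simp only [emb, Torus.rk, rk, this]; push_cast; ring

/-- cosets of the maximal parabolic subgroups inside the subgroup of the section -/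
theorem coset_eq_iff [hρ : Fact (IsStringC ρ)] (i : Fin 3) {a b : G}
    (ha : a ∈ par ρ (Set.range e)) (hb : b ∈ par ρ (Set.range e)) :
    (a : G ⧸ par ρ {e i}ᶜ) = b ↔ b⁻¹ * a ∈ par ρ (Set.range e ∩ {e i}ᶜ) := by
  rw [← hρ.out.inter, Subgroup.mem_inf, eq_comm, QuotientGroup.eq]
  exact ⟨fun h => ⟨Subgroup.mul_mem _ (Subgroup.inv_mem _ hb) ha, h⟩, fun h => h.2⟩

section mem

variable (hinj : Function.Injective e)
include hinj

theorem par0 : par ρ (Set.range e ∩ {e 0}ᶜ) = Subgroup.closure {ρ (e 1), ρ (e 2)} := by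
  have : Set.range e ∩ {e 0}ᶜ = {e 1, e 2} := by
    ext m
    simp only [Set.mem_inter_iff, Set.mem_range, Set.mem_compl_iff, Set.mem_singleton_iff,
      Set.mem_insert_iff]
    constructor
    · rintro ⟨⟨i, rfl⟩, h⟩
      have : i ≠ 0 := fun h' => h (by rw [h'])
      rcases (show i = 1 ∨ i = 2 by omega) with rfl | rfl
      · exact Or.inl rfl
      · exact Or.inr rfl
    · rintro (rfl | rfl)
      · exact ⟨⟨1, rfl⟩, fun h => absurd (hinj h) (by decide)⟩
      · exact ⟨⟨2, rfl⟩, fun h => absurd (hinj h) (by decide)⟩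
  rw [this, par, Set.image_pair]

theorem par1 : par ρ (Set.range e ∩ {e 1}ᶜ) = Subgroup.closure {ρ (e 0), ρ (e 2)} := by
  have : Set.range e ∩ {e 1}ᶜ = {e 0, e 2} := by
    ext m
    simp only [Set.mem_inter_iff, Set.mem_range, Set.mem_compl_iff, Set.mem_singleton_iff,
      Set.mem_insert_iff]
    constructor
    · rintro ⟨⟨i, rfl⟩, h⟩
      have : i ≠ 1 := fun h' => h (by rw [h'])
      rcases (show i = 0 ∨ i = 2 by omega) with rfl | rfl
      · exact Or.inl rfl
      · exact Or.inr rfl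
    · rintro (rfl | rfl)
      · exact ⟨⟨0, rfl⟩, fun h => absurd (hinj h) (by decide)⟩
      · exact ⟨⟨2, rfl⟩, fun h => absurd (hinj h) (by decide)⟩
  rw [this, par, Set.image_pair]

theorem par2 : par ρ (Set.range e ∩ {e 2}ᶜ) = Subgroup.closure {ρ (e 0), ρ (e 1)} := by
  have : Set.range e ∩ {e 2}ᶜ = {e 0, e 1} := by
    ext m
    simp only [Set.mem_inter_iff, Set.mem_range, Set.mem_compl_iff, Set.mem_singleton_iff,
      Set.mem_insert_iff]
    constructor
    · rintro ⟨⟨i, rfl⟩, h⟩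
      have : i ≠ 2 := fun h' => h (by rw [h'])
      rcases (show i = 0 ∨ i = 1 by omega) with rfl | rfl
      · exact Or.inl rfl
      · exact Or.inr rfl
    · rintro (rfl | rfl)
      · exact ⟨⟨0, rfl⟩, fun h => absurd (hinj h) (by decide)⟩
      · exact ⟨⟨1, rfl⟩, fun h => absurd (hinj h) (by decide)⟩
  rw [this, par, Set.image_pair]

end mem

theorem par_range : par ρ (Set.range e) = Subgroup.closure {ρ (e 0), ρ (e 1), ρ (e 2)} := by
  have : Set.range e = {e 0, e 1, e 2} := by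
    ext m
    simp only [Set.mem_range, Set.mem_singleton_iff, Set.mem_insert_iff]
    constructor
    · rintro ⟨i, rfl⟩
      rcases (show i = 0 ∨ i = 1 ∨ i = 2 by omega) with rfl | rfl | rfl
      · exact Or.inl rfl
      · exact Or.inr (Or.inl rfl)
      · exact Or.inr (Or.inr rfl)
    · rintro (rfl | rfl | rfl)
      · exact ⟨0, rfl⟩
      · exact ⟨1, rfl⟩
      · exact ⟨2, rfl⟩
  rw [this, par, Set.image_insert_eq, Set.image_pair]

theorem ev_mem (x y : ZMod s) (p q r : Bool) :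
    ev (ρ (e 0)) (ρ (e 1)) (ρ (e 2)) x y p q r ∈ par ρ (Set.range e) := by
  have m0 : ρ (e 0) ∈ par ρ (Set.range e) := mem_par ρ ⟨0, rfl⟩
  have m1 : ρ (e 1) ∈ par ρ (Set.range e) := mem_par ρ ⟨1, rfl⟩
  have m2 : ρ (e 2) ∈ par ρ (Set.range e) := mem_par ρ ⟨2, rfl⟩
  have mX : tX (ρ (e 0)) (ρ (e 1)) (ρ (e 2)) ∈ par ρ (Set.range e) :=
    Subgroup.mul_mem _ m0 (Subgroup.mul_mem _ (Subgroup.mul_mem _ m1 m2) m1)
  have mY : tY (ρ (e 0)) (ρ (e 1)) (ρ (e 2)) ∈ par ρ (Set.range e) :=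
    Subgroup.mul_mem _ (Subgroup.mul_mem _ m1 mX) m1
  refine Subgroup.mul_mem _ (Subgroup.mul_mem _ (Subgroup.pow_mem _ mX _)
    (Subgroup.pow_mem _ mY _)) (Subgroup.mul_mem _ (Subgroup.mul_mem _ ?_ ?_) ?_)
  · split
    · exact Subgroup.mul_mem _ (Subgroup.mul_mem _ m1 m2) m1
    · exact Subgroup.one_mem _
  · split
    · exact m2
    · exact Subgroup.one_mem _
  · split
    · exact m1
    · exact Subgroup.one_mem _

theorem emb_mem_chain [hρ : Fact (IsStringC ρ)] (hd : SecData ρ e k lo hi)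
    (hg : TorusGen s (ρ (e 0)) (ρ (e 1)) (ρ (e 2))) (t : Torus s) (x y : ZMod s)
    (p q r : Bool) :
    emb ρ e lo hi t ∈ chain ρ (ev (ρ (e 0)) (ρ (e 1)) (ρ (e 2)) x y p q r) ↔
      t.inc x y p q r := by
  have hinj : Function.Injective e := by
    intro i j hij
    have h1 := hd.he i
    have h2 := hd.he j
    rw [hij] at h1
    exact Fin.ext (by omega)
  have hev := ev_mem (ρ := ρ) (e := e) x y p q r
  have hz : ∀ u v : ZMod s, zp (tX (ρ (e 0)) (ρ (e 1)) (ρ (e 2))) u *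
      zp (tY (ρ (e 0)) (ρ (e 1)) (ρ (e 2))) v ∈ par ρ (Set.range e) := by
    intro u v
    have := ev_mem (ρ := ρ) (e := e) u v false false false
    simpa [ev, dd] using this
  cases t with
  | bot => exact iff_of_true ((hd.mem _).2 hev).1 trivial
  | top => exact iff_of_true ((hd.mem _).2 hev).2 trivial
  | vtx u v =>
    rw [emb, mem_chain_mid, coset_eq_iff 0 hev (hz u v), par0 hinj, hg.mem_H0]
    simp only [inv_mul_eq_iff_eq_mul, hg.tau_ev, Torus.inc, add_zero]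
    constructor
    · rintro ⟨p', q', r', h⟩
      obtain ⟨h1, h2, -⟩ := hg.ev_inj h
      exact ⟨h1, h2⟩
    · rintro ⟨rfl, rfl⟩
      exact ⟨p, q, r, rfl⟩
  | hor u v =>
    rw [emb, mem_chain_mid, coset_eq_iff 1 hev (hz u v), par1 hinj, hg.mem_H1]
    simp only [inv_mul_eq_iff_eq_mul, hg.tau_ev, Torus.inc, add_zero]
    constructor
    · rintro ⟨p', q', h⟩
      obtain ⟨h1, h2, rfl, rfl, h3⟩ := hg.ev_inj h
      exact ⟨h1, h2, h3⟩
    · rintro ⟨rfl, rfl, rfl⟩
      exact ⟨p, q, rfl⟩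
  | ver u v =>
    have hz' := Subgroup.mul_mem _ (hz u v) (mem_par ρ ⟨1, rfl⟩ : ρ (e 1) ∈ par ρ (Set.range e))
    rw [emb, mem_chain_mid, coset_eq_iff 1 hev hz', par1 hinj, hg.mem_H1]
    have hL : ∀ p q, zp (tX (ρ (e 0)) (ρ (e 1)) (ρ (e 2))) u *
        zp (tY (ρ (e 0)) (ρ (e 1)) (ρ (e 2))) v * ρ (e 1) *
        ev (ρ (e 0)) (ρ (e 1)) (ρ (e 2)) (bz s p) 0 p q false =
        ev (ρ (e 0)) (ρ (e 1)) (ρ (e 2)) u (v + bz s p) q p true := by
      intro p q
      rw [mul_assoc, hg.L1, hg.tau_ev, add_zero, Bool.not_false]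
    simp only [inv_mul_eq_iff_eq_mul, hL, Torus.inc]
    constructor
    · rintro ⟨p', q', h⟩
      obtain ⟨h1, h2, rfl, rfl, h3⟩ := hg.ev_inj h
      exact ⟨h1, h2, h3⟩
    · rintro ⟨rfl, rfl, rfl⟩
      exact ⟨q, p, rfl⟩
  | sq u v =>
    rw [emb, mem_chain_mid, coset_eq_iff 2 hev (hz u v), par2 hinj, hg.mem_H2]
    simp only [inv_mul_eq_iff_eq_mul, hg.tau_ev, Torus.inc]
    constructor
    · rintro ⟨p', q', r', h⟩
      obtain ⟨h1, h2, rfl, rfl, -⟩ := hg.ev_inj h
      exact ⟨h1, h2⟩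
    · rintro ⟨rfl, rfl⟩
      exact ⟨p, q, r, rfl⟩

theorem emb_mem_Icc [hρ : Fact (IsStringC ρ)] (hd : SecData ρ e k lo hi)
    (hg : TorusGen s (ρ (e 0)) (ρ (e 1)) (ρ (e 2))) (t : Torus s) :
    lo ≤ emb ρ e lo hi t ∧ emb ρ e lo hi t ≤ hi := by
  obtain ⟨x, y, p, q, r, h⟩ := t.exists_inc
  have h1 := (emb_mem_chain hd hg t x y p q r).2 h
  obtain ⟨h2, h3⟩ := (hd.mem _).2 (ev_mem (ρ := ρ) (e := e) x y p q r)
  have h4 := rk_emb (s := s) hd t
  have h5 : (t.rk : ℤ) ≤ 4 := by cases t <;> simp [Torus.rk]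
  have h6 := hd.rlo
  have h7 := hd.rhi
  exact ⟨le_of_rk h2 h1 (by omega), le_of_rk h1 h3 (by omega)⟩

theorem emb_le_iff [hρ : Fact (IsStringC ρ)] (hd : SecData ρ e k lo hi)
    (hg : TorusGen s (ρ (e 0)) (ρ (e 1)) (ρ (e 2))) (t t' : Torus s) :
    emb ρ e lo hi t ≤ emb ρ e lo hi t' ↔ t ≤ t' := by
  rw [Torus.le_iff_inc]
  have r1 := rk_emb (s := s) hd t
  have r2 := rk_emb (s := s) hd t'
  constructor
  · intro h
    obtain ⟨a, ha1, ha2, ha3, ha4⟩ := exists_chain (emb_mem_Icc hd hg t).1 h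
      (emb_mem_Icc hd hg t').2
    have haL := (hd.mem a).1 ⟨ha1, ha4⟩
    rw [par_range] at haL
    obtain ⟨x, y, p, q, r, rfl⟩ := hg.mem_L haL
    refine ⟨?_, x, y, p, q, r, (emb_mem_chain hd hg t x y p q r).1 ha2,
      (emb_mem_chain hd hg t' x y p q r).1 ha3⟩
    have := rk_strictMono.monotone h
    omega
  · rintro ⟨h, x, y, p, q, r, h1, h2⟩
    exact le_of_rk ((emb_mem_chain hd hg t x y p q r).2 h1)
      ((emb_mem_chain hd hg t' x y p q r).2 h2) (by omega)

theorem exists_emb [hρ : Fact (IsStringC ρ)] (hd : SecData ρ e k lo hi)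
    (hg : TorusGen s (ρ (e 0)) (ρ (e 1)) (ρ (e 2))) (y : CF ρ) (h1 : lo ≤ y) (h2 : y ≤ hi) :
    ∃ t : Torus s, emb ρ e lo hi t = y := by
  obtain ⟨a, ha1, ha2, -, ha4⟩ := exists_chain h1 h2 le_rfl
  have haL := (hd.mem a).1 ⟨ha1, ha4⟩
  rw [par_range] at haL
  obtain ⟨u, v, p, q, r, rfl⟩ := hg.mem_L haL
  have r1 := rk_strictMono.monotone h1
  have r2 := rk_strictMono.monotone h2
  have h6 := hd.rlo
  have h7 := hd.rhi
  obtain ⟨j, hj⟩ : ∃ j : ℕ, rk y = k - 1 + j := ⟨(rk y - (k - 1)).toNat, by omega⟩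
  obtain ⟨t, ht, hi'⟩ := Torus.exists_of_rk u v p q r j (by omega)
  refine ⟨t, eq_of_rk ((emb_mem_chain hd hg t u v p q r).2 hi') ha2 ?_⟩
  rw [rk_emb hd, ht, hj]

theorem torus_iso [hρ : Fact (IsStringC ρ)] (hd : SecData ρ e k lo hi)
    (hg : TorusGen s (ρ (e 0)) (ρ (e 1)) (ρ (e 2))) :
    Nonempty (Torus s ≃o Set.Icc lo hi) := by
  let f : Torus s ↪o CF ρ := OrderEmbedding.ofMapLEIff (emb ρ e lo hi)
    (fun t t' => emb_le_iff hd hg t t')
  have hf : Set.range f = Set.Icc lo hi := by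
    ext y
    constructor
    · rintro ⟨t, rfl⟩
      exact emb_mem_Icc hd hg t
    · rintro ⟨h1, h2⟩
      exact exists_emb hd hg y h1 h2
  exact ⟨f.orderIso.trans (OrderIso.setCongr _ _ hf)⟩

/-- automorphisms carry sections to sections -/
theorem iso_Icc {P : Type} [PartialOrder P] (φ : P ≃o P) (a b : P) :
    Nonempty (Set.Icc a b ≃o Set.Icc (φ a) (φ b)) :=
  ⟨{ toFun := fun y => ⟨φ y, φ.monotone y.2.1, φ.monotone y.2.2⟩
     invFun := fun y => ⟨φ.symm y, by
       have := φ.symm.monotone y.2.1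
       rwa [φ.symm_apply_apply] at this, by
       have := φ.symm.monotone y.2.2
       rwa [φ.symm_apply_apply] at this⟩
     left_inv := fun y => Subtype.ext (φ.symm_apply_apply _)
     right_inv := fun y => Subtype.ext (φ.apply_symm_apply _)
     map_rel_iff' := fun {x y} => φ.le_iff_le }⟩

/-- the facets of the polytope of a string C-group -/
theorem facet_iso [hρ : Fact (IsStringC ρ)] (hg : TorusGen s (ρ 0) (ρ 1) (ρ 2)) (F : CF ρ)
    (hF : rk F = 3) : Nonempty (Torus s ≃o Set.Iic F) := by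
  have hd : SecData ρ Fin.castSucc 0 bot (mid 3 ((1 : G) : G ⧸ par ρ {3}ᶜ)) := by
    refine ⟨fun i => by simp, rfl, rfl, fun a => ?_⟩
    have : Set.range (Fin.castSucc : Fin 3 → Fin 4) = {3}ᶜ := by
      ext m
      simp only [Set.mem_range, Set.mem_compl_iff, Set.mem_singleton_iff]
      revert m
      decide
    rw [this, mem_chain_mid, eq_comm, QuotientGroup.eq, inv_one, one_mul]
    exact ⟨fun h => h.2, fun h => ⟨bot_mem_chain a, h⟩⟩
  obtain ⟨f⟩ := torus_iso (s := s) hd hg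
  cases F with
  | bot => exact absurd hF (by simp [rk])
  | top => exact absurd hF (by simp [rk])
  | mid i c =>
    have hi : i = 3 := by
      have : (i : ℤ) = 3 := hF
      exact Fin.ext (by simp; omega)
    subst hi
    obtain ⟨g, rfl⟩ := QuotientGroup.mk_surjective c
    obtain ⟨f'⟩ := iso_Icc (trIso g : CF ρ ≃o CF ρ) bot (mid 3 ((1 : G) : G ⧸ par ρ {3}ᶜ))
    have e1 : Set.Icc ((trIso g : CF ρ ≃o CF ρ) bot)
        ((trIso g : CF ρ ≃o CF ρ) (mid 3 ((1 : G) : G ⧸ par ρ {3}ᶜ))) =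
        Set.Iic (mid 3 (g : G ⧸ par ρ {3}ᶜ)) := by
      have e2 : (trIso g : CF ρ ≃o CF ρ) bot = bot := rfl
      have e3 : (trIso g : CF ρ ≃o CF ρ) (mid 3 ((1 : G) : G ⧸ par ρ {3}ᶜ)) =
          mid 3 (g : G ⧸ par ρ {3}ᶜ) := by
        rw [trIso_apply, tr]
        congr 1
        exact congrArg _ (mul_one g)
      rw [e2, e3]
      ext y
      exact ⟨fun h => h.2, fun h => ⟨bot_le' y, h⟩⟩
    exact ⟨(f.trans f').trans (OrderIso.setCongr _ _ e1)⟩

/-- the vertex-figures of the polytope of a string C-group -/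
theorem vertex_iso [hρ : Fact (IsStringC ρ)] (hg : TorusGen s (ρ 1) (ρ 2) (ρ 3)) (F : CF ρ)
    (hF : rk F = 0) : Nonempty (Torus s ≃o Set.Ici F) := by
  have hd : SecData ρ Fin.succ 1 (mid 0 ((1 : G) : G ⧸ par ρ {0}ᶜ)) top := by
    refine ⟨fun i => by simp; omega, rfl, rfl, fun a => ?_⟩
    have : Set.range (Fin.succ : Fin 3 → Fin 4) = {0}ᶜ := by
      ext m
      simp only [Set.mem_range, Set.mem_compl_iff, Set.mem_singleton_iff]
      revert m
      decide
    rw [this, mem_chain_mid, eq_comm, QuotientGroup.eq, inv_one, one_mul]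
    exact ⟨fun h => h.1, fun h => ⟨h, top_mem_chain a⟩⟩
  obtain ⟨f⟩ := torus_iso (s := s) hd hg
  cases F with
  | bot => exact absurd hF (by simp [rk])
  | top => exact absurd hF (by simp [rk])
  | mid i c =>
    have hi : i = 0 := by
      have : (i : ℤ) = 0 := hF
      exact Fin.ext (by simp; omega)
    subst hi
    obtain ⟨g, rfl⟩ := QuotientGroup.mk_surjective c
    obtain ⟨f'⟩ := iso_Icc (trIso g : CF ρ ≃o CF ρ) (mid 0 ((1 : G) : G ⧸ par ρ {0}ᶜ)) top
    have e1 : Set.Icc ((trIso g : CF ρ ≃o CF ρ) (mid 0 ((1 : G) : G ⧸ par ρ {0}ᶜ)))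
        ((trIso g : CF ρ ≃o CF ρ) top) =
        Set.Ici (mid 0 (g : G ⧸ par ρ {0}ᶜ)) := by
      have e2 : (trIso g : CF ρ ≃o CF ρ) top = top := rfl
      have e3 : (trIso g : CF ρ ≃o CF ρ) (mid 0 ((1 : G) : G ⧸ par ρ {0}ᶜ)) =
          mid 0 (g : G ⧸ par ρ {0}ᶜ) := by
        rw [trIso_apply, tr]
        congr 1
        exact congrArg _ (mul_one g)
      rw [e2, e3]
      ext y
      exact ⟨fun h => h.1, fun h => ⟨h, le_top' y⟩⟩
    exact ⟨(f.trans f').trans (OrderIso.setCongr _ _ e1)⟩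

end CF

end Pool.Agent.Helper622
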