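import Pool.Agent.Helper622.Defs

namespace Pool.Agent.Helper622

/-! ### Groups generated by three involutions with the relations of `{4,4}_(s,0)` -/

section grp

variable {G : Type} [Group G]

/-- power with exponent in `ZMod s` -/
def zp {s : ℕ} (g : G) (x : ZMod s) : G := g ^ x.val

theorem zp_add {s : ℕ} [NeZero s] {g : G} (hg : g ^ s = 1) (x y : ZMod s) :
    zp g (x + y) = zp g x * zp g y := by
  rw [zp, zp, zp, ← pow_add, ZMod.val_add, ← pow_eq_pow_mod _ hg]

theorem zp_zero {s : ℕ} (g : G) : zp g (0 : ZMod s) = 1 := by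
  cases s <;> simp [zp]

theorem zp_neg {s : ℕ} [NeZero s] {g : G} (hg : g ^ s = 1) (x : ZMod s) :
    zp g (-x) = (zp g x)⁻¹ := by
  rw [eq_inv_iff_mul_eq_one, ← zp_add hg, neg_add_cancel, zp_zero]

theorem zp_one {s : ℕ} (hs : 1 < s) (g : G) : zp g (1 : ZMod s) = g := by
  rw [zp, ZMod.val_one'' (by omega), pow_one]

/-- `l0, l1, l2` satisfy the relations of the group `[4,4]_(s,0)` and the translation
`l0 l1 l2 l1` has order exactly `s`, where `s > 1` is odd. -/
structure TorusGen (s : ℕ) (l0 l1 l2 : G) : Prop where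
  i0 : l0 * l0 = 1
  i1 : l1 * l1 = 1
  i2 : l2 * l2 = 1
  c02 : l0 * l2 = l2 * l0
  h01 : (l0 * l1) ^ 4 = 1
  h12 : (l1 * l2) ^ 4 = 1
  ord : orderOf (l0 * (l1 * l2 * l1)) = s
  odd : Odd s
  one_lt : 1 < s

namespace TorusGen

variable {s : ℕ} {l0 l1 l2 : G} (h : TorusGen s l0 l1 l2)
include h

theorem neZero : NeZero s := ⟨by have := h.one_lt; omega⟩

theorem inv0 : l0⁻¹ = l0 := inv_eq_of_mul_eq_one_right h.i0
theorem inv1 : l1⁻¹ = l1 := inv_eq_of_mul_eq_one_right h.i1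
theorem inv2 : l2⁻¹ = l2 := inv_eq_of_mul_eq_one_right h.i2

/-- conjugation by `l1` squares to the identity -/
theorem conj_conj (g : G) : l1 * (l1 * g * l1) * l1 = g := by
  calc l1 * (l1 * g * l1) * l1 = (l1 * l1) * g * (l1 * l1) := by group
    _ = g := by rw [h.i1, one_mul, mul_one]

theorem mu_mu : (l1 * l2 * l1) * (l1 * l2 * l1) = 1 := by
  calc (l1 * l2 * l1) * (l1 * l2 * l1) = l1 * l2 * (l1 * l1) * l2 * l1 := by group
    _ = l1 * (l2 * l2) * l1 := by rw [h.i1]; group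
    _ = 1 := by rw [h.i2, mul_one, h.i1]

theorem nu_nu : (l1 * l0 * l1) * (l1 * l0 * l1) = 1 := by
  calc (l1 * l0 * l1) * (l1 * l0 * l1) = l1 * l0 * (l1 * l1) * l0 * l1 := by group
    _ = l1 * (l0 * l0) * l1 := by rw [h.i1]; group
    _ = 1 := by rw [h.i0, mul_one, h.i1]

theorem c_mu_2 : (l1 * l2 * l1) * l2 = l2 * (l1 * l2 * l1) := by
  have h1 : (l1 * l2) * (l1 * l2) * ((l1 * l2) * (l1 * l2)) = 1 := by
    have := h.h12
    rw [show (4 : ℕ) = 2 + 2 from rfl, pow_add, pow_two] at this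
    exact this
  have h2 : (l1 * l2) * (l1 * l2) = ((l1 * l2) * (l1 * l2))⁻¹ := eq_inv_of_mul_eq_one_left h1
  calc (l1 * l2 * l1) * l2 = (l1 * l2) * (l1 * l2) := by group
    _ = ((l1 * l2) * (l1 * l2))⁻¹ := h2
    _ = l2⁻¹ * (l1⁻¹ * l2⁻¹ * l1⁻¹) := by group
    _ = l2 * (l1 * l2 * l1) := by rw [h.inv1, h.inv2]

theorem c_0_nu : l0 * (l1 * l0 * l1) = (l1 * l0 * l1) * l0 := by
  have h1 : (l0 * l1) * (l0 * l1) * ((l0 * l1) * (l0 * l1)) = 1 := by
    have := h.h01
    rw [show (4 : ℕ) = 2 + 2 from rfl, pow_add, pow_two] at this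
    exact this
  have h2 : (l0 * l1) * (l0 * l1) = ((l0 * l1) * (l0 * l1))⁻¹ := eq_inv_of_mul_eq_one_left h1
  calc l0 * (l1 * l0 * l1) = (l0 * l1) * (l0 * l1) := by group
    _ = ((l0 * l1) * (l0 * l1))⁻¹ := h2
    _ = (l1⁻¹ * l0⁻¹ * l1⁻¹) * l0⁻¹ := by group
    _ = (l1 * l0 * l1) * l0 := by rw [h.inv1, h.inv0]

theorem c_mu_nu : (l1 * l2 * l1) * (l1 * l0 * l1) = (l1 * l0 * l1) * (l1 * l2 * l1) := by
  calc (l1 * l2 * l1) * (l1 * l0 * l1) = l1 * l2 * (l1 * l1) * l0 * l1 := by group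
    _ = l1 * (l0 * l2) * l1 := by rw [h.i1, h.c02]; group
    _ = l1 * l0 * (l1 * l1) * l2 * l1 := by rw [h.i1]; group
    _ = (l1 * l0 * l1) * (l1 * l2 * l1) := by group

end TorusGen

/-- the translation in the first direction -/
def tX (l0 l1 l2 : G) : G := l0 * (l1 * l2 * l1)

/-- the translation in the second direction -/
def tY (l0 l1 l2 : G) : G := l1 * tX l0 l1 l2 * l1

/-- elements of `⟨l1, l2⟩` -/
def dd (l1 l2 : G) (p q r : Bool) : G :=
  (if p then l1 * l2 * l1 else 1) * (if q then l2 else 1) * (if r then l1 else 1)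

/-- normal form of the elements of `⟨l0, l1, l2⟩` -/
def ev {s : ℕ} (l0 l1 l2 : G) (x y : ZMod s) (p q r : Bool) : G :=
  zp (tX l0 l1 l2) x * zp (tY l0 l1 l2) y * dd l1 l2 p q r

namespace TorusGen

variable {s : ℕ} {l0 l1 l2 : G} (h : TorusGen s l0 l1 l2)
include h

theorem Y_eq : tY l0 l1 l2 = (l1 * l0 * l1) * l2 := by
  calc tY l0 l1 l2 = l1 * l0 * l1 * l2 * (l1 * l1) := by rw [tY, tX]; group
    _ = (l1 * l0 * l1) * l2 := by rw [h.i1, mul_one]

theorem commXY : Commute (tX l0 l1 l2) (tY l0 l1 l2) := by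
  rw [h.Y_eq, tX]
  apply Commute.mul_right
  · apply Commute.mul_left
    · exact h.c_0_nu
    · exact h.c_mu_nu
  · apply Commute.mul_left
    · exact h.c02
    · exact h.c_mu_2

theorem Xs : tX l0 l1 l2 ^ s = 1 := by
  conv_lhs => rw [← h.ord]
  exact pow_orderOf_eq_one _

omit h in
theorem conjX : l1 * tX l0 l1 l2 * l1 = tY l0 l1 l2 := rfl

theorem conjY : l1 * tY l0 l1 l2 * l1 = tX l0 l1 l2 := h.conj_conj _

theorem conj_pow' (g : G) (n : ℕ) : l1 * g ^ n * l1 = (l1 * g * l1) ^ n := by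
  have : l1 * g * l1 = l1 * g * l1⁻¹ := by rw [h.inv1]
  rw [this, conj_pow, h.inv1]

theorem Ys : tY l0 l1 l2 ^ s = 1 := by
  rw [← conjX, ← h.conj_pow', h.Xs, mul_one, h.i1]

theorem one_zpX (x : ZMod s) : l1 * zp (tX l0 l1 l2) x = zp (tY l0 l1 l2) x * l1 := by
  have h1 : l1 * zp (tX l0 l1 l2) x * l1 = zp (tY l0 l1 l2) x := h.conj_pow' _ _
  rw [← h1, mul_assoc, h.i1, mul_one]

theorem one_zpY (x : ZMod s) : l1 * zp (tY l0 l1 l2) x = zp (tX l0 l1 l2) x * l1 := by
  have h1 : l1 * zp (tY l0 l1 l2) x * l1 = zp (tX l0 l1 l2) x := by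
    have := h.conj_pow' (tY l0 l1 l2) x.val
    rw [h.conjY] at this
    exact this
  rw [← h1, mul_assoc, h.i1, mul_one]

theorem comm_zp (x y : ZMod s) : zp (tX l0 l1 l2) x * zp (tY l0 l1 l2) y =
    zp (tY l0 l1 l2) y * zp (tX l0 l1 l2) x := (h.commXY.pow_pow _ _).eq

theorem two_zpX (x : ZMod s) : l2 * zp (tX l0 l1 l2) x = zp (tX l0 l1 l2) x * l2 := by
  have h1 : Commute l2 (tX l0 l1 l2) := by
    rw [tX]
    exact (show Commute l2 l0 from h.c02.symm).mul_right (show Commute l2 _ from h.c_mu_2.symm)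
  exact (h1.pow_right _).eq

theorem mu_zpY (x : ZMod s) : (l1 * l2 * l1) * zp (tY l0 l1 l2) x =
    zp (tY l0 l1 l2) x * (l1 * l2 * l1) := by
  have h1 : Commute (l1 * l2 * l1) (tY l0 l1 l2) := by
    rw [h.Y_eq]
    exact (show Commute _ _ from h.c_mu_nu).mul_right (show Commute _ _ from h.c_mu_2)
  exact (h1.pow_right _).eq

/-- an involution inverting `g` -/
theorem inv_zp {a g : G} (haa : a * a = 1) (hag : a * g * a = g⁻¹) (hg : g ^ s = 1)
    (x : ZMod s) : a * zp g x = zp g (-x) * a := by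
  have := h.neZero
  rw [zp_neg hg]
  have ha : a⁻¹ = a := inv_eq_of_mul_eq_one_right haa
  have h1 : a * zp g x * a = (zp g x)⁻¹ := by
    rw [zp, ← inv_pow, ← hag]
    have : a * g * a = a * g * a⁻¹ := by rw [ha]
    rw [this, conj_pow, ha]
  rw [← h1, mul_assoc, haa, mul_one]

theorem two_zpY (x : ZMod s) : l2 * zp (tY l0 l1 l2) x = zp (tY l0 l1 l2) (-x) * l2 := by
  refine h.inv_zp h.i2 ?_ h.Ys x
  rw [h.Y_eq, mul_inv_rev, h.inv2, mul_assoc, mul_assoc, h.i2, mul_one]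
  congr 1
  exact eq_inv_of_mul_eq_one_left h.nu_nu

theorem mu_zpX (x : ZMod s) : (l1 * l2 * l1) * zp (tX l0 l1 l2) x =
    zp (tX l0 l1 l2) (-x) * (l1 * l2 * l1) := by
  refine h.inv_zp h.mu_mu ?_ h.Xs x
  have e : (l1 * l2 * l1)⁻¹ = l1 * l2 * l1 := inv_eq_of_mul_eq_one_right h.mu_mu
  calc (l1 * l2 * l1) * tX l0 l1 l2 * (l1 * l2 * l1)
      = (l1 * l2 * l1) * l0 * ((l1 * l2 * l1) * (l1 * l2 * l1)) := by rw [tX]; group
    _ = (l1 * l2 * l1) * l0 := by rw [h.mu_mu, mul_one]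
    _ = (tX l0 l1 l2)⁻¹ := by rw [tX, mul_inv_rev, h.inv0, e]

theorem r1 (g : G) : l1 * (l1 * g) = g := by rw [← mul_assoc, h.i1, one_mul]
theorem r2 (g : G) : l2 * (l2 * g) = g := by rw [← mul_assoc, h.i2, one_mul]
theorem b : l2 * (l1 * (l2 * l1)) = l1 * (l2 * (l1 * l2)) := by
  have := h.c_mu_2
  simp only [mul_assoc] at this
  exact this.symm
theorem b' (g : G) : l2 * (l1 * (l2 * (l1 * g))) = l1 * (l2 * (l1 * (l2 * g))) := by
  calc l2 * (l1 * (l2 * (l1 * g))) = (l2 * (l1 * (l2 * l1))) * g := by group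
    _ = (l1 * (l2 * (l1 * l2))) * g := by rw [h.b]
    _ = _ := by group

theorem L1 (x y : ZMod s) (p q r : Bool) :
    l1 * ev l0 l1 l2 x y p q r = ev l0 l1 l2 y x q p (!r) := by
  have hd : l1 * dd l1 l2 p q r = dd l1 l2 q p (!r) := by
    cases p <;> cases q <;> cases r <;>
      simp [dd, mul_assoc, h.i1, h.i2, h.r1, h.r2, h.b, h.b']
  rw [ev, ev, ← hd]
  calc l1 * (zp (tX l0 l1 l2) x * zp (tY l0 l1 l2) y * dd l1 l2 p q r)
      = (l1 * zp (tX l0 l1 l2) x) * zp (tY l0 l1 l2) y * dd l1 l2 p q r := by group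
    _ = zp (tY l0 l1 l2) x * (l1 * zp (tY l0 l1 l2) y) * dd l1 l2 p q r := by
        rw [h.one_zpX]; group
    _ = (zp (tY l0 l1 l2) x * zp (tX l0 l1 l2) y) * (l1 * dd l1 l2 p q r) := by
        rw [h.one_zpY]; group
    _ = _ := by rw [← h.comm_zp]

theorem L2 (x y : ZMod s) (p q r : Bool) :
    l2 * ev l0 l1 l2 x y p q r = ev l0 l1 l2 x (-y) p (!q) r := by
  have hd : l2 * dd l1 l2 p q r = dd l1 l2 p (!q) r := by
    cases p <;> cases q <;> cases r <;>
      simp [dd, mul_assoc, h.i1, h.i2, h.r1, h.r2, h.b, h.b']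
  rw [ev, ev, ← hd]
  calc l2 * (zp (tX l0 l1 l2) x * zp (tY l0 l1 l2) y * dd l1 l2 p q r)
      = (l2 * zp (tX l0 l1 l2) x) * zp (tY l0 l1 l2) y * dd l1 l2 p q r := by group
    _ = zp (tX l0 l1 l2) x * (l2 * zp (tY l0 l1 l2) y) * dd l1 l2 p q r := by
        rw [h.two_zpX]; group
    _ = _ := by rw [h.two_zpY]; group

theorem Lmu (x y : ZMod s) (p q r : Bool) :
    (l1 * l2 * l1) * ev l0 l1 l2 x y p q r = ev l0 l1 l2 (-x) y (!p) q r := by
  have hd : (l1 * l2 * l1) * dd l1 l2 p q r = dd l1 l2 (!p) q r := by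
    cases p <;> cases q <;> cases r <;>
      simp [dd, mul_assoc, h.i1, h.i2, h.r1, h.r2, h.b, h.b']
  rw [ev, ev, ← hd]
  calc (l1 * l2 * l1) * (zp (tX l0 l1 l2) x * zp (tY l0 l1 l2) y * dd l1 l2 p q r)
      = ((l1 * l2 * l1) * zp (tX l0 l1 l2) x) * zp (tY l0 l1 l2) y * dd l1 l2 p q r := by group
    _ = zp (tX l0 l1 l2) (-x) * ((l1 * l2 * l1) * zp (tY l0 l1 l2) y) * dd l1 l2 p q r := by
        rw [h.mu_zpX]; group
    _ = _ := by rw [h.mu_zpY]; group

theorem LX (x y : ZMod s) (p q r : Bool) :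
    tX l0 l1 l2 * ev l0 l1 l2 x y p q r = ev l0 l1 l2 (1 + x) y p q r := by
  have := h.neZero
  rw [ev, ev, zp_add h.Xs, zp_one h.one_lt]
  group

theorem L0 (x y : ZMod s) (p q r : Bool) :
    l0 * ev l0 l1 l2 x y p q r = ev l0 l1 l2 (1 - x) y (!p) q r := by
  have e : l0 = tX l0 l1 l2 * (l1 * l2 * l1) := by
    rw [tX, mul_assoc, h.mu_mu, mul_one]
  have e' : l0 * ev l0 l1 l2 x y p q r =
      tX l0 l1 l2 * ((l1 * l2 * l1) * ev l0 l1 l2 x y p q r) := by
    rw [← mul_assoc, ← e]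
  rw [e', h.Lmu, h.LX, sub_eq_add_neg]

theorem ev_zero : ev l0 l1 l2 (0 : ZMod s) 0 false false false = 1 := by
  simp [ev, dd, zp_zero]

theorem ne_mu : l1 * l2 * l1 ≠ l2 := by
  intro he
  have h1 : (l0 * (l1 * l2 * l1)) ^ 2 = 1 := by
    rw [he, pow_two]
    calc l0 * l2 * (l0 * l2) = l0 * (l2 * l0) * l2 := by group
      _ = (l0 * l0) * (l2 * l2) := by rw [← h.c02]; group
      _ = 1 := by rw [h.i0, h.i2, one_mul]
  have h2 := orderOf_dvd_of_pow_eq_one h1
  rw [h.ord] at h2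
  have h3 := Nat.le_of_dvd (by norm_num) h2
  obtain ⟨m, hm⟩ := h.odd
  have := h.one_lt
  omega

theorem dd_eq_one (p q r : Bool) (he : dd l1 l2 p q r = 1) : p = false ∧ q = false ∧ r = false := by
  have hne := h.ne_mu
  have hl : l1 ≠ l2 := by
    intro e
    apply hne
    rw [← e, h.i1, one_mul]
  have h1 : l1 ≠ 1 := by
    intro e
    apply hne
    rw [e, one_mul, mul_one]
  have h2 : l2 ≠ 1 := by
    intro e
    apply hne
    rw [e, mul_one, h.i1]
  cases p <;> cases q <;> cases r <;> simp only [dd, if_true, if_false, one_mul, mul_one,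
    and_self, Bool.false_eq_true, reduceCtorEq, and_true, and_false, true_and] at he ⊢
  · exact h1 he
  · exact h2 he
  · exact hl (by rw [← h.inv2]; exact eq_inv_of_mul_eq_one_right he)
  · apply h2
    have : l1 * (l1 * l2 * l1) * l1 = l2 := h.conj_conj l2
    rw [he, mul_one, h.i1] at this
    exact this.symm
  · apply hl
    have e : l1 * l2 = 1 := by
      have : l1 * l2 * l1 * l1 = l1 * l2 := by rw [mul_assoc, h.i1, mul_one]
      rw [← this, he]
    rw [← h.inv2]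
    exact eq_inv_of_mul_eq_one_left e
  · apply hne
    rw [← h.inv2]
    simpa [h.inv2] using eq_inv_of_mul_eq_one_left he
  · apply h1
    have e : l1 * l2 * l1 * l2 * l1 = l2 * l1 * l2 := by
      calc l1 * l2 * l1 * l2 * l1 = (l1 * (l2 * (l1 * l2))) * l1 := by group
        _ = (l2 * (l1 * (l2 * l1))) * l1 := by rw [h.b]
        _ = l2 * l1 * l2 * (l1 * l1) := by group
        _ = l2 * l1 * l2 := by rw [h.i1, mul_one]
    rw [e] at he
    calc l1 = l2 * (l2 * l1 * l2) * l2 := by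
          rw [show l2 * (l2 * l1 * l2) * l2 = (l2 * l2) * l1 * (l2 * l2) by group, h.i2]; simp
      _ = 1 := by rw [he, mul_one, h.i2]

theorem ddL1 (p q r : Bool) : l1 * dd l1 l2 p q r = dd l1 l2 q p (!r) := by
  cases p <;> cases q <;> cases r <;>
      simp [dd, mul_assoc, h.i1, h.r1, h.b]

theorem ddL2 (p q r : Bool) : l2 * dd l1 l2 p q r = dd l1 l2 p (!q) r := by
  cases p <;> cases q <;> cases r <;>
      simp [dd, mul_assoc, h.i1, h.i2, h.r1, h.r2, h.b, h.b']

theorem ddLmu (p q r : Bool) : (l1 * l2 * l1) * dd l1 l2 p q r = dd l1 l2 (!p) q r := by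
  cases p <;> cases q <;> cases r <;>
      simp [dd, mul_assoc, h.i1, h.i2, h.r1, h.r2, h.b, h.b']

theorem dd_inj {p q r p' q' r' : Bool} (he : dd l1 l2 p q r = dd l1 l2 p' q' r') :
    p = p' ∧ q = q' ∧ r = r' := by
  have s0 : dd l1 l2 false false false = 1 := by simp [dd]
  -- reduce the right-hand side to the identity
  have A : ∀ p q r r', dd l1 l2 p q r = dd l1 l2 false false r' →
      p = false ∧ q = false ∧ r = r' := by
    intro p q r r' he
    cases r'
    · exact h.dd_eq_one p q r (he.trans s0)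
    · have := congrArg (fun g => l1 * g) he
      simp only [h.ddL1, Bool.not_true] at this
      have := h.dd_eq_one _ _ _ (this.trans s0)
      refine ⟨this.2.1, this.1, ?_⟩
      simpa using this.2.2
  have B : ∀ p q r q' r', dd l1 l2 p q r = dd l1 l2 false q' r' →
      p = false ∧ q = q' ∧ r = r' := by
    intro p q r q' r' he
    cases q'
    · exact A p q r r' he
    · have := congrArg (fun g => l2 * g) he
      simp only [h.ddL2, Bool.not_true] at this
      have := A _ _ _ _ this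
      exact ⟨this.1, by simpa using this.2.1, this.2.2⟩
  cases p'
  · exact B p q r q' r' he
  · have := congrArg (fun g => (l1 * l2 * l1) * g) he
    simp only [h.ddLmu, Bool.not_true] at this
    have := B _ _ _ _ _ this
    exact ⟨by simpa using this.1, this.2.1, this.2.2⟩

/-- the exponent attached to a Boolean -/
theorem mem_L {g : G} (hg : g ∈ Subgroup.closure {l0, l1, l2}) :
    ∃ (x y : ZMod s) (p q r : Bool), g = ev l0 l1 l2 x y p q r := by
  induction hg using Subgroup.closure_induction_left with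
  | one => exact ⟨0, 0, false, false, false, h.ev_zero.symm⟩
  | mul_left a ha y _ ih =>
    obtain ⟨u, v, p, q, r, rfl⟩ := ih
    rcases ha with rfl | rfl | rfl
    · exact ⟨_, _, _, _, _, h.L0 _ _ _ _ _⟩
    · exact ⟨_, _, _, _, _, h.L1 _ _ _ _ _⟩
    · exact ⟨_, _, _, _, _, h.L2 _ _ _ _ _⟩
  | inv_mul_cancel a ha y _ ih =>
    obtain ⟨u, v, p, q, r, rfl⟩ := ih
    rcases ha with rfl | rfl | rfl
    · rw [h.inv0]; exact ⟨_, _, _, _, _, h.L0 _ _ _ _ _⟩
    · rw [h.inv1]; exact ⟨_, _, _, _, _, h.L1 _ _ _ _ _⟩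
    · rw [h.inv2]; exact ⟨_, _, _, _, _, h.L2 _ _ _ _ _⟩

end TorusGen

/-- `0` or `1` in `ZMod s` -/
def bz (s : ℕ) (p : Bool) : ZMod s := if p then 1 else 0

theorem bz_not (s : ℕ) (p : Bool) : bz s (!p) = 1 - bz s p := by cases p <;> simp [bz]

namespace TorusGen

variable {s : ℕ} {l0 l1 l2 : G} (h : TorusGen s l0 l1 l2)
include h

theorem mem_H0 {g : G} : g ∈ Subgroup.closure {l1, l2} ↔
    ∃ (p q r : Bool), g = ev l0 l1 l2 (0 : ZMod s) 0 p q r := by
  constructor
  · intro hg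
    induction hg using Subgroup.closure_induction_left with
    | one => exact ⟨false, false, false, h.ev_zero.symm⟩
    | mul_left a ha y _ ih =>
      obtain ⟨p, q, r, rfl⟩ := ih
      rcases ha with rfl | rfl
      · exact ⟨_, _, _, h.L1 _ _ _ _ _⟩
      · exact ⟨_, _, _, by rw [h.L2, neg_zero]⟩
    | inv_mul_cancel a ha y _ ih =>
      obtain ⟨p, q, r, rfl⟩ := ih
      rcases ha with rfl | rfl
      · rw [h.inv1]; exact ⟨_, _, _, h.L1 _ _ _ _ _⟩
      · rw [h.inv2]; exact ⟨_, _, _, by rw [h.L2, neg_zero]⟩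
  · rintro ⟨p, q, r, rfl⟩
    have m1 : l1 ∈ Subgroup.closure {l1, l2} := Subgroup.subset_closure (by simp)
    have m2 : l2 ∈ Subgroup.closure {l1, l2} := Subgroup.subset_closure (by simp)
    rw [ev, zp_zero, zp_zero, one_mul, one_mul, dd]
    refine Subgroup.mul_mem _ (Subgroup.mul_mem _ ?_ ?_) ?_
    · split
      · exact Subgroup.mul_mem _ (Subgroup.mul_mem _ m1 m2) m1
      · exact Subgroup.one_mem _
    · split
      · exact m2
      · exact Subgroup.one_mem _
    · split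
      · exact m1
      · exact Subgroup.one_mem _

theorem mem_H1 {g : G} : g ∈ Subgroup.closure {l0, l2} ↔
    ∃ (p q : Bool), g = ev l0 l1 l2 (bz s p) 0 p q false := by
  constructor
  · intro hg
    induction hg using Subgroup.closure_induction_left with
    | one => exact ⟨false, false, h.ev_zero.symm⟩
    | mul_left a ha y _ ih =>
      obtain ⟨p, q, rfl⟩ := ih
      rcases ha with rfl | rfl
      · exact ⟨!p, q, by rw [h.L0, bz_not]⟩
      · exact ⟨p, !q, by rw [h.L2, neg_zero]⟩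
    | inv_mul_cancel a ha y _ ih =>
      obtain ⟨p, q, rfl⟩ := ih
      rcases ha with rfl | rfl
      · rw [h.inv0]; exact ⟨!p, q, by rw [h.L0, bz_not]⟩
      · rw [h.inv2]; exact ⟨p, !q, by rw [h.L2, neg_zero]⟩
  · rintro ⟨p, q, rfl⟩
    have m0 : l0 ∈ Subgroup.closure {l0, l2} := Subgroup.subset_closure (by simp)
    have m2 : l2 ∈ Subgroup.closure {l0, l2} := Subgroup.subset_closure (by simp)
    have e0 : ev l0 l1 l2 (0 : ZMod s) 0 false q false = if q then l2 else 1 := by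
      cases q <;> simp [ev, dd, zp_zero]
    have hq : (if q then l2 else 1) ∈ Subgroup.closure {l0, l2} := by
      split
      · exact m2
      · exact Subgroup.one_mem _
    cases p
    · rw [show bz s false = 0 from rfl, e0]
      exact hq
    · have := h.L0 0 0 false q false
      rw [sub_zero, e0, Bool.not_false] at this
      rw [show bz s true = 1 from rfl, ← this]
      exact Subgroup.mul_mem _ m0 hq

theorem mem_H2 {g : G} : g ∈ Subgroup.closure {l0, l1} ↔
    ∃ (p q r : Bool), g = ev l0 l1 l2 (bz s p) (bz s q) p q r := by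
  constructor
  · intro hg
    induction hg using Subgroup.closure_induction_left with
    | one => exact ⟨false, false, false, h.ev_zero.symm⟩
    | mul_left a ha y _ ih =>
      obtain ⟨p, q, r, rfl⟩ := ih
      rcases ha with rfl | rfl
      · exact ⟨!p, q, r, by rw [h.L0, bz_not]⟩
      · exact ⟨q, p, !r, by rw [h.L1]⟩
    | inv_mul_cancel a ha y _ ih =>
      obtain ⟨p, q, r, rfl⟩ := ih
      rcases ha with rfl | rfl
      · rw [h.inv0]; exact ⟨!p, q, r, by rw [h.L0, bz_not]⟩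
      · rw [h.inv1]; exact ⟨q, p, !r, by rw [h.L1]⟩
  · rintro ⟨p, q, r, rfl⟩
    have m0 : l0 ∈ Subgroup.closure {l0, l1} := Subgroup.subset_closure (by simp)
    have m1 : l1 ∈ Subgroup.closure {l0, l1} := Subgroup.subset_closure (by simp)
    have c0 : ∀ x y p q r, ev l0 l1 l2 (x : ZMod s) y p q r ∈ Subgroup.closure {l0, l1} →
        ev l0 l1 l2 (1 - x) y (!p) q r ∈ Subgroup.closure {l0, l1} := by
      intro x y p q r hm
      rw [← h.L0]
      exact Subgroup.mul_mem _ m0 hm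
    have c1 : ∀ x y p q r, ev l0 l1 l2 (x : ZMod s) y p q r ∈ Subgroup.closure {l0, l1} →
        ev l0 l1 l2 y x q p (!r) ∈ Subgroup.closure {l0, l1} := by
      intro x y p q r hm
      rw [← h.L1]
      exact Subgroup.mul_mem _ m1 hm
    have z0 : ev l0 l1 l2 (0 : ZMod s) 0 false false false ∈ Subgroup.closure {l0, l1} := by
      rw [h.ev_zero]; exact Subgroup.one_mem _
    have z1 := c1 _ _ _ _ _ z0
    have z2 := c0 _ _ _ _ _ z0
    have z3 := c0 _ _ _ _ _ z1
    have z4 := c1 _ _ _ _ _ z2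
    have z5 := c1 _ _ _ _ _ z3
    have z6 := c0 _ _ _ _ _ z4
    have z7 := c0 _ _ _ _ _ z5
    simp only [sub_zero, Bool.not_false, Bool.not_true] at z0 z1 z2 z3 z4 z5 z6 z7
    cases p <;> cases q <;> cases r <;> simp only [bz, if_true, if_false, Bool.false_eq_true] <;>
      assumption

end TorusGen

end grp

end Pool.Agent.Helper622
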