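import Pool.Agent.Helper622.Torus

namespace Pool.Agent.Helper622

variable {G : Type} [Group G]

namespace TorusGen

variable {s : ℕ} {l0 l1 l2 : G} (h : TorusGen s l0 l1 l2)
include h

theorem zpX_inj {x : ZMod s} (hx : zp (tX l0 l1 l2) x = 1) : x = 0 := by
  have := h.neZero
  have h1 : orderOf (tX l0 l1 l2) ∣ x.val := orderOf_dvd_of_pow_eq_one hx
  rw [show orderOf (tX l0 l1 l2) = s from h.ord] at h1
  have h2 : x.val = 0 := Nat.eq_zero_of_dvd_of_lt h1 (ZMod.val_lt x)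
  exact (ZMod.val_eq_zero x).1 h2

theorem zpY_inj {x : ZMod s} (hx : zp (tY l0 l1 l2) x = 1) : x = 0 := by
  apply h.zpX_inj
  have := h.one_zpY x
  rw [hx, mul_one] at this
  have h3 : zp (tX l0 l1 l2) x * l1 = 1 * l1 := by rw [one_mul]; exact this.symm
  exact mul_right_cancel h3

theorem D_sq_central (p q r : Bool) : (dd l1 l2 p q r) ^ 4 = 1 := by
  have e : dd l1 l2 p q r ^ 4 = dd l1 l2 p q r * (dd l1 l2 p q r * (dd l1 l2 p q r *
      (dd l1 l2 p q r * 1))) := by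
    rw [mul_one, pow_succ, pow_succ, pow_two]
    group
  rw [e]
  cases p <;> cases q <;> cases r <;>
      simp [dd, mul_assoc, h.i1, h.i2, h.r1, h.r2, h.b, h.b']

/-- an element of the translation group that lies in `⟨l1, l2⟩` is trivial -/
theorem trans_eq {a b : ZMod s} {p q r : Bool}
    (he : zp (tX l0 l1 l2) a * zp (tY l0 l1 l2) b = dd l1 l2 p q r) : a = 0 ∧ b = 0 := by
  have hne := h.neZero
  have h4 : (zp (tX l0 l1 l2) a * zp (tY l0 l1 l2) b) ^ 4 = 1 := by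
    rw [he, h.D_sq_central]
  have hs : (zp (tX l0 l1 l2) a * zp (tY l0 l1 l2) b) ^ s = 1 := by
    have hc : Commute (zp (tX l0 l1 l2) a) (zp (tY l0 l1 l2) b) := h.comm_zp a b
    rw [hc.mul_pow, zp, zp, ← pow_mul, ← pow_mul, mul_comm a.val, mul_comm b.val, pow_mul, pow_mul,
      h.Xs, h.Ys, one_pow, one_pow, one_mul]
  have hT : zp (tX l0 l1 l2) a * zp (tY l0 l1 l2) b = 1 := by
    have h1 := orderOf_dvd_of_pow_eq_one h4
    have h2 := orderOf_dvd_of_pow_eq_one hs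
    have hcop : Nat.Coprime 4 s := by
      have := h.odd
      rw [← Nat.coprime_two_left] at this
      exact Nat.Coprime.pow_left 2 this
    have h3 := Nat.dvd_gcd h1 h2
    rw [hcop.gcd_eq_one, Nat.dvd_one, orderOf_eq_one_iff] at h3
    exact h3
  -- conjugate by `l2`
  have h5 : l2 * (zp (tX l0 l1 l2) a * zp (tY l0 l1 l2) b) =
      zp (tX l0 l1 l2) a * zp (tY l0 l1 l2) (-b) * l2 := by
    rw [← mul_assoc, h.two_zpX, mul_assoc, h.two_zpY, ← mul_assoc]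
  rw [hT, mul_one] at h5
  have h6 : zp (tX l0 l1 l2) a * zp (tY l0 l1 l2) (-b) = 1 := by
    have : zp (tX l0 l1 l2) a * zp (tY l0 l1 l2) (-b) * l2 = 1 * l2 := by rw [one_mul]; exact h5.symm
    exact mul_right_cancel this
  have h7 : zp (tX l0 l1 l2) (a + a) = 1 := by
    rw [zp_add h.Xs]
    rw [zp_neg h.Ys] at h6
    have h8 : zp (tX l0 l1 l2) a = zp (tY l0 l1 l2) b := mul_inv_eq_one.1 h6
    conv_lhs => rw [h8]
    rw [← h8] at hT ⊢
    exact hT
  have h9 : a + a = 0 := h.zpX_inj h7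
  have ha : a = 0 := by
    have h10 : ((2 : ℕ) : ZMod s) * a = 0 := by push_cast; rw [two_mul]; exact h9
    have h11 : IsUnit ((2 : ℕ) : ZMod s) := by
      rw [ZMod.isUnit_iff_coprime]
      exact Nat.coprime_two_left.2 h.odd
    exact (h11.mul_right_eq_zero).1 h10
  refine ⟨ha, ?_⟩
  rw [ha, zp_zero, one_mul] at hT
  exact h.zpY_inj hT

theorem ev_inj {x y x' y' : ZMod s} {p q r p' q' r' : Bool}
    (he : ev l0 l1 l2 x y p q r = ev l0 l1 l2 x' y' p' q' r') :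
    x = x' ∧ y = y' ∧ p = p' ∧ q = q' ∧ r = r' := by
  have hne := h.neZero
  -- the quotient of two elements of `⟨l1, l2⟩` is of the form `dd`
  have hd : ∃ p'' q'' r'', dd l1 l2 p' q' r' * (dd l1 l2 p q r)⁻¹ = dd l1 l2 p'' q'' r'' := by
    have m : ∀ p q r, dd l1 l2 p q r ∈ Subgroup.closure {l1, l2} := by
      intro p q r
      rw [h.mem_H0]
      exact ⟨p, q, r, by simp [ev, zp_zero]⟩
    obtain ⟨p'', q'', r'', h1⟩ := h.mem_H0.1 (Subgroup.mul_mem _ (m p' q' r')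
      (Subgroup.inv_mem _ (m p q r)))
    exact ⟨p'', q'', r'', by rw [h1]; simp [ev, zp_zero]⟩
  obtain ⟨p'', q'', r'', hd⟩ := hd
  have hT : zp (tX l0 l1 l2) (x - x') * zp (tY l0 l1 l2) (y - y') = dd l1 l2 p'' q'' r'' := by
    rw [← hd, sub_eq_neg_add, sub_eq_add_neg, zp_add h.Xs, zp_add h.Ys, zp_neg h.Xs, zp_neg h.Ys]
    rw [ev, ev] at he
    have e2 : dd l1 l2 p' q' r' = (zp (tY l0 l1 l2) y')⁻¹ * (zp (tX l0 l1 l2) x')⁻¹ *
        (zp (tX l0 l1 l2) x * zp (tY l0 l1 l2) y * dd l1 l2 p q r) := by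
      rw [he]; group
    rw [e2]
    have c1 : Commute (zp (tX l0 l1 l2) x) (zp (tY l0 l1 l2) y') := h.comm_zp _ _
    have c2 : Commute (zp (tX l0 l1 l2) x') (zp (tY l0 l1 l2) y') := h.comm_zp _ _
    have c3 : Commute (zp (tY l0 l1 l2) y) (zp (tY l0 l1 l2) y') := (Commute.refl _).pow_pow _ _
    calc (zp (tX l0 l1 l2) x')⁻¹ * zp (tX l0 l1 l2) x *
          (zp (tY l0 l1 l2) y * (zp (tY l0 l1 l2) y')⁻¹)
        = (zp (tX l0 l1 l2) x')⁻¹ * (zp (tX l0 l1 l2) x * ((zp (tY l0 l1 l2) y')⁻¹ *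
            zp (tY l0 l1 l2) y)) := by rw [(c3.inv_right).eq]; group
      _ = (zp (tX l0 l1 l2) x')⁻¹ * ((zp (tY l0 l1 l2) y')⁻¹ * zp (tX l0 l1 l2) x) *
            zp (tY l0 l1 l2) y := by rw [← (c1.inv_right).eq]; group
      _ = ((zp (tX l0 l1 l2) x')⁻¹ * (zp (tY l0 l1 l2) y')⁻¹) * zp (tX l0 l1 l2) x *
            zp (tY l0 l1 l2) y := by group
      _ = (zp (tY l0 l1 l2) y')⁻¹ * (zp (tX l0 l1 l2) x')⁻¹ *
            (zp (tX l0 l1 l2) x * zp (tY l0 l1 l2) y * dd l1 l2 p q r) *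
            (dd l1 l2 p q r)⁻¹ := by rw [(c2.inv_inv).eq]; group
  obtain ⟨h1, h2⟩ := h.trans_eq hT
  have hx : x = x' := sub_eq_zero.1 h1
  have hy : y = y' := sub_eq_zero.1 h2
  subst hx hy
  refine ⟨rfl, rfl, ?_⟩
  rw [ev, ev] at he
  exact h.dd_inj (mul_left_cancel he)

end TorusGen

end Pool.Agent.Helper622
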